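import Pool.Agent.H782.Kom.Main

/-!
# Families of matrices invariant under block swaps: general bounds
-/

namespace H782.Kom

open Finset

lemma ind_sum (n p : ℕ) (α : ℕ → ℝ) (hα : ∀ l, 0 ≤ α l) :
    ∑ v ∈ Nodes n, ind v p * α v.1 ≤ ∑ l ∈ range n, α l := by
  unfold Nodes
  calc _ ≤ ∑ v ∈ range n ×ˢ range n, ind v p * α v.1 :=
        Finset.sum_le_sum_of_subset_of_nonneg (Finset.filter_subset _ _)
          (fun v _ _ => mul_nonneg (ind_nonneg _ _) (hα _))
    _ ≤ ∑ l ∈ range n, α l := by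
        rw [Finset.sum_product]
        apply Finset.sum_le_sum
        intro l _
        simp only [ind]
        rw [← Finset.sum_mul]
        have : ∑ i ∈ range n, (if p / 2 ^ (l + 1) = i then (1 : ℝ) else 0) ≤ 1 := by
          rw [Finset.sum_ite_eq]
          split_ifs <;> norm_num
        calc _ ≤ 1 * α l := mul_le_mul_of_nonneg_right this (hα _)
          _ = _ := one_mul _

lemma gpart_none (n : ℕ) (α : ℕ → ℝ) (hα : ∀ l, 0 ≤ α l) (X : Finset (ℕ × ℕ → ℝ))
    (hg : ∀ x ∈ X, ∀ u, Full n u → Good x u)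
    (hn : ∀ x ∈ X, ∀ l j, (j + 1) * 2 ^ l ≤ n → HB n l j x →
      ∑ f ∈ Rows n (j * 2 ^ l), |x (j * 2 ^ l, cdr n (j * 2 ^ l) f)| ≤ α l) :
    ∃ ε : (ℕ × ℕ → ℝ) → ℝ, (∀ x, ε x = 1 ∨ ε x = -1) ∧
      ∀ p q, p < n → q < n → |zz X ε (p, q)| ≤ ∑ l ∈ range n, α l := by
  classical
  let jj : ℕ → ℕ := fun a => 2 * (n / 2 ^ (a + 1))
  let A : Finset ℕ := (range n).filter (fun a => (jj a + 1) * 2 ^ a ≤ n)
  let R : Finset (Sigma fun _ : ℕ => Option (ℕ × Bool)) := A.sigma (fun a => Rows n (jj a * 2 ^ a))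
  obtain ⟨ε, h1, h2⟩ := plainsign X R
    (fun r => (jj r.1 * 2 ^ r.1, cdr n (jj r.1 * 2 ^ r.1) r.2)) (∑ l ∈ range n, α l)
    (Finset.sum_nonneg fun l _ => hα l) (by
      intro x hx
      rw [Finset.sum_sigma]
      calc ∑ a ∈ A, ∑ f ∈ Rows n (jj a * 2 ^ a), |x (jj a * 2 ^ a, cdr n (jj a * 2 ^ a) f)|
          ≤ ∑ a ∈ A, α a := by
            apply Finset.sum_le_sum
            intro a ha
            exact hn x hx a (jj a) (Finset.mem_filter.1 ha).2 (fun u hu _ => hg x hx u hu)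
        _ ≤ ∑ a ∈ range n, α a :=
            Finset.sum_le_sum_of_subset_of_nonneg (Finset.filter_subset _ _)
              (fun a _ _ => hα a))
  refine ⟨ε, h1, ?_⟩
  intro p q hp hq
  -- maximal full block containing p
  have hex : ∃ b, ¬ ((p / 2 ^ b + 1) * 2 ^ b ≤ n) := by
    refine ⟨n, ?_⟩
    intro h1
    have : n < 2 ^ n := Nat.lt_two_pow_self
    nlinarith [Nat.zero_le (p / 2 ^ n * 2 ^ n)]
  obtain ⟨a, ha1, ha2⟩ := Nat.exists_not_and_succ_of_not_zero_of_exists
    (p := fun b => ¬ ((p / 2 ^ b + 1) * 2 ^ b ≤ n))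
    (by simp only [pow_zero, Nat.div_one, mul_one, not_not]; exact hp) hex
  rw [not_not] at ha1
  have htop := top_idx hp ha1 ha2
  have hA : a ∈ A := by
    refine Finset.mem_filter.2 ⟨?_, ?_⟩
    · rw [Finset.mem_range]
      have h3 : a < 2 ^ a := Nat.lt_two_pow_self
      nlinarith [Nat.zero_le (p / 2 ^ a * 2 ^ a)]
    · show (2 * (n / 2 ^ (a + 1)) + 1) * 2 ^ a ≤ n
      rw [← htop]
      exact ha1
  obtain ⟨f, hf1, hf2⟩ := row12 (n := n) (l := a) (j := jj a) (Finset.mem_filter.1 hA).2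
    (x := zz X ε) (fun u hu _ => good_zz ε (fun x hx => hg x hx u hu)) htop hq
  rw [hf2]
  exact h2 ⟨a, f⟩ (Finset.mem_sigma.2 ⟨hA, hf1⟩)

lemma gpart_chain (n : ℕ) (α : ℕ → ℝ) (hα : ∀ l, 0 ≤ α l) (v : ℕ × ℕ)
    (X : Finset (ℕ × ℕ → ℝ)) (hv : Full n v)
    (hP : ∀ x ∈ X, P n v v x) (hX : ∀ x ∈ X, x ∘ sd v ∈ X)
    (hn : ∀ x ∈ X, ∀ l j, (j + 1) * 2 ^ l ≤ n → HB n l j x →
      ∑ f ∈ Rows n (j * 2 ^ l), |x (j * 2 ^ l, cdr n (j * 2 ^ l) f)| ≤ α l)
    (hn' : ∀ x ∈ X, ∀ l j, (j + 1) * 2 ^ l ≤ n → HB n l j x →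
      ∑ f ∈ Rows n (j * 2 ^ l), |x (cdr n (j * 2 ^ l) f, j * 2 ^ l)| ≤ α l) :
    ∃ ε : (ℕ × ℕ → ℝ) → ℝ, (∀ x, ε x = 1 ∨ ε x = -1) ∧
      ∀ p q, p < n → q < n → |zz X ε (p, q)| ≤ (ind v p + ind v q) * (4 * α v.1) := by
  classical
  have hrr := hα v.1
  have hB : ∀ x ∈ X, HB n v.1 (2 * v.2) x := by
    intro x hx u hu hc
    apply (hP x hx).2.2.2.1 u hu _ (Or.inr rfl)
    rintro ⟨h1, h2⟩
    rcases hc with ⟨h3, _⟩ | h3
    · omega
    · rw [o_eq] at h3
      exact h3 h2
  let R : Finset (Bool × Option (ℕ × Bool)) := univ ×ˢ Rows n (2 * v.2 * 2 ^ v.1)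
  let cd : Bool × Option (ℕ × Bool) → ℕ × ℕ := fun r =>
    if r.1 then (2 * v.2 * 2 ^ v.1, cdr n (2 * v.2 * 2 ^ v.1) r.2)
    else (cdr n (2 * v.2 * 2 ^ v.1) r.2, 2 * v.2 * 2 ^ v.1)
  obtain ⟨ε, h1, h2, _, h4⟩ := antisign X (sd v) (sd v) (sd_sd v) (sd_sd v) (fun _ => rfl) hX hX
    (fun x hx => (hP x hx).2.2.2.2.1) (fun x hx => (hP x hx).2.2.2.2.1) R cd
    (2 * α v.1) (by positivity) (by
      intro x hx
      rw [Finset.sum_product]
      rw [Fintype.sum_bool]
      have e1 := hn x hx _ _ (first_full hv) (hB x hx)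
      have e2 := hn' x hx _ _ (first_full hv) (hB x hx)
      have e3 : ∑ f ∈ Rows n (2 * v.2 * 2 ^ v.1), |x (cd (true, f))| ≤ α v.1 := e1
      have e4 : ∑ f ∈ Rows n (2 * v.2 * 2 ^ v.1), |x (cd (false, f))| ≤ α v.1 := e2
      linarith) 2 (Or.inl ⟨rfl, rfl⟩)
  refine ⟨ε, h1, ?_⟩
  intro p q hp hq
  have hz : HB n v.1 (2 * v.2) (zz X ε) := fun u hu hc => good_zz ε (fun x hx => hB x hx u hu hc)
  have ha : ∀ d, zz X ε (sd v d) = - zz X ε d := h2
  have hc1 : ∀ f ∈ Rows n (2 * v.2 * 2 ^ v.1),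
      |zz X ε (2 * v.2 * 2 ^ v.1, cdr n (2 * v.2 * 2 ^ v.1) f)| ≤ 4 * α v.1 := by
    intro f hf
    have := h4 (true, f) (Finset.mem_product.2 ⟨Finset.mem_univ _, hf⟩)
    refine this.trans ?_
    push_cast
    linarith
  have hc2 : ∀ f ∈ Rows n (2 * v.2 * 2 ^ v.1),
      |(zz X ε ∘ Prod.swap) (2 * v.2 * 2 ^ v.1, cdr n (2 * v.2 * 2 ^ v.1) f)| ≤
        4 * α v.1 := by
    intro f hf
    have := h4 (false, f) (Finset.mem_product.2 ⟨Finset.mem_univ _, hf⟩)
    refine this.trans ?_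
    push_cast
    linarith
  by_cases hpv : p / 2 ^ (v.1 + 1) = v.2
  · have h5 := anti_row hv hz ha hc1 hpv hq
    have h6 := ind_nonneg v q
    have h7 : ind v p = 1 := by unfold ind; rw [if_pos hpv]
    rw [h7]
    nlinarith
  · by_cases hqv : q / 2 ^ (v.1 + 1) = v.2
    · have h5 := anti_row hv (HB_swap hz) (fun d => ha (d.2, d.1)) hc2 hqv hp
      change |zz X ε (p, q)| ≤ _ at h5
      have h6 := ind_nonneg v p
      have h7 : ind v q = 1 := by unfold ind; rw [if_pos hqv]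
      rw [h7]
      nlinarith
    · have h5 := ha (p, q)
      have h6 : sd v (p, q) = (p, q) := by simp only [sd, sw_neg hpv, sw_neg hqv]
      rw [h6] at h5
      have h7 : zz X ε (p, q) = 0 := by linarith
      rw [h7, abs_zero]
      have := ind_nonneg v p
      have := ind_nonneg v q
      positivity

lemma gpart_pair (n : ℕ) (β : ℝ) (hβ : 0 ≤ β) (v w : ℕ × ℕ) (X : Finset (ℕ × ℕ → ℝ)) (hv : Full n v) (hw : Full n w)
    (h : toLex v < toLex w ∧ ¬ Sub v w)
    (hP : ∀ x ∈ X, P n v w x) (hXv : ∀ x ∈ X, x ∘ sd v ∈ X) (hXw : ∀ x ∈ X, x ∘ sd w ∈ X)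
    (hn : ∀ x ∈ X, Pgood n v w x → |x (o v, o w)| ≤ β)
    (hn' : ∀ x ∈ X, Pgood n v w x → |x (o w, o v)| ≤ β) :
    ∃ ε : (ℕ × ℕ → ℝ) → ℝ, (∀ x, ε x = 1 ∨ ε x = -1) ∧
      ∀ p q, p < n → q < n → |zz X ε (p, q)| ≤
        (ind v p * ind w q + ind v q * ind w p) * (8 * β) := by
  classical
  rcases X.eq_empty_or_nonempty with rfl | hne
  · refine ⟨fun _ => 1, fun _ => Or.inl rfl, ?_⟩
    intro p q _ _
    simp only [zz, Finset.sum_empty, abs_zero]
    have := ind_nonneg v p
    have := ind_nonneg v q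
    have := ind_nonneg w p
    have := ind_nonneg w q
    positivity
  have hcomm : ∀ d, sd v (sd w d) = sd w (sd v d) := by
    obtain ⟨x, hx⟩ := hne
    intro d
    simp only [sd, sw_comm (hP x hx)]
  have hG : ∀ x ∈ X, Pgood n v w x := fun x hx u hu hs hlt => (hP x hx).2.2.2.1 u hu hs (Or.inl hlt)
  have hGs : ∀ x, Pgood n v w x → Pgood n v w (x ∘ Prod.swap) :=
    fun x hx u hu hs hlt => good_swap (hx u hu hs hlt)
  let cd : Bool → ℕ × ℕ := fun r => if r then (o v, o w) else (o w, o v)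
  obtain ⟨ε, h1, h2, h3, h4⟩ := antisign X (sd v) (sd w) (sd_sd v) (sd_sd w) hcomm hXv hXw
    (fun x hx => (hP x hx).2.2.2.2.1) (fun x hx => (hP x hx).2.2.2.2.2) (univ : Finset Bool) cd
    (2 * β) (by positivity) (by
      intro x hx
      rw [Fintype.sum_bool]
      have e1 := hn x hx (hG x hx)
      have e2 := hn' x hx (hG x hx)
      have e3 : |x (cd true)| ≤ β := e1
      have e4 : |x (cd false)| ≤ β := e2
      linarith) 4 (Or.inr rfl)
  refine ⟨ε, h1, ?_⟩
  intro p q hp hq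
  have hz : Pgood n v w (zz X ε) := fun u hu hs hlt => good_zz ε (fun x hx => hG x hx u hu hs hlt)
  have hav : ∀ d, zz X ε (sd v d) = - zz X ε d := h2
  have haw : ∀ d, zz X ε (sd w d) = - zz X ε d := h3
  have hc1 : |zz X ε (o v, o w)| ≤ 8 * β := by
    have := h4 true (Finset.mem_univ _)
    refine this.trans (le_of_eq ?_)
    push_cast
    ring
  have hc2 : |(zz X ε ∘ Prod.swap) (o v, o w)| ≤ 8 * β := by
    have := h4 false (Finset.mem_univ _)
    refine this.trans (le_of_eq ?_)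
    push_cast
    ring
  have hpos : 0 ≤ 8 * β := by positivity
  by_cases hpv : p / 2 ^ (v.1 + 1) = v.2
  · have hpw := disj h hpv
    have i1 : ind v p = 1 := by unfold ind; rw [if_pos hpv]
    have i2 : ind w p = 0 := by unfold ind; rw [if_neg hpw]
    by_cases hqw : q / 2 ^ (w.1 + 1) = w.2
    · have i3 : ind w q = 1 := by unfold ind; rw [if_pos hqw]
      rw [i1, i2, i3]
      have := anti_pair hv hw h hz hav haw hc1 hpv hqw
      linarith
    · have h5 := haw (p, q)
      have h6 : sd w (p, q) = (p, q) := by simp only [sd, sw_neg hpw, sw_neg hqw]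
      rw [h6] at h5
      have h7 : zz X ε (p, q) = 0 := by linarith
      rw [h7, abs_zero, i1, i2]
      have := ind_nonneg w q
      have := ind_nonneg v q
      positivity
  · have i1 : ind v p = 0 := by unfold ind; rw [if_neg hpv]
    by_cases hqv : q / 2 ^ (v.1 + 1) = v.2
    · have hqw := disj h hqv
      have i2 : ind v q = 1 := by unfold ind; rw [if_pos hqv]
      by_cases hpw : p / 2 ^ (w.1 + 1) = w.2
      · have i3 : ind w p = 1 := by unfold ind; rw [if_pos hpw]
        rw [i1, i2, i3]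
        have := anti_pair hv hw h (hGs _ hz) (fun d => hav (d.2, d.1)) (fun d => haw (d.2, d.1))
          hc2 hqv hpw
        change |zz X ε (p, q)| ≤ _ at this
        linarith
      · have h5 := haw (p, q)
        have h6 : sd w (p, q) = (p, q) := by simp only [sd, sw_neg hpw, sw_neg hqw]
        rw [h6] at h5
        have h7 : zz X ε (p, q) = 0 := by linarith
        rw [h7, abs_zero, i1, i2]
        have := ind_nonneg w p
        have := ind_nonneg w q
        positivity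
    · have h5 := hav (p, q)
      have h6 : sd v (p, q) = (p, q) := by simp only [sd, sw_neg hpv, sw_neg hqv]
      rw [h6] at h5
      have h7 : zz X ε (p, q) = 0 := by linarith
      rw [h7, abs_zero]
      have := ind_nonneg v p
      have := ind_nonneg v q
      have := ind_nonneg w p
      have := ind_nonneg w q
      positivity

theorem gfinset_signing (n : ℕ) (α : ℕ → ℝ) (hα : ∀ l, 0 ≤ α l) (β : ℕ → ℕ → ℝ)
    (hβ : ∀ l l', 0 ≤ β l l') (X : Finset (ℕ × ℕ → ℝ))
    (hX : ∀ x ∈ X, ∀ u, Full n u → x ∘ sd u ∈ X)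
    (hn : ∀ x ∈ X, ∀ l j, (j + 1) * 2 ^ l ≤ n → HB n l j x →
      ∑ f ∈ Rows n (j * 2 ^ l), |x (j * 2 ^ l, cdr n (j * 2 ^ l) f)| ≤ α l)
    (hn' : ∀ x ∈ X, ∀ l j, (j + 1) * 2 ^ l ≤ n → HB n l j x →
      ∑ f ∈ Rows n (j * 2 ^ l), |x (cdr n (j * 2 ^ l) f, j * 2 ^ l)| ≤ α l)
    (hpr : ∀ x ∈ X, ∀ v w, Full n v → Full n w → (toLex v < toLex w ∧ ¬ Sub v w) →
      Pgood n v w x → |x (o v, o w)| ≤ β v.1 w.1)
    (hpr' : ∀ x ∈ X, ∀ v w, Full n v → Full n w → (toLex v < toLex w ∧ ¬ Sub v w) →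
      Pgood n v w x → |x (o w, o v)| ≤ β v.1 w.1) :
    ∃ ε : (ℕ × ℕ → ℝ) → ℝ, (∀ x, ε x = 1 ∨ ε x = -1) ∧
      ∀ d : ℕ × ℕ, (d.1 < n ∧ d.2 < n) → |∑ x ∈ X, ε x * x d| ≤
        9 * ∑ l ∈ range n, α l + 16 * ∑ l ∈ range n, ∑ l' ∈ range n, β l l' := by
  classical
  let key : (ℕ × ℕ → ℝ) → Option ((ℕ × ℕ) × (ℕ × ℕ)) := fun x =>
    if h : ∃ vw : (ℕ × ℕ) × (ℕ × ℕ), P n vw.1 vw.2 x then some h.choose else none
  have key_some : ∀ x v w, key x = some (v, w) ↔ P n v w x := by
    intro x v w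
    constructor
    · intro h
      by_cases h' : ∃ vw : (ℕ × ℕ) × (ℕ × ℕ), P n vw.1 vw.2 x
      · have e : key x = some h'.choose := by simp only [key, dif_pos h']
        rw [e] at h
        have h1 := h'.choose_spec
        rw [Option.some.inj h] at h1
        exact h1
      · have e : key x = none := by simp only [key, dif_neg h']
        rw [e] at h
        exact absurd h (by simp)
    · intro h
      have h' : ∃ vw : (ℕ × ℕ) × (ℕ × ℕ), P n vw.1 vw.2 x := ⟨(v, w), h⟩
      have e : key x = some h'.choose := by simp only [key, dif_pos h']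
      rw [e]
      have := P_unique h'.choose_spec h
      congr 1
      exact Prod.ext this.1 this.2
  have key_none : ∀ x, key x = none → ∀ u, Full n u → Good x u := by
    intro x h u hu
    by_contra hb
    obtain ⟨v, w, h1⟩ := P_exists (n := n) (x := x) ⟨u, hu, hb⟩
    rw [(key_some x v w).2 h1] at h
    exact absurd h (by simp)
  let KS : Finset (Option ((ℕ × ℕ) × (ℕ × ℕ))) := insertNone (Nodes n ×ˢ Nodes n)
  have hkey : ∀ x ∈ X, key x ∈ KS := by
    intro x _
    rcases hk : key x with _ | ⟨v, w⟩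
    · simp [KS]
    · have := (key_some x v w).1 hk
      simp only [KS, Finset.some_mem_insertNone, Finset.mem_product]
      exact ⟨mem_Nodes.2 this.1, mem_Nodes.2 this.2.1⟩
  let T : Option ((ℕ × ℕ) × (ℕ × ℕ)) → ℕ × ℕ → ℝ := fun k d =>
    match k with
    | none => ∑ l ∈ range n, α l
    | some (v, w) => (if v = w then (ind v d.1 + ind v d.2) * (4 * α v.1) else 0) +
        (ind v d.1 * ind w d.2 + ind v d.2 * ind w d.1) * (8 * β v.1 w.1)
  obtain ⟨ε, h1, h2⟩ := assemble X key KS hkey T (fun d => d.1 < n ∧ d.2 < n) (by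
    intro k hk
    rcases k with _ | ⟨v, w⟩
    · obtain ⟨ε, h1, h2⟩ := gpart_none n α hα (X.filter (fun x => key x = none))
        (fun x hx => key_none x (Finset.mem_filter.1 hx).2)
        (fun x hx => hn x (Finset.mem_filter.1 hx).1)
      exact ⟨ε, h1, fun d hd => h2 d.1 d.2 hd.1 hd.2⟩
    · have hm : v ∈ Nodes n ∧ w ∈ Nodes n := by
        simpa only [KS, Finset.some_mem_insertNone, Finset.mem_product] using hk
      have hv := mem_Nodes.1 hm.1
      have hw := mem_Nodes.1 hm.2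
      have hP : ∀ x ∈ X.filter (fun x => key x = some (v, w)), P n v w x :=
        fun x hx => (key_some x v w).1 (Finset.mem_filter.1 hx).2
      have hXv : ∀ x ∈ X.filter (fun x => key x = some (v, w)),
          x ∘ sd v ∈ X.filter (fun x => key x = some (v, w)) := fun x hx =>
        Finset.mem_filter.2 ⟨hX x (Finset.mem_filter.1 hx).1 v hv,
          (key_some _ v w).2 (P_closed_v (hP x hx))⟩
      have hXw : ∀ x ∈ X.filter (fun x => key x = some (v, w)),
          x ∘ sd w ∈ X.filter (fun x => key x = some (v, w)) := fun x hx =>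
        Finset.mem_filter.2 ⟨hX x (Finset.mem_filter.1 hx).1 w hw,
          (key_some _ v w).2 (P_closed_w (hP x hx))⟩
      have hmx : ∀ x ∈ X.filter (fun x => key x = some (v, w)), x ∈ X :=
        fun x hx => (Finset.mem_filter.1 hx).1
      have hi := fun a b => ind_nonneg a b
      by_cases hvw : v = w
      · subst hvw
        obtain ⟨ε, h1, h2⟩ := gpart_chain n α hα v _ hv hP hXv
          (fun x hx => hn x (hmx x hx)) (fun x hx => hn' x (hmx x hx))
        refine ⟨ε, h1, fun d hd => (h2 d.1 d.2 hd.1 hd.2).trans ?_⟩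
        simp only [T, if_true]
        have : 0 ≤ (ind v d.1 * ind v d.2 + ind v d.2 * ind v d.1) *
            (8 * β v.1 v.1) := by
          have := hi v d.1
          have := hi v d.2
          have := hβ v.1 v.1
          positivity
        linarith
      · by_cases hne : toLex v < toLex w ∧ ¬ Sub v w
        · obtain ⟨ε, h1, h2⟩ := gpart_pair n (β v.1 w.1) (hβ _ _) v w _ hv hw hne hP hXv hXw
            (fun x hx => hpr x (hmx x hx) v w hv hw hne)
            (fun x hx => hpr' x (hmx x hx) v w hv hw hne)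
          refine ⟨ε, h1, fun d hd => (h2 d.1 d.2 hd.1 hd.2).trans ?_⟩
          simp only [T, if_neg hvw, zero_add, le_refl]
        · -- empty class
          have hemp : X.filter (fun x => key x = some (v, w)) = ∅ := by
            rw [Finset.eq_empty_iff_forall_notMem]
            intro x hx
            rcases (hP x hx).2.2.1 with e | e
            · exact hvw e
            · exact hne e
          refine ⟨fun _ => 1, fun _ => Or.inl rfl, fun d _ => ?_⟩
          rw [hemp, Finset.sum_empty, abs_zero]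
          simp only [T, if_neg hvw, zero_add]
          have := hi v d.1
          have := hi v d.2
          have := hi w d.1
          have := hi w d.2
          have := hβ v.1 w.1
          positivity)
  refine ⟨ε, h1, fun d hd => (h2 d hd).trans ?_⟩
  have e1 : ∑ k ∈ KS, T k d = ∑ l ∈ range n, α l +
      (4 * (∑ v ∈ Nodes n, ind v d.1 * α v.1 + ∑ v ∈ Nodes n, ind v d.2 * α v.1) +
      8 * (∑ v ∈ Nodes n, ∑ w ∈ Nodes n, ind v d.1 * (ind w d.2 * β v.1 w.1) +
        ∑ v ∈ Nodes n, ∑ w ∈ Nodes n, ind v d.2 * (ind w d.1 * β v.1 w.1))) := by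
    simp only [KS]
    rw [Finset.sum_insertNone]
    simp only [T]
    congr 1
    rw [Finset.sum_add_distrib]
    congr 1
    · rw [Finset.sum_product]
      rw [← Finset.sum_add_distrib, Finset.mul_sum]
      apply Finset.sum_congr rfl
      intro v hv
      rw [Finset.sum_ite_eq, if_pos hv]
      ring
    · rw [Finset.sum_product]
      rw [← Finset.sum_add_distrib, Finset.mul_sum]
      apply Finset.sum_congr rfl
      intro v _
      rw [← Finset.sum_add_distrib, Finset.mul_sum]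
      apply Finset.sum_congr rfl
      intro w _
      ring
  rw [e1]
  have a1 := ind_sum n d.1 α hα
  have a2 := ind_sum n d.2 α hα
  have hb : ∀ p q, ∑ v ∈ Nodes n, ∑ w ∈ Nodes n, ind v p * (ind w q * β v.1 w.1) ≤
      ∑ l ∈ range n, ∑ l' ∈ range n, β l l' := by
    intro p q
    refine le_trans ?_ (ind_sum n p (fun l => ∑ l' ∈ range n, β l l')
      (fun l => Finset.sum_nonneg fun l' _ => hβ l l'))
    apply Finset.sum_le_sum
    intro v _
    rw [← Finset.mul_sum]
    exact mul_le_mul_of_nonneg_left (ind_sum n q (fun l' => β v.1 l') (fun l' => hβ _ _))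
      (ind_nonneg _ _)
  have b1 := hb d.1 d.2
  have b2 := hb d.2 d.1
  linarith

end H782.Kom
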