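import Pool.Agent.H782.Kom.Gen

/-!
# Diagonal entries, zero-one matrices, and the reduction from families to sets
-/

namespace H782.Kom

open Finset

/-! ### diagonal entries -/

/-- good for all nodes inside the block `(l, j)` -/
def Inside (n l j : ℕ) (x : ℕ × ℕ → ℝ) : Prop :=
  ∀ u, Full n u → u.1 < l → o u / 2 ^ l = j → Good x u

lemma diag_const {n l j : ℕ} (hf : (j + 1) * 2 ^ l ≤ n) {x : ℕ × ℕ → ℝ} (hx : Inside n l j x)
    {p : ℕ} (hp : p / 2 ^ l = j) : x (p, p) = x (j * 2 ^ l, j * 2 ^ l) := by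
  obtain ⟨π, h1, h2, h3⟩ := trans l j p hp
  have := h3 x (fun u hu ho => hx u (full_in hf hu ho) hu ho) (j * 2 ^ l) (j * 2 ^ l)
  rw [h1] at this
  exact this

lemma diag_size {n l j : ℕ} (hf : (j + 1) * 2 ^ l ≤ n) {x : ℕ × ℕ → ℝ} (hx : Inside n l j x) :
    2 ^ l * x (j * 2 ^ l, j * 2 ^ l) ^ 2 ≤ ∑ p ∈ range n, x (p, p) ^ 2 := by
  calc 2 ^ l * x (j * 2 ^ l, j * 2 ^ l) ^ 2
      = ∑ p ∈ (range n).filter (fun p => p / 2 ^ l = j), x (p, p) ^ 2 := by
        rw [Finset.sum_congr rfl (fun p hp => by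
          rw [diag_const hf hx (Finset.mem_filter.1 hp).2]), Finset.sum_const,
          card_block hf, nsmul_eq_mul]
        push_cast
        rfl
    _ ≤ _ := Finset.sum_le_sum_of_subset_of_nonneg (Finset.filter_subset _ _)
          (fun p _ _ => sq_nonneg _)

lemma dpart_none (n : ℕ) (γ : ℕ → ℝ) (hγ : ∀ l, 0 ≤ γ l) (X : Finset (ℕ × ℕ → ℝ))
    (hg : ∀ x ∈ X, ∀ u, Full n u → Good x u)
    (hn : ∀ x ∈ X, ∀ l j, (j + 1) * 2 ^ l ≤ n → Inside n l j x →
      |x (j * 2 ^ l, j * 2 ^ l)| ≤ γ l) :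
    ∃ ε : (ℕ × ℕ → ℝ) → ℝ, (∀ x, ε x = 1 ∨ ε x = -1) ∧
      ∀ p, p < n → |zz X ε (p, p)| ≤ ∑ l ∈ range n, γ l := by
  classical
  let jj : ℕ → ℕ := fun a => 2 * (n / 2 ^ (a + 1))
  let A : Finset ℕ := (range n).filter (fun a => (jj a + 1) * 2 ^ a ≤ n)
  obtain ⟨ε, h1, h2⟩ := plainsign X A
    (fun a => (jj a * 2 ^ a, jj a * 2 ^ a)) (∑ l ∈ range n, γ l)
    (Finset.sum_nonneg fun l _ => hγ l) (by
      intro x hx
      calc ∑ a ∈ A, |x (jj a * 2 ^ a, jj a * 2 ^ a)|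
          ≤ ∑ a ∈ A, γ a := by
            apply Finset.sum_le_sum
            intro a ha
            exact hn x hx a (jj a) (Finset.mem_filter.1 ha).2 (fun u hu _ _ => hg x hx u hu)
        _ ≤ ∑ a ∈ range n, γ a :=
            Finset.sum_le_sum_of_subset_of_nonneg (Finset.filter_subset _ _)
              (fun a _ _ => hγ a))
  refine ⟨ε, h1, ?_⟩
  intro p hp
  have hex : ∃ b, ¬ ((p / 2 ^ b + 1) * 2 ^ b ≤ n) := by
    refine ⟨n, ?_⟩
    intro h1
    have : n < 2 ^ n := Nat.lt_two_pow_self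
    nlinarith [Nat.zero_le (p / 2 ^ n * 2 ^ n)]
  obtain ⟨a, ha1, ha2⟩ := Nat.exists_not_and_succ_of_not_zero_of_exists
    (p := fun b => ¬ ((p / 2 ^ b + 1) * 2 ^ b ≤ n))
    (by simp only [pow_zero, Nat.div_one, mul_one, not_not]; exact hp) hex
  rw [not_not] at ha1
  have htop := top_idx hp ha1 ha2
  have hA : a ∈ A := by
    refine Finset.mem_filter.2 ⟨?_, ?_⟩
    · rw [Finset.mem_range]
      have h3 : a < 2 ^ a := Nat.lt_two_pow_self
      nlinarith [Nat.zero_le (p / 2 ^ a * 2 ^ a)]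
    · show (2 * (n / 2 ^ (a + 1)) + 1) * 2 ^ a ≤ n
      rw [← htop]
      exact ha1
  have := diag_const (n := n) (l := a) (j := jj a) (Finset.mem_filter.1 hA).2
    (x := zz X ε) (fun u hu _ _ => good_zz ε (fun x hx => hg x hx u hu)) htop
  rw [this]
  exact h2 a hA

lemma dpart_node (n : ℕ) (γ : ℕ → ℝ) (hγ : ∀ l, 0 ≤ γ l) (v : ℕ × ℕ)
    (X : Finset (ℕ × ℕ → ℝ)) (hv : Full n v)
    (hP : ∀ x ∈ X, ∃ w, P n v w x) (hX : ∀ x ∈ X, x ∘ sd v ∈ X)
    (hn : ∀ x ∈ X, ∀ l j, (j + 1) * 2 ^ l ≤ n → Inside n l j x →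
      |x (j * 2 ^ l, j * 2 ^ l)| ≤ γ l) :
    ∃ ε : (ℕ × ℕ → ℝ) → ℝ, (∀ x, ε x = 1 ∨ ε x = -1) ∧
      ∀ p, p < n → |zz X ε (p, p)| ≤ ind v p * (2 * γ v.1) := by
  classical
  have hB : ∀ x ∈ X, Inside n v.1 (2 * v.2) x := by
    intro x hx u hu hlt ho
    obtain ⟨w, hw⟩ := hP x hx
    apply hw.2.2.2.1 u hu (fun hs => by have := hs.1; omega)
    rcases hw.2.2.1 with e | e
    · right; exact e
    · left
      refine lt_trans ?_ e.1
      rw [Prod.Lex.toLex_lt_toLex]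
      left; exact hlt
  have hbad : ∀ x ∈ X, x ∘ sd v ≠ x := fun x hx => by
    obtain ⟨w, hw⟩ := hP x hx
    exact hw.2.2.2.2.1
  obtain ⟨ε, h1, h2, _, h4⟩ := antisign X (sd v) (sd v) (sd_sd v) (sd_sd v) (fun _ => rfl) hX hX
    hbad hbad ({()} : Finset Unit) (fun _ => (2 * v.2 * 2 ^ v.1, 2 * v.2 * 2 ^ v.1))
    (γ v.1) (hγ _) (by
      intro x hx
      rw [Finset.sum_singleton]
      exact hn x hx _ _ (first_full hv) (hB x hx)) 2 (Or.inl ⟨rfl, rfl⟩)
  refine ⟨ε, h1, ?_⟩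
  intro p hp
  have hz : Inside n v.1 (2 * v.2) (zz X ε) :=
    fun u hu hlt ho => good_zz ε (fun x hx => hB x hx u hu hlt ho)
  have ha : ∀ d, zz X ε (sd v d) = - zz X ε d := h2
  have h5 : |zz X ε (2 * v.2 * 2 ^ v.1, 2 * v.2 * 2 ^ v.1)| ≤ 2 * γ v.1 := by
    have := h4 () (Finset.mem_singleton_self _)
    refine this.trans (le_of_eq ?_)
    push_cast
    ring
  by_cases hpv : p / 2 ^ (v.1 + 1) = v.2
  · have h7 : ind v p = 1 := by unfold ind; rw [if_pos hpv]
    rw [h7, one_mul]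
    rcases half v hpv with k | k
    · rw [diag_const (first_full hv) hz k]; exact h5
    · have h8 := ha (p, p)
      have h9 : |zz X ε (p, p)| = |zz X ε (sw v p, sw v p)| := by
        change zz X ε (sw v p, sw v p) = _ at h8
        rw [h8, abs_neg]
      rw [h9, diag_const (first_full hv) hz k]; exact h5
  · have h8 := ha (p, p)
    have h6 : sd v (p, p) = (p, p) := by simp only [sd, sw_neg hpv]
    rw [h6] at h8
    have h7 : zz X ε (p, p) = 0 := by linarith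
    have h9 : ind v p = 0 := by unfold ind; rw [if_neg hpv]
    rw [h7, abs_zero, h9, zero_mul]

theorem gdiag (n : ℕ) (γ : ℕ → ℝ) (hγ : ∀ l, 0 ≤ γ l) (X : Finset (ℕ × ℕ → ℝ))
    (hX : ∀ x ∈ X, ∀ u, Full n u → x ∘ sd u ∈ X)
    (hn : ∀ x ∈ X, ∀ l j, (j + 1) * 2 ^ l ≤ n → Inside n l j x →
      |x (j * 2 ^ l, j * 2 ^ l)| ≤ γ l) :
    ∃ ε : (ℕ × ℕ → ℝ) → ℝ, (∀ x, ε x = 1 ∨ ε x = -1) ∧
      ∀ d : ℕ × ℕ, (d.1 < n ∧ d.1 = d.2) → |∑ x ∈ X, ε x * x d| ≤ 3 * ∑ l ∈ range n, γ l := by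
  classical
  let key : (ℕ × ℕ → ℝ) → Option (ℕ × ℕ) := fun x =>
    if h : ∃ vw : (ℕ × ℕ) × (ℕ × ℕ), P n vw.1 vw.2 x then some h.choose.1 else none
  have key_some : ∀ x v, key x = some v ↔ ∃ w, P n v w x := by
    intro x v
    constructor
    · intro h
      by_cases h' : ∃ vw : (ℕ × ℕ) × (ℕ × ℕ), P n vw.1 vw.2 x
      · have e : key x = some h'.choose.1 := by simp only [key, dif_pos h']
        rw [e] at h
        have h1 := h'.choose_spec
        rw [Option.some.inj h] at h1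
        exact ⟨_, h1⟩
      · have e : key x = none := by simp only [key, dif_neg h']
        rw [e] at h
        exact absurd h (by simp)
    · rintro ⟨w, h⟩
      have h' : ∃ vw : (ℕ × ℕ) × (ℕ × ℕ), P n vw.1 vw.2 x := ⟨(v, w), h⟩
      have e : key x = some h'.choose.1 := by simp only [key, dif_pos h']
      rw [e]
      have := P_unique h'.choose_spec h
      congr 1
      exact this.1
  have key_none : ∀ x, key x = none → ∀ u, Full n u → Good x u := by
    intro x h u hu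
    by_contra hb
    obtain ⟨v, w, h1⟩ := P_exists (n := n) (x := x) ⟨u, hu, hb⟩
    rw [(key_some x v).2 ⟨w, h1⟩] at h
    exact absurd h (by simp)
  let KS : Finset (Option (ℕ × ℕ)) := insertNone (Nodes n)
  have hkey : ∀ x ∈ X, key x ∈ KS := by
    intro x _
    rcases hk : key x with _ | v
    · simp [KS]
    · obtain ⟨w, this⟩ := (key_some x v).1 hk
      simp only [KS, Finset.some_mem_insertNone]
      exact mem_Nodes.2 this.1
  let T : Option (ℕ × ℕ) → ℕ × ℕ → ℝ := fun k d =>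
    match k with
    | none => ∑ l ∈ range n, γ l
    | some v => ind v d.1 * (2 * γ v.1)
  obtain ⟨ε, h1, h2⟩ := assemble X key KS hkey T (fun d => d.1 < n ∧ d.1 = d.2) (by
    intro k hk
    rcases k with _ | v
    · obtain ⟨ε, h1, h2⟩ := dpart_none n γ hγ (X.filter (fun x => key x = none))
        (fun x hx => key_none x (Finset.mem_filter.1 hx).2)
        (fun x hx => hn x (Finset.mem_filter.1 hx).1)
      refine ⟨ε, h1, ?_⟩
      rintro ⟨p, q⟩ ⟨hp, hpq⟩
      simp only at hp hpq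
      subst hpq
      exact h2 p hp
    · have hv : Full n v := by
        rw [← mem_Nodes]
        simpa only [KS, Finset.some_mem_insertNone] using hk
      obtain ⟨ε, h1, h2⟩ := dpart_node n γ hγ v (X.filter (fun x => key x = some v)) hv
        (fun x hx => (key_some x v).1 (Finset.mem_filter.1 hx).2)
        (fun x hx => Finset.mem_filter.2 ⟨hX x (Finset.mem_filter.1 hx).1 v hv, by
          obtain ⟨w, hw⟩ := (key_some x v).1 (Finset.mem_filter.1 hx).2
          exact (key_some _ v).2 ⟨w, P_closed_v hw⟩⟩)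
        (fun x hx => hn x (Finset.mem_filter.1 hx).1)
      refine ⟨ε, h1, ?_⟩
      rintro ⟨p, q⟩ ⟨hp, hpq⟩
      simp only at hp hpq
      subst hpq
      exact h2 p hp)
  refine ⟨ε, h1, fun d hd => (h2 d hd).trans ?_⟩
  have e1 : ∑ k ∈ KS, T k d = ∑ l ∈ range n, γ l + ∑ v ∈ Nodes n, ind v d.1 * (2 * γ v.1) := by
    simp only [KS]
    rw [Finset.sum_insertNone]
  rw [e1]
  have a1 := ind_sum n d.1 (fun l => 2 * γ l) (fun l => by have := hγ l; positivity)
  rw [← Finset.mul_sum] at a1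
  linarith

/-! ### zero-one matrices -/

lemma row3' {n l j : ℕ} (hf : (j + 1) * 2 ^ l ≤ n) {x : ℕ × ℕ → ℝ} (hx : HB n l j x) :
    2 ^ l * ∑ q ∈ range n, x (j * 2 ^ l, q) ^ 2 ≤ ∑ p ∈ range n, ∑ q ∈ range n, x (p, q) ^ 2 := by
  have h0 : ∀ p ∈ (range n).filter (fun p => p / 2 ^ l = j),
      ∑ q ∈ range n, x (p, q) ^ 2 = ∑ q ∈ range n, x (j * 2 ^ l, q) ^ 2 := by
    intro p hp
    obtain ⟨π, h1, h2, h3⟩ := trans l j p (Finset.mem_filter.1 hp).2
    symm
    refine Finset.sum_nbij' (fun q => π q) (fun q => π.symm q) ?_ ?_ (by simp) (by simp) ?_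
    · intro q hq
      rw [Finset.mem_range] at hq ⊢
      exact (perm_lt hf h2 q).2 hq
    · intro q hq
      rw [Finset.mem_range] at hq ⊢
      rw [← perm_lt hf h2]
      simpa using hq
    · intro q _
      have := h3 x (fun u hu ho => hx u (full_in hf hu ho) (Or.inl ⟨hu, ho⟩)) (j * 2 ^ l) q
      rw [← this, h1]
  calc 2 ^ l * ∑ q ∈ range n, x (j * 2 ^ l, q) ^ 2
      = ∑ p ∈ (range n).filter (fun p => p / 2 ^ l = j), ∑ q ∈ range n, x (p, q) ^ 2 := by
        rw [Finset.sum_congr rfl h0, Finset.sum_const, card_block hf, nsmul_eq_mul]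
        push_cast
        rfl
    _ ≤ ∑ p ∈ range n, ∑ q ∈ range n, x (p, q) ^ 2 :=
        Finset.sum_le_sum_of_subset_of_nonneg (Finset.filter_subset _ _)
          (fun p _ _ => Finset.sum_nonneg fun q _ => sq_nonneg _)

lemma pair_size' {n : ℕ} {v w : ℕ × ℕ} (hv : Full n v) (hw : Full n w)
    (h : toLex v < toLex w ∧ ¬ Sub v w) {x : ℕ × ℕ → ℝ} (hx : Pgood n v w x) :
    2 ^ (v.1 + w.1) * x (o v, o w) ^ 2 ≤ ∑ p ∈ range n, ∑ q ∈ range n, x (p, q) ^ 2 := by
  calc 2 ^ (v.1 + w.1) * x (o v, o w) ^ 2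
      = ∑ p ∈ (range n).filter (fun p => p / 2 ^ v.1 = 2 * v.2),
          ∑ q ∈ (range n).filter (fun q => q / 2 ^ w.1 = 2 * w.2), x (p, q) ^ 2 := by
        rw [Finset.sum_congr rfl (fun p hp => Finset.sum_congr rfl (fun q hq => by
          rw [pair_const hv hw h hx (Finset.mem_filter.1 hp).2 (Finset.mem_filter.1 hq).2]))]
        rw [Finset.sum_const, Finset.sum_const, card_block (first_full hv),
          card_block (first_full hw), nsmul_eq_mul, nsmul_eq_mul]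
        push_cast
        ring
    _ ≤ ∑ p ∈ (range n).filter (fun p => p / 2 ^ v.1 = 2 * v.2),
          ∑ q ∈ range n, x (p, q) ^ 2 :=
        Finset.sum_le_sum fun p _ => Finset.sum_le_sum_of_subset_of_nonneg
          (Finset.filter_subset _ _) (fun q _ _ => sq_nonneg _)
    _ ≤ _ := Finset.sum_le_sum_of_subset_of_nonneg (Finset.filter_subset _ _)
          (fun p _ _ => Finset.sum_nonneg fun q _ => sq_nonneg _)

/-- indicator of `l ≤ L` -/
noncomputable def ee (L l : ℕ) : ℝ := if l ≤ L then 1 else 0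

lemma ee_nonneg (L l : ℕ) : 0 ≤ ee L l := by unfold ee; split_ifs <;> norm_num

lemma ee_sum (L n : ℕ) : ∑ l ∈ range n, ee L l ≤ L + 1 := by
  unfold ee
  rw [← Finset.sum_filter, Finset.sum_const, nsmul_eq_mul, mul_one]
  have : ((range n).filter (fun l => l ≤ L)).card ≤ (range (L + 1)).card := by
    apply Finset.card_le_card
    intro l hl
    rw [Finset.mem_range]
    have := (Finset.mem_filter.1 hl).2
    omega
  rw [Finset.card_range] at this
  exact_mod_cast this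

lemma zo_le {y : ℝ} (hy : y = 0 ∨ y = 1) {m L t : ℕ} (hL : L = Nat.log 2 t)
    (h : 2 ^ m * y ^ 2 ≤ t) : |y| ≤ ee L m := by
  unfold ee
  rcases hy with hy | hy
  · rw [hy, abs_zero]
    split_ifs <;> norm_num
  · rw [hy] at h ⊢
    rw [one_pow, mul_one] at h
    have h1 : 2 ^ m ≤ t := by exact_mod_cast h
    have h2 : m ≤ L := by
      rw [hL]
      exact Nat.le_log_of_pow_le (by norm_num) h1
    rw [if_pos h2]
    norm_num

lemma ee_mono {L a b : ℕ} (h : a ≤ b) : ee L b ≤ ee L a := by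
  unfold ee
  by_cases h1 : b ≤ L
  · rw [if_pos h1, if_pos (h.trans h1)]
  · rw [if_neg h1]
    split_ifs <;> norm_num

lemma ee_add {L a b : ℕ} : ee L (a + b) ≤ ee L a * ee L b := by
  unfold ee
  by_cases h1 : a + b ≤ L
  · rw [if_pos h1, if_pos (by omega), if_pos (by omega)]
    norm_num
  · rw [if_neg h1]
    split_ifs <;> norm_num

lemma zo_row {n l j t L : ℕ} (hL : L = Nat.log 2 t) (hf : (j + 1) * 2 ^ l ≤ n)
    {x : ℕ × ℕ → ℝ} (hx : HB n l j x) (hz : ∀ p q, p < n → q < n → x (p, q) = 0 ∨ x (p, q) = 1)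
    (ht : ∑ p ∈ range n, ∑ q ∈ range n, x (p, q) ^ 2 ≤ t) :
    ∑ f ∈ Rows n (j * 2 ^ l), |x (j * 2 ^ l, cdr n (j * 2 ^ l) f)| ≤ (2 * L + 3) * ee L l := by
  have h3 := (row3' hf hx).trans ht
  have ho : j * 2 ^ l < n := by
    have : 0 < 2 ^ l := by positivity
    nlinarith
  have hnone : |x (j * 2 ^ l, j * 2 ^ l)| ≤ ee L l := by
    apply zo_le (hz _ _ ho ho) hL
    refine le_trans (mul_le_mul_of_nonneg_left ?_ (by positivity)) h3
    exact Finset.single_le_sum (f := fun q => x (j * 2 ^ l, q) ^ 2) (fun q _ => sq_nonneg _)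
      (Finset.mem_range.2 ho)
  have hsome : ∀ f : ℕ × Bool, Valid n (j * 2 ^ l) f →
      |x (j * 2 ^ l, cdr n (j * 2 ^ l) (some f))| ≤ ee L l * ee L f.1 := by
    intro f hv
    refine le_trans (zo_le (m := l + f.1) (hz _ _ ho ?_) hL ?_) ee_add
    · have h5 := hv.1
      have h6 : 0 < 2 ^ f.1 := by positivity
      show idx n (j * 2 ^ l) f.1 f.2 * 2 ^ f.1 < n
      nlinarith
    · rw [pow_add, mul_assoc]
      exact le_trans (mul_le_mul_of_nonneg_left (row4 hx hv) (by positivity)) h3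
  unfold Rows
  rw [Finset.sum_insertNone]
  have h5 : ∑ f ∈ (range n ×ˢ (univ : Finset Bool)).filter (Valid n (j * 2 ^ l)),
      |x (j * 2 ^ l, cdr n (j * 2 ^ l) (some f))| ≤ ee L l * (2 * (L + 1)) := by
    calc _ ≤ ∑ f ∈ (range n ×ˢ (univ : Finset Bool)).filter (Valid n (j * 2 ^ l)),
          ee L l * ee L f.1 := Finset.sum_le_sum fun f hf => hsome f (Finset.mem_filter.1 hf).2
      _ ≤ ∑ f ∈ range n ×ˢ (univ : Finset Bool), ee L l * ee L f.1 :=
          Finset.sum_le_sum_of_subset_of_nonneg (Finset.filter_subset _ _)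
            (fun f _ _ => mul_nonneg (ee_nonneg _ _) (ee_nonneg _ _))
      _ = ee L l * (2 * ∑ b ∈ range n, ee L b) := by
          rw [← Finset.mul_sum, Finset.sum_product]
          simp only [Finset.sum_const, Finset.card_univ, Fintype.card_bool, nsmul_eq_mul,
            Nat.cast_ofNat]
          simp only [Finset.mul_sum]
      _ ≤ _ := by
          apply mul_le_mul_of_nonneg_left _ (ee_nonneg _ _)
          have := ee_sum L n
          linarith
  have h6 : |x (j * 2 ^ l, cdr n (j * 2 ^ l) none)| ≤ ee L l := hnone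
  linarith

/-! ### reduction from families to sets -/

lemma reduce (n : ℕ) (N : Type) [Fintype N] (v : N → Fin n → Fin n → ℝ)
    (hv : ∀ g : Equiv.Perm (Fin n), (∃ h i : ℕ, (i + 1) * 2 ^ (h + 1) ≤ n ∧
      ∀ a : Fin n, (g a : ℕ) = if (a : ℕ) / 2 ^ (h + 1) = i then (a : ℕ) ^^^ 2 ^ h else (a : ℕ)) →
      ∃ τ : Equiv.Perm N, ∀ j a b, v (τ j) (g a) (g b) = v j a b) :
    ∃ X : Finset (ℕ × ℕ → ℝ), (∀ x ∈ X, ∃ j, ∀ a b : Fin n, x (a, b) = v j a b) ∧
      (∀ x ∈ X, ∀ u, Full n u → x ∘ sd u ∈ X) ∧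
      ∀ ε : (ℕ × ℕ → ℝ) → ℝ, (∀ x, ε x = 1 ∨ ε x = -1) →
        ∃ δ : N → ℝ, (∀ j, δ j = 1 ∨ δ j = -1) ∧
          ∀ a b : Fin n, ∑ j, δ j * v j a b = ∑ x ∈ X, ε x * x (a, b) := by
  classical
  let V : N → ℕ × ℕ → ℝ := fun j d =>
    if h : d.1 < n ∧ d.2 < n then v j ⟨d.1, h.1⟩ ⟨d.2, h.2⟩ else 0
  have hV : ∀ j (a b : Fin n), V j (a, b) = v j a b := by
    intro j a b
    simp only [V]
    rw [dif_pos ⟨a.2, b.2⟩]
  obtain ⟨X, hX1, hX2⟩ := parity V
  refine ⟨X, ?_, ?_, ?_⟩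
  · intro x hx
    have h1 : 0 < Nat.card {j // V j = x} := ((hX1 x).1 hx).pos
    obtain ⟨j, hj⟩ := (Nat.card_pos_iff.1 h1).1
    exact ⟨j, fun a b => by rw [← hj, hV]⟩
  · intro x hx u hu
    let g : Equiv.Perm (Fin n) :=
      { toFun := fun a => ⟨sw u a, sw_lt hu a.2⟩
        invFun := fun a => ⟨sw u a, sw_lt hu a.2⟩
        left_inv := fun a => by apply Fin.ext; exact sw_sw u a
        right_inv := fun a => by apply Fin.ext; exact sw_sw u a }
    obtain ⟨τ, hτ⟩ := hv g ⟨u.1, u.2, hu, fun a => rfl⟩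
    have h1 : ∀ j d, V (τ j) (sd u d) = V j d := by
      intro j d
      by_cases hd : d.1 < n ∧ d.2 < n
      · have hd' : sw u d.1 < n ∧ sw u d.2 < n :=
          ⟨sw_lt hu hd.1, sw_lt hu hd.2⟩
        have e1 : V (τ j) (sd u d) =
            v (τ j) ⟨sw u d.1, hd'.1⟩ ⟨sw u d.2, hd'.2⟩ := by
          simp only [V, sd]
          rw [dif_pos hd']
        have e2 : V j d = v j ⟨d.1, hd.1⟩ ⟨d.2, hd.2⟩ := by
          simp only [V]
          rw [dif_pos hd]
        rw [e1, e2]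
        exact hτ j ⟨d.1, hd.1⟩ ⟨d.2, hd.2⟩
      · have hd' : ¬ (sw u d.1 < n ∧ sw u d.2 < n) := by
          rintro ⟨h1, h2⟩
          apply hd
          have h3 := sw_lt hu h1
          have h4 := sw_lt hu h2
          rw [sw_sw] at h3 h4
          exact ⟨h3, h4⟩
        have e1 : V (τ j) (sd u d) = 0 := by
          simp only [V, sd]
          rw [dif_neg hd']
        have e2 : V j d = 0 := by
          simp only [V]
          rw [dif_neg hd]
        rw [e1, e2]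
    rw [hX1] at hx ⊢
    have hcard : Nat.card {j // V j = x ∘ sd u} = Nat.card {j // V j = x} := by
      apply Nat.card_congr
      symm
      refine τ.subtypeEquiv ?_
      intro j
      constructor
      · intro h
        funext d
        have := h1 j (sd u d)
        rw [sd_sd] at this
        rw [this, h]
        rfl
      · intro h
        funext d
        rw [← h1 j d, h]
        simp only [Function.comp_apply, sd_sd]
    rw [hcard]
    exact hx
  · intro ε h1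
    obtain ⟨δ, h3, h4⟩ := hX2 ε h1
    refine ⟨δ, h3, ?_⟩
    intro a b
    have e : ∑ j, δ j * v j a b = ∑ j, δ j * V j (a, b) :=
      Finset.sum_congr rfl fun j _ => by rw [hV]
    rw [e, h4]

/-- zero-one matrices -/
theorem zo_mat (n : ℕ) (N : Type) [Fintype N] (v : N → Fin n → Fin n → ℝ)
    (hv : ∀ g : Equiv.Perm (Fin n), (∃ h i : ℕ, (i + 1) * 2 ^ (h + 1) ≤ n ∧
      ∀ a : Fin n, (g a : ℕ) = if (a : ℕ) / 2 ^ (h + 1) = i then (a : ℕ) ^^^ 2 ^ h else (a : ℕ)) →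
      ∃ τ : Equiv.Perm N, ∀ j a b, v (τ j) (g a) (g b) = v j a b)
    (hz : ∀ j a b, v j a b = 0 ∨ v j a b = 1) (t : ℕ) (ht : ∀ j, ∑ a, ∑ b, v j a b ^ 2 ≤ t) :
    ∃ ε : N → ℝ, (∀ j, ε j = 1 ∨ ε j = -1) ∧
      ∀ a b, |∑ j, ε j * v j a b| ≤ 43 * ((Nat.log 2 t : ℝ) + 1) ^ 2 := by
  classical
  obtain ⟨X, h1, h2, h3⟩ := reduce n N v hv
  set L := Nat.log 2 t with hL
  have hzx : ∀ x ∈ X, ∀ p q, p < n → q < n → x (p, q) = 0 ∨ x (p, q) = 1 := by
    intro x hx p q hp hq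
    obtain ⟨j, hj⟩ := h1 x hx
    have := hz j ⟨p, hp⟩ ⟨q, hq⟩
    rw [← hj] at this
    exact this
  have htx : ∀ x ∈ X, ∑ p ∈ range n, ∑ q ∈ range n, x (p, q) ^ 2 ≤ t := by
    intro x hx
    obtain ⟨j, hj⟩ := h1 x hx
    rw [Finset.sum_range]
    have e : ∀ a : Fin n, ∑ q ∈ range n, x (↑a, q) ^ 2 = ∑ b, v j a b ^ 2 := by
      intro a
      rw [Finset.sum_range]
      exact Finset.sum_congr rfl fun b _ => by rw [hj]
    rw [Finset.sum_congr rfl fun a _ => e a]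
    exact ht j
  have htx' : ∀ x ∈ X, ∑ p ∈ range n, ∑ q ∈ range n, (x ∘ Prod.swap) (p, q) ^ 2 ≤ t := by
    intro x hx
    rw [Finset.sum_comm]
    exact htx x hx
  obtain ⟨ε, h4, h5⟩ := gfinset_signing n (fun l => (2 * L + 3) * ee L l)
    (fun l => mul_nonneg (by positivity) (ee_nonneg _ _)) (fun l l' => ee L l * ee L l')
    (fun l l' => mul_nonneg (ee_nonneg _ _) (ee_nonneg _ _)) X h2
    (fun x hx l j hf hB => zo_row hL hf hB (hzx x hx) (htx x hx))
    (fun x hx l j hf hB => zo_row hL hf (HB_swap hB)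
      (fun p q hp hq => hzx x hx q p hq hp) (htx' x hx))
    (fun x hx w w' hw hw' hlt hg => by
      have hof : ∀ {u : ℕ × ℕ}, Full n u → o u < n := by
        intro u hu
        have := full_of_div hu (o_div u) (Nat.zero_le _)
        simpa using this
      exact (zo_le (hzx x hx _ _ (hof hw) (hof hw')) hL
        ((pair_size' hw hw' hlt hg).trans (htx x hx))).trans ee_add)
    (fun x hx w w' hw hw' hlt hg => by
      have hof : ∀ {u : ℕ × ℕ}, Full n u → o u < n := by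
        intro u hu
        have := full_of_div hu (o_div u) (Nat.zero_le _)
        simpa using this
      exact (zo_le (y := x (o w', o w)) (hzx x hx _ _ (hof hw') (hof hw)) hL
        ((pair_size' (x := x ∘ Prod.swap) hw hw' hlt
          (fun u hu hs hl => good_swap (hg u hu hs hl))).trans (htx' x hx))).trans ee_add)
  obtain ⟨δ, h6, h7⟩ := h3 ε h4
  refine ⟨δ, h6, fun a b => ?_⟩
  rw [h7]
  refine (h5 (a, b) ⟨a.2, b.2⟩).trans ?_
  have s1 : ∑ l ∈ range n, (2 * (L : ℝ) + 3) * ee L l ≤ (2 * L + 3) * (L + 1) := by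
    rw [← Finset.mul_sum]
    exact mul_le_mul_of_nonneg_left (ee_sum L n) (by positivity)
  have s0 : 0 ≤ ∑ l ∈ range n, ee L l := Finset.sum_nonneg fun l _ => ee_nonneg _ _
  have s2 : ∑ l ∈ range n, ∑ l' ∈ range n, ee L l * ee L l' ≤ ((L : ℝ) + 1) * (L + 1) := by
    rw [← Finset.sum_mul_sum]
    exact mul_le_mul (ee_sum L n) (ee_sum L n) s0 (by positivity)
  have hL0 : (0 : ℝ) ≤ L := Nat.cast_nonneg _
  nlinarith

/-- zero-one vectors -/
theorem zo_vec (n : ℕ) (N : Type) [Fintype N] (v : N → Fin n → ℝ)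
    (hv : ∀ g : Equiv.Perm (Fin n), (∃ h i : ℕ, (i + 1) * 2 ^ (h + 1) ≤ n ∧
      ∀ a : Fin n, (g a : ℕ) = if (a : ℕ) / 2 ^ (h + 1) = i then (a : ℕ) ^^^ 2 ^ h else (a : ℕ)) →
      ∃ τ : Equiv.Perm N, ∀ j a, v (τ j) (g a) = v j a)
    (hz : ∀ j a, v j a = 0 ∨ v j a = 1) (t : ℕ) (ht : ∀ j, ∑ a, v j a ^ 2 ≤ t) :
    ∃ ε : N → ℝ, (∀ j, ε j = 1 ∨ ε j = -1) ∧
      ∀ a, |∑ j, ε j * v j a| ≤ 3 * ((Nat.log 2 t : ℝ) + 1) := by
  classical
  obtain ⟨X, h1, h2, h3⟩ := reduce n N (fun j a b => if a = b then v j a else 0) (by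
    intro g hg
    obtain ⟨τ, hτ⟩ := hv g hg
    refine ⟨τ, fun j a b => ?_⟩
    show (if g a = g b then v (τ j) (g a) else 0) = (if a = b then v j a else 0)
    by_cases hab : a = b
    · rw [hab, if_pos rfl, if_pos rfl, hτ]
    · rw [if_neg hab, if_neg (fun h => hab (g.injective h))])
  set L := Nat.log 2 t with hL
  obtain ⟨ε, h4, h5⟩ := gdiag n (fun l => ee L l) (fun l => ee_nonneg _ _) X h2 (by
    intro x hx l j hf hi
    obtain ⟨k, hk⟩ := h1 x hx
    have hjn : j * 2 ^ l < n := by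
      have : 0 < 2 ^ l := by positivity
      nlinarith
    have hd : ∀ p, (hp : p < n) → x (p, p) = v k ⟨p, hp⟩ := by
      intro p hp
      have := hk ⟨p, hp⟩ ⟨p, hp⟩
      simpa using this
    apply zo_le _ hL
    · refine (diag_size hf hi).trans ?_
      rw [Finset.sum_range]
      refine le_trans (le_of_eq ?_) (ht k)
      exact Finset.sum_congr rfl fun a _ => by rw [hd a a.2]
    · rw [hd _ hjn]
      exact hz k _)
  obtain ⟨δ, h6, h7⟩ := h3 ε h4
  refine ⟨δ, h6, fun a => ?_⟩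
  have h8 := h7 a a
  simp only [if_true] at h8
  rw [h8]
  refine (h5 (a, a) ⟨a.2, rfl⟩).trans ?_
  have := ee_sum L n
  linarith

/-- real vectors of Euclidean norm at most one -/
theorem re_vec (n : ℕ) (N : Type) [Fintype N] (v : N → Fin n → ℝ)
    (hv : ∀ g : Equiv.Perm (Fin n), (∃ h i : ℕ, (i + 1) * 2 ^ (h + 1) ≤ n ∧
      ∀ a : Fin n, (g a : ℕ) = if (a : ℕ) / 2 ^ (h + 1) = i then (a : ℕ) ^^^ 2 ^ h else (a : ℕ)) →
      ∃ τ : Equiv.Perm N, ∀ j a, v (τ j) (g a) = v j a)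
    (ht : ∀ j, ∑ a, v j a ^ 2 ≤ 1) :
    ∃ ε : N → ℝ, (∀ j, ε j = 1 ∨ ε j = -1) ∧ ∀ a, |∑ j, ε j * v j a| ≤ 10.25 := by
  classical
  obtain ⟨X, h1, h2, h3⟩ := reduce n N (fun j a b => if a = b then v j a else 0) (by
    intro g hg
    obtain ⟨τ, hτ⟩ := hv g hg
    refine ⟨τ, fun j a b => ?_⟩
    show (if g a = g b then v (τ j) (g a) else 0) = (if a = b then v j a else 0)
    by_cases hab : a = b
    · rw [hab, if_pos rfl, if_pos rfl, hτ]
    · rw [if_neg hab, if_neg (fun h => hab (g.injective h))])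
  obtain ⟨ε, h4, h5⟩ := gdiag n (fun l => rr ^ l) (fun l => pow_nonneg rr_nonneg _) X h2 (by
    intro x hx l j hf hi
    obtain ⟨k, hk⟩ := h1 x hx
    have hd : ∀ p, (hp : p < n) → x (p, p) = v k ⟨p, hp⟩ := by
      intro p hp
      have := hk ⟨p, hp⟩ ⟨p, hp⟩
      simpa using this
    apply abs_le_rr
    refine (diag_size hf hi).trans ?_
    rw [Finset.sum_range]
    refine le_trans (le_of_eq ?_) (ht k)
    exact Finset.sum_congr rfl fun a _ => by rw [hd a a.2])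
  obtain ⟨δ, h6, h7⟩ := h3 ε h4
  refine ⟨δ, h6, fun a => ?_⟩
  have h8 := h7 a a
  simp only [if_true] at h8
  rw [h8]
  refine (h5 (a, a) ⟨a.2, rfl⟩).trans ?_
  have := rr_sum n
  linarith

end H782.Kom
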