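import Pool.Agent.H782.Kom.Gen2

/-!
# Lifting antisymmetric signings
-/

namespace H782.Kom

open Finset

lemma exists_pos (γ : Type) : ∃ pos : (γ → ℝ) → Prop, ∀ b : γ → ℝ, b ≠ 0 → (pos (-b) ↔ ¬ pos b) := by
  classical
  by_cases hγ : Nonempty γ
  · obtain ⟨g0⟩ := hγ
    let sel : Set γ → γ := fun s => if h : s.Nonempty then h.some else g0
    refine ⟨fun b => 0 < b (sel {g | b g ≠ 0}), ?_⟩
    intro b hb
    have hne : ({g | b g ≠ 0} : Set γ).Nonempty := by
      by_contra h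
      apply hb
      funext g
      by_contra hg
      exact h ⟨g, hg⟩
    have h1 : b (sel {g | b g ≠ 0}) ≠ 0 := by
      have : sel {g | b g ≠ 0} ∈ ({g | b g ≠ 0} : Set γ) := by
        simp only [sel, dif_pos hne]
        exact hne.some_mem
      exact this
    have h2 : ({g | (-b) g ≠ 0} : Set γ) = {g | b g ≠ 0} := by
      ext g; simp
    show (0 < (-b) (sel {g | (-b) g ≠ 0}) ↔ ¬ 0 < b (sel {g | b g ≠ 0}))
    rw [h2]
    simp only [Pi.neg_apply, Left.neg_pos_iff, not_lt]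
    constructor
    · intro h; exact h.le
    · intro h; exact lt_of_le_of_ne h h1
  · refine ⟨fun _ => True, fun b hb => ?_⟩
    exact absurd (funext fun g => absurd ⟨g⟩ hγ) hb

lemma lift {α β : Type} (X : Finset (α → ℝ)) (Y : (α → ℝ) → (β → ℝ))
    (κ : (α → ℝ) → (α → ℝ))
    (hneg : ∀ x ∈ X, -x ∈ X) (hκ : ∀ x ∈ X, κ x ∈ X) (hκκ : ∀ x, κ (κ x) = x)
    (hκn : ∀ x, κ (-x) = -κ x) (hYn : ∀ x, Y (-x) = -Y x) (hYκ : ∀ x ∈ X, Y (κ x) = Y x)
    (hY0 : ∀ x ∈ X, Y x ≠ 0)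
    (hfix : ∀ x ∈ X, ∀ x' ∈ X, κ x = x → κ x' = x' → Y x = Y x' → x = x')
    (I : Type) (hE : I → (α → ℝ) → (α → ℝ)) (hE' : I → (β → ℝ) → (β → ℝ))
    (h1 : ∀ i, ∀ x ∈ X, hE i x ∈ X) (h2 : ∀ i x, hE i (hE i x) = x)
    (h3 : ∀ i x, κ (hE i x) = hE i (κ x)) (h4 : ∀ i x, Y (hE i x) = hE' i (Y x))
    (R : Set β) (M : ℝ)
    (IH : ∀ B : Finset (β → ℝ), (∀ b ∈ B, -b ∈ B) → (∀ b ∈ B, b ≠ 0) →
      (∀ i, ∀ b ∈ B, hE' i b ∈ B) → (∀ b ∈ B, ∃ x ∈ X, Y x = b) →
      ∃ ε : (β → ℝ) → ℝ, (∀ b, ε b = 1 ∨ ε b = -1) ∧ (∀ b ∈ B, ε (-b) = -ε b) ∧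
        ∀ r ∈ R, |∑ b ∈ B, ε b * b r| ≤ M) :
    ∃ ε : (α → ℝ) → ℝ, (∀ x, ε x = 1 ∨ ε x = -1) ∧ (∀ x ∈ X, ε (-x) = -ε x) ∧
      (∀ x ∈ X, ε (κ x) = ε x) ∧ ∀ r ∈ R, |∑ x ∈ X, ε x * Y x r| ≤ 3 * M := by
  classical
  obtain ⟨pos, hpos⟩ := exists_pos β
  obtain ⟨pos', hpos'⟩ := exists_pos α
  let Xf := X.filter (fun x => κ x = x)
  let Xn := X.filter (fun x => ¬ κ x = x)
  have mXf : ∀ x, x ∈ Xf ↔ x ∈ X ∧ κ x = x := fun x => Finset.mem_filter
  have mXn : ∀ x, x ∈ Xn ↔ x ∈ X ∧ ¬ κ x = x := fun x => Finset.mem_filter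
  have nXf : ∀ x ∈ Xf, -x ∈ Xf := fun x hx => (mXf _).2 ⟨hneg x ((mXf x).1 hx).1, by
    rw [hκn, ((mXf x).1 hx).2]⟩
  have nXn : ∀ x ∈ Xn, -x ∈ Xn := fun x hx => (mXn _).2 ⟨hneg x ((mXn x).1 hx).1, by
    rw [hκn]; intro h; exact ((mXn x).1 hx).2 (neg_injective h)⟩
  have kXn : ∀ x ∈ Xn, κ x ∈ Xn := fun x hx => (mXn _).2 ⟨hκ x ((mXn x).1 hx).1, by
    rw [hκκ]; intro h; exact ((mXn x).1 hx).2 h.symm⟩
  have eXf : ∀ i, ∀ x ∈ Xf, hE i x ∈ Xf := fun i x hx => (mXf _).2 ⟨h1 i x ((mXf x).1 hx).1, by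
    rw [h3, ((mXf x).1 hx).2]⟩
  have eXn : ∀ i, ∀ x ∈ Xn, hE i x ∈ Xn := fun i x hx => (mXn _).2 ⟨h1 i x ((mXn x).1 hx).1, by
    rw [h3]; intro h
    apply ((mXn x).1 hx).2
    have := congrArg (hE i) h
    rwa [h2, h2] at this⟩
  -- fixed part
  let Bf := Xf.image Y
  obtain ⟨ε1, a1, a2, a3⟩ := IH Bf (by
    intro b hb
    obtain ⟨x, hx, rfl⟩ := Finset.mem_image.1 hb
    exact Finset.mem_image.2 ⟨-x, nXf x hx, hYn x⟩) (by
    intro b hb
    obtain ⟨x, hx, rfl⟩ := Finset.mem_image.1 hb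
    exact hY0 x ((mXf x).1 hx).1) (by
    intro i b hb
    obtain ⟨x, hx, rfl⟩ := Finset.mem_image.1 hb
    exact Finset.mem_image.2 ⟨hE i x, eXf i x hx, h4 i x⟩) (by
    intro b hb
    obtain ⟨x, hx, rfl⟩ := Finset.mem_image.1 hb
    exact ⟨x, ((mXf x).1 hx).1, rfl⟩)
  -- free part
  let Φ : (β → ℝ) → Finset (α → ℝ) := fun b => Xn.filter (fun x => Y x = b)
  let Rb : (β → ℝ) → Finset (α → ℝ) := fun b => (Φ b).filter (fun x => pos' (x - κ x))
  have mΦ : ∀ b x, x ∈ Φ b ↔ x ∈ Xn ∧ Y x = b := fun b x => Finset.mem_filter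
  have kΦ : ∀ b, ∀ x ∈ Φ b, κ x ∈ Φ b := fun b x hx => (mΦ b _).2
    ⟨kXn x ((mΦ b x).1 hx).1, by rw [hYκ x ((mXn x).1 ((mΦ b x).1 hx).1).1, ((mΦ b x).1 hx).2]⟩
  have hp' : ∀ x ∈ Xn, (pos' (κ x - κ (κ x)) ↔ ¬ pos' (x - κ x)) := by
    intro x hx
    have : κ x - κ (κ x) = -(x - κ x) := by rw [hκκ]; abel
    rw [this]
    apply hpos'
    intro h
    exact ((mXn x).1 hx).2 (sub_eq_zero.1 h).symm
  have hsplit : ∀ b (F : (α → ℝ) → ℝ), (∀ x ∈ Φ b, F (κ x) = F x) →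
      ∑ x ∈ Φ b, F x = 2 * ∑ x ∈ Rb b, F x := by
    intro b F hF
    rw [← Finset.sum_filter_add_sum_filter_not (Φ b) (fun x => pos' (x - κ x)) F]
    have : ∑ x ∈ (Φ b).filter (fun x => ¬ pos' (x - κ x)), F x = ∑ x ∈ Rb b, F x := by
      refine Finset.sum_nbij' κ κ ?_ ?_ (fun x _ => hκκ x) (fun x _ => hκκ x) ?_
      · intro x hx
        have hx' := Finset.mem_filter.1 hx
        exact Finset.mem_filter.2 ⟨kΦ b x hx'.1, (hp' x ((mΦ b x).1 hx'.1).1).2 hx'.2⟩
      · intro x hx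
        have hx' := Finset.mem_filter.1 hx
        refine Finset.mem_filter.2 ⟨kΦ b x hx'.1, ?_⟩
        rw [hp' x ((mΦ b x).1 hx'.1).1, not_not]
        exact hx'.2
      · intro x hx
        exact (hF x (Finset.mem_filter.1 hx).1).symm
    rw [this]
    ring
  have hcard : ∀ b, (Φ b).card = 2 * (Rb b).card := by
    intro b
    have := hsplit b (fun _ => 1) (fun _ _ => rfl)
    simp only [Finset.sum_const, nsmul_eq_mul, mul_one] at this
    exact_mod_cast this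
  have cneg : ∀ b, (Φ (-b)).card = (Φ b).card := by
    intro b
    refine Finset.card_bij' (fun x _ => -x) (fun x _ => -x) ?_ ?_ (fun x _ => neg_neg x)
      (fun x _ => neg_neg x)
    · intro x hx
      have hx' := (mΦ _ x).1 hx
      exact (mΦ b _).2 ⟨nXn x hx'.1, by rw [hYn, hx'.2, neg_neg]⟩
    · intro x hx
      have hx' := (mΦ _ x).1 hx
      exact (mΦ _ _).2 ⟨nXn x hx'.1, by rw [hYn, hx'.2]⟩
  have cE : ∀ i, ∀ b ∈ Xn.image Y, (Φ (hE' i b)).card = (Φ b).card := by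
    intro i b hb
    obtain ⟨x0, hx0, rfl⟩ := Finset.mem_image.1 hb
    have hback : hE' i (hE' i (Y x0)) = Y x0 := by rw [← h4, ← h4, h2]
    refine Finset.card_bij' (fun x _ => hE i x) (fun x _ => hE i x) ?_ ?_ (fun x _ => h2 i x)
      (fun x _ => h2 i x)
    · intro x hx
      have hx' := (mΦ _ x).1 hx
      exact (mΦ _ _).2 ⟨eXn i x hx'.1, by rw [h4, hx'.2, hback]⟩
    · intro x hx
      have hx' := (mΦ _ x).1 hx
      exact (mΦ _ _).2 ⟨eXn i x hx'.1, by rw [h4, hx'.2]⟩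
  let Bn := (Xn.image Y).filter (fun b => Odd (Rb b).card)
  have mBn : ∀ b, b ∈ Bn ↔ b ∈ Xn.image Y ∧ Odd (Rb b).card := fun b => Finset.mem_filter
  obtain ⟨ε2, b1, b2, b3⟩ := IH Bn (by
    intro b hb
    have hb' := (mBn b).1 hb
    obtain ⟨x, hx, hxb⟩ := Finset.mem_image.1 hb'.1
    refine (mBn _).2 ⟨Finset.mem_image.2 ⟨-x, nXn x hx, by rw [hYn, hxb]⟩, ?_⟩
    have e1 := hcard b
    have e2 := hcard (-b)
    rw [cneg b, e1] at e2
    have : (Rb (-b)).card = (Rb b).card := by omega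
    rw [this]; exact hb'.2) (by
    intro b hb
    obtain ⟨x, hx, rfl⟩ := Finset.mem_image.1 ((mBn b).1 hb).1
    exact hY0 x ((mXn x).1 hx).1) (by
    intro i b hb
    have hb' := (mBn b).1 hb
    obtain ⟨x, hx, hxb⟩ := Finset.mem_image.1 hb'.1
    refine (mBn _).2 ⟨Finset.mem_image.2 ⟨hE i x, eXn i x hx, by rw [h4, hxb]⟩, ?_⟩
    have e1 := hcard b
    have e2 := hcard (hE' i b)
    rw [cE i b hb'.1, e1] at e2
    have : (Rb (hE' i b)).card = (Rb b).card := by omega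
    rw [this]; exact hb'.2) (by
    intro b hb
    obtain ⟨x, hx, hxb⟩ := Finset.mem_image.1 ((mBn b).1 hb).1
    exact ⟨x, ((mXn x).1 hx).1, hxb⟩)
  choose δ d1 d2 using fun b : β → ℝ => alt (Rb b)
  let g : (α → ℝ) → ℝ := fun x =>
    ε2 (Y x) * (if pos' (x - κ x) then δ (Y x) x else δ (Y x) (κ x))
  have hg : ∀ x, g x = 1 ∨ g x = -1 := by
    intro x
    have : (if pos' (x - κ x) then δ (Y x) x else δ (Y x) (κ x)) = 1 ∨
        (if pos' (x - κ x) then δ (Y x) x else δ (Y x) (κ x)) = -1 := by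
      split_ifs
      · exact d1 _ _
      · exact d1 _ _
    rcases b1 (Y x) with h | h <;> rcases this with k | k <;> simp only [g, h, k] <;> norm_num
  have gκ : ∀ x ∈ Xn, g (κ x) = g x := by
    intro x hx
    simp only [g]
    rw [hYκ x ((mXn x).1 hx).1]
    by_cases hp : pos' (x - κ x)
    · rw [if_pos hp, if_neg (by rw [hp' x hx, not_not]; exact hp), hκκ]
    · rw [if_neg hp, if_pos ((hp' x hx).2 hp)]
  let ε : (α → ℝ) → ℝ := fun x =>
    if κ x = x then ε1 (Y x) else if pos (Y x) then g x else - g (-x)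
  have ef : ∀ x ∈ Xf, ε x = ε1 (Y x) := fun x hx => by
    simp only [ε, if_pos ((mXf x).1 hx).2]
  have en : ∀ x ∈ Xn, ε x = if pos (Y x) then g x else - g (-x) := fun x hx => by
    simp only [ε, if_neg ((mXn x).1 hx).2]
  have hor : ∀ x ∈ X, x ∈ Xf ∨ x ∈ Xn := by
    intro x hx
    by_cases h : κ x = x
    · left; exact (mXf x).2 ⟨hx, h⟩
    · right; exact (mXn x).2 ⟨hx, h⟩
  refine ⟨ε, ?_, ?_, ?_, ?_⟩
  · intro x
    simp only [ε]
    split_ifs
    · exact a1 _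
    · exact hg _
    · rcases hg (-x) with h | h <;> rw [h] <;> norm_num
  · intro x hx
    rcases hor x hx with h | h
    · rw [ef x h, ef _ (nXf x h), hYn]
      exact a2 _ (Finset.mem_image_of_mem _ h)
    · rw [en x h, en _ (nXn x h), hYn]
      have hY := hpos (Y x) (hY0 x hx)
      by_cases hp : pos (Y x)
      · rw [if_pos hp, if_neg (by rw [hY, not_not]; exact hp), neg_neg]
      · rw [if_neg hp, if_pos (hY.2 hp), neg_neg]
  · intro x hx
    rcases hor x hx with h | h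
    · rw [((mXf x).1 h).2]
    · rw [en x h, en _ (kXn x h), hYκ x hx, gκ x h, ← hκn, gκ _ (nXn x h)]
  · intro r hr
    have hX : ∑ x ∈ X, ε x * Y x r = ∑ x ∈ Xf, ε x * Y x r + ∑ x ∈ Xn, ε x * Y x r :=
      (Finset.sum_filter_add_sum_filter_not X (fun x => κ x = x) _).symm
    have hf : ∑ x ∈ Xf, ε x * Y x r = ∑ b ∈ Bf, ε1 b * b r := by
      rw [Finset.sum_image (fun x hx x' hx' h => hfix x ((mXf x).1 hx).1 x' ((mXf x').1 hx').1
        ((mXf x).1 hx).2 ((mXf x').1 hx').2 h)]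
      exact Finset.sum_congr rfl fun x hx => by rw [ef x hx]
    have hn1 : ∑ x ∈ Xn, ε x * Y x r = 2 * ∑ x ∈ Xn.filter (fun x => pos (Y x)), g x * Y x r := by
      rw [← Finset.sum_filter_add_sum_filter_not Xn (fun x => pos (Y x))]
      have e1 : ∑ x ∈ Xn.filter (fun x => pos (Y x)), ε x * Y x r =
          ∑ x ∈ Xn.filter (fun x => pos (Y x)), g x * Y x r := by
        apply Finset.sum_congr rfl
        intro x hx
        have hx' := Finset.mem_filter.1 hx
        rw [en x hx'.1, if_pos hx'.2]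
      have e2 : ∑ x ∈ Xn.filter (fun x => ¬ pos (Y x)), ε x * Y x r =
          ∑ x ∈ Xn.filter (fun x => pos (Y x)), g x * Y x r := by
        refine Finset.sum_nbij' (fun x => -x) (fun x => -x) ?_ ?_ (fun x _ => neg_neg x)
          (fun x _ => neg_neg x) ?_
        · intro x hx
          have hx' := Finset.mem_filter.1 hx
          refine Finset.mem_filter.2 ⟨nXn x hx'.1, ?_⟩
          rw [hYn, hpos (Y x) (hY0 x ((mXn x).1 hx'.1).1)]
          exact hx'.2
        · intro x hx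
          have hx' := Finset.mem_filter.1 hx
          refine Finset.mem_filter.2 ⟨nXn x hx'.1, ?_⟩
          rw [hYn, hpos (Y x) (hY0 x ((mXn x).1 hx'.1).1), not_not]
          exact hx'.2
        · intro x hx
          have hx' := Finset.mem_filter.1 hx
          rw [en x hx'.1, if_neg hx'.2, hYn]
          simp only [Pi.neg_apply]
          ring
      rw [e1, e2]
      ring
    have hn2 : ∑ x ∈ Xn.filter (fun x => pos (Y x)), g x * Y x r =
        ∑ b ∈ (Xn.image Y).filter pos, ε2 b * b r * (if Odd (Rb b).card then 2 else 0) := by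
      rw [← Finset.sum_fiberwise_of_maps_to (s := Xn.filter (fun x => pos (Y x)))
        (t := (Xn.image Y).filter pos) (g := Y) (fun x hx => by
          have hx' := Finset.mem_filter.1 hx
          exact Finset.mem_filter.2 ⟨Finset.mem_image_of_mem _ hx'.1, hx'.2⟩)]
      apply Finset.sum_congr rfl
      intro b hb
      have hb' := Finset.mem_filter.1 hb
      have e0 : (Xn.filter (fun x => pos (Y x))).filter (fun x => Y x = b) = Φ b := by
        ext x
        rw [Finset.mem_filter, Finset.mem_filter, mΦ]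
        constructor
        · rintro ⟨⟨h, _⟩, k⟩; exact ⟨h, k⟩
        · rintro ⟨h, k⟩; exact ⟨⟨h, by rw [k]; exact hb'.2⟩, k⟩
      rw [e0]
      have e1 : ∑ x ∈ Φ b, g x * Y x r = 2 * ∑ x ∈ Rb b, g x * Y x r := by
        apply hsplit b (fun x => g x * Y x r)
        intro x hx
        have hx' := (mΦ b x).1 hx
        show g (κ x) * Y (κ x) r = g x * Y x r
        rw [gκ x hx'.1, hYκ x ((mXn x).1 hx'.1).1]
      have e2 : ∑ x ∈ Rb b, g x * Y x r = ε2 b * b r * ∑ x ∈ Rb b, δ b x := by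
        rw [Finset.mul_sum]
        apply Finset.sum_congr rfl
        intro x hx
        have hx' := Finset.mem_filter.1 hx
        have hx'' := (mΦ b x).1 hx'.1
        simp only [g]
        rw [if_pos hx'.2, hx''.2]
        ring
      rw [e1, e2, d2 b]
      split_ifs <;> ring
    have hn3 : ∑ b ∈ (Xn.image Y).filter pos, ε2 b * b r * (if Odd (Rb b).card then 2 else 0) =
        2 * ∑ b ∈ Bn.filter pos, ε2 b * b r := by
      have e0 : Bn.filter pos = ((Xn.image Y).filter pos).filter (fun b => Odd (Rb b).card) := by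
        ext b
        simp only [Bn, Finset.mem_filter]
        tauto
      rw [e0, Finset.mul_sum, Finset.sum_filter (fun b => Odd (Rb b).card)]
      apply Finset.sum_congr rfl
      intro b _
      split_ifs <;> ring
    have hn4 : ∑ b ∈ Bn, ε2 b * b r = 2 * ∑ b ∈ Bn.filter pos, ε2 b * b r := by
      have negB : ∀ b ∈ Bn, -b ∈ Bn := by
        intro b hb
        have hb' := (mBn b).1 hb
        obtain ⟨x, hx, hxb⟩ := Finset.mem_image.1 hb'.1
        refine (mBn _).2 ⟨Finset.mem_image.2 ⟨-x, nXn x hx, by rw [hYn, hxb]⟩, ?_⟩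
        have e1 := hcard b
        have e2 := hcard (-b)
        rw [cneg b, e1] at e2
        have : (Rb (-b)).card = (Rb b).card := by omega
        rw [this]; exact hb'.2
      have ne0 : ∀ b ∈ Bn, b ≠ 0 := by
        intro b hb
        obtain ⟨x, hx, rfl⟩ := Finset.mem_image.1 ((mBn b).1 hb).1
        exact hY0 x ((mXn x).1 hx).1
      rw [← Finset.sum_filter_add_sum_filter_not Bn pos]
      have e2 : ∑ b ∈ Bn.filter (fun b => ¬ pos b), ε2 b * b r =
          ∑ b ∈ Bn.filter pos, ε2 b * b r := by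
        refine Finset.sum_nbij' (fun x => -x) (fun x => -x) ?_ ?_ (fun x _ => neg_neg x)
          (fun x _ => neg_neg x) ?_
        · intro b hb
          have hb' := Finset.mem_filter.1 hb
          exact Finset.mem_filter.2 ⟨negB b hb'.1, (hpos b (ne0 b hb'.1)).2 hb'.2⟩
        · intro b hb
          have hb' := Finset.mem_filter.1 hb
          refine Finset.mem_filter.2 ⟨negB b hb'.1, ?_⟩
          rw [hpos b (ne0 b hb'.1), not_not]
          exact hb'.2
        · intro b hb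
          have hb' := Finset.mem_filter.1 hb
          rw [b2 b hb'.1]
          simp only [Pi.neg_apply]
          ring
      rw [e2]
      ring
    have k1 := a3 r hr
    have k2 := b3 r hr
    rw [hX, hf, hn1, hn2, hn3, ← hn4]
    calc |∑ b ∈ Bf, ε1 b * b r + 2 * ∑ b ∈ Bn, ε2 b * b r|
        ≤ |∑ b ∈ Bf, ε1 b * b r| + |2 * ∑ b ∈ Bn, ε2 b * b r| := abs_add_le _ _
      _ = |∑ b ∈ Bf, ε1 b * b r| + 2 * |∑ b ∈ Bn, ε2 b * b r| := by
          rw [abs_mul, abs_of_pos (by norm_num : (0:ℝ) < 2)]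
      _ ≤ 3 * M := by linarith

end H782.Kom
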