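import Pool.Agent.H782.Kom.Node

/-!
# Matrices fixed by block swaps
-/

namespace H782.Kom

open Finset

lemma two_xor (j : ℕ) : (2 * j) ^^^ 1 = 2 * j + 1 := by
  have := Nat.xor_bit false j true 0
  simp [Nat.bit] at this ⊢

lemma two_xor' (j : ℕ) : (2 * j + 1) ^^^ 1 = 2 * j := by
  have := Nat.xor_bit true j true 0
  simpa [Nat.bit] using this

lemma xor_pow (i l : ℕ) : (2 * i * 2 ^ l) ^^^ 2 ^ l = (2 * i + 1) * 2 ^ l := by
  have h := Nat.shiftLeft_xor_distrib (i := l) (a := 2 * i) (b := 1)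
  rw [Nat.shiftLeft_eq, Nat.shiftLeft_eq, Nat.shiftLeft_eq, one_mul, two_xor] at h
  exact h.symm

lemma div_succ (p l : ℕ) : p / 2 ^ (l + 1) = p / 2 ^ l / 2 := by
  rw [pow_succ, ← Nat.div_div_eq_div_mul]

lemma full_in {n l j : ℕ} (hf : (j + 1) * 2 ^ l ≤ n) {u : ℕ × ℕ} (hu : u.1 < l)
    (ho : o u / 2 ^ l = j) : Full n u := by
  obtain ⟨m, rfl⟩ : ∃ m, l = m + 1 := ⟨l - 1, by omega⟩
  have h1 : Full n (m, j) := hf
  have := full_of_div h1 (q := o u) (h := u.1 + 1) ho (by simpa using Nat.succ_le_of_lt hu)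
  rw [o_div] at this
  exact this

/-- the swaps inside a block act transitively on the block -/
lemma trans (l : ℕ) : ∀ (j p : ℕ), p / 2 ^ l = j → ∃ π : Equiv.Perm ℕ, π (j * 2 ^ l) = p ∧
    (∀ a, a / 2 ^ l ≠ j → π a = a) ∧
    ∀ x : ℕ × ℕ → ℝ, (∀ u : ℕ × ℕ, u.1 < l → o u / 2 ^ l = j → Good x u) →
      ∀ a b, x (π a, π b) = x (a, b) := by
  induction l with
  | zero =>
    intro j p hp
    refine ⟨1, by simpa using hp.symm, fun a _ => rfl, fun x _ a b => rfl⟩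
  | succ l ih =>
    intro j p hp
    rw [div_succ] at hp
    obtain ⟨π', h1, h2, h3⟩ := ih (p / 2 ^ l) p rfl
    have hsub : ∀ x : ℕ × ℕ → ℝ, (∀ u : ℕ × ℕ, u.1 < l + 1 → o u / 2 ^ (l + 1) = j → Good x u) →
        (∀ u : ℕ × ℕ, u.1 < l → o u / 2 ^ l = p / 2 ^ l → Good x u) := by
      intro x hx u hu ho
      apply hx u (by omega)
      rw [div_succ, ho, hp]
    rcases Nat.even_or_odd' (p / 2 ^ l) with ⟨i, hi | hi⟩
    · have hij : i = j := by omega
      subst hij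
      refine ⟨π', ?_, ?_, ?_⟩
      · rw [← h1, hi, pow_succ]
        congr 1
        ring
      · intro a ha
        apply h2
        intro e
        apply ha
        rw [div_succ, e, hp]
      · intro x hx
        exact h3 x (hsub x hx)
    · have hij : i = j := by omega
      subst hij
      let σ : Equiv.Perm ℕ := ⟨sw (l, i), sw (l, i), sw_sw _, sw_sw _⟩
      refine ⟨σ.trans π', ?_, ?_, ?_⟩
      · show π' (sw (l, i) (i * 2 ^ (l + 1))) = p
        have e1 : sw (l, i) (i * 2 ^ (l + 1)) = (p / 2 ^ l) * 2 ^ l := by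
          rw [sw_pos (by simp)]
          rw [hi, ← xor_pow]
          congr 1
          ring
        rw [e1, h1]
      · intro a ha
        show π' (sw (l, i) a) = a
        rw [sw_neg ha]
        apply h2
        intro e
        apply ha
        rw [div_succ, e, hp]
      · intro x hx a b
        show x (π' (sw (l, i) a), π' (sw (l, i) b)) = x (a, b)
        rw [h3 x (hsub x hx)]
        have := good_iff.1 (hx (l, i) (Nat.lt_succ_self l) (o_div (l, i))) (a, b)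
        exact this

/-- a permutation fixing the outside of a block inside `[0, n)` maps `[0, n)` to itself -/
lemma perm_lt {n l j : ℕ} (hf : (j + 1) * 2 ^ l ≤ n) {π : Equiv.Perm ℕ}
    (h2 : ∀ a, a / 2 ^ l ≠ j → π a = a) (a : ℕ) : π a < n ↔ a < n := by
  have hin : ∀ b, b / 2 ^ l = j → b < n := by
    intro b hb
    have := Nat.lt_div_mul_add (a := b) (b := 2 ^ l) (by positivity)
    rw [hb] at this
    linarith
  by_cases ha : a / 2 ^ l = j
  · have h3 : π a / 2 ^ l = j := by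
      by_contra h
      have := h2 _ h
      have h4 := π.injective this
      rw [h4] at h
      exact h ha
    exact ⟨fun _ => hin _ ha, fun _ => hin _ h3⟩
  · rw [h2 a ha]

def idx (n o' b : ℕ) (k : Bool) : ℕ := if k then 2 * (n / 2 ^ (b + 1)) else (o' / 2 ^ b) ^^^ 1

def Valid (n o' : ℕ) (f : ℕ × Bool) : Prop :=
  (idx n o' f.1 f.2 + 1) * 2 ^ f.1 ≤ n ∧ o' / 2 ^ f.1 ≠ idx n o' f.1 f.2

instance (n o' : ℕ) (f : ℕ × Bool) : Decidable (Valid n o' f) := by unfold Valid; infer_instance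

def Rows (n o' : ℕ) : Finset (Option (ℕ × Bool)) :=
  insertNone ((range n ×ˢ (univ : Finset Bool)).filter (Valid n o'))

def cdr (n o' : ℕ) : Option (ℕ × Bool) → ℕ
  | none => o'
  | some f => idx n o' f.1 f.2 * 2 ^ f.1

/-- maximal full block, one past which it is not full -/
lemma top_idx {n q b : ℕ} (hq : q < n) (h1 : (q / 2 ^ b + 1) * 2 ^ b ≤ n)
    (h2 : ¬ (q / 2 ^ (b + 1) + 1) * 2 ^ (b + 1) ≤ n) : q / 2 ^ b = 2 * (n / 2 ^ (b + 1)) := by
  have hA : n / 2 ^ (b + 1) = q / 2 ^ (b + 1) := by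
    apply le_antisymm
    · have : n / 2 ^ (b + 1) < q / 2 ^ (b + 1) + 1 := by
        rw [Nat.div_lt_iff_lt_mul (by positivity)]
        omega
      omega
    · exact Nat.div_le_div_right hq.le
  rw [hA, div_succ]
  rw [div_succ, pow_succ] at h2
  have h3 : (q / 2 ^ b + 1) * 2 ^ b < (q / 2 ^ b / 2 + 1) * 2 * 2 ^ b := by
    calc (q / 2 ^ b + 1) * 2 ^ b ≤ n := h1
      _ < (q / 2 ^ b / 2 + 1) * (2 ^ b * 2) := not_le.1 h2
      _ = _ := by ring
  have h4 := Nat.lt_of_mul_lt_mul_right h3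
  omega

lemma sib {a c : ℕ} (h1 : a / 2 = c / 2) (h2 : a ≠ c) : c = a ^^^ 1 := by
  rcases Nat.even_or_odd' a with ⟨i, hi | hi⟩
  · rw [hi, two_xor]; omega
  · rw [hi, two_xor']; omega

/-- every leaf `q ≠ o'` lies in one of the listed blocks, whose inner nodes do not contain `o'` -/
lemma block_of {n o' q : ℕ} (hq : q < n) (hne : q ≠ o') :
    ∃ f : ℕ × Bool, f.1 < n ∧ Valid n o' f ∧ q / 2 ^ f.1 = idx n o' f.1 f.2 := by
  classical
  let p : ℕ → Prop := fun b => ¬ ((q / 2 ^ b + 1) * 2 ^ b ≤ n ∧ o' / 2 ^ b ≠ q / 2 ^ b)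
  have h0 : ¬ p 0 := by
    simp only [p, pow_zero, Nat.div_one, mul_one, not_not]
    exact ⟨hq, fun h => hne h.symm⟩
  have hex : ∃ b, p b := by
    refine ⟨n, ?_⟩
    rintro ⟨h1, _⟩
    have : n < 2 ^ n := Nat.lt_two_pow_self
    nlinarith [Nat.zero_le (q / 2 ^ n * 2 ^ n)]
  obtain ⟨b, hb1, hb2⟩ := Nat.exists_not_and_succ_of_not_zero_of_exists h0 hex
  simp only [p, not_not] at hb1
  have hbn : b < n := by
    have h3 : b < 2 ^ b := Nat.lt_two_pow_self
    have h1 := hb1.1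
    nlinarith [Nat.zero_le (q / 2 ^ b * 2 ^ b)]
  by_cases hfull : (q / 2 ^ (b + 1) + 1) * 2 ^ (b + 1) ≤ n
  · have h4 : o' / 2 ^ (b + 1) = q / 2 ^ (b + 1) := by
      by_contra h
      exact hb2 ⟨hfull, h⟩
    rw [div_succ, div_succ] at h4
    have h5 : q / 2 ^ b = (o' / 2 ^ b) ^^^ 1 := sib h4 hb1.2
    have h6 : idx n o' b false = q / 2 ^ b := by simp [idx, h5]
    refine ⟨(b, false), hbn, ⟨?_, ?_⟩, ?_⟩
    · simp only [h6]; exact hb1.1
    · simp only [h6]; exact hb1.2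
    · simp only [h6]
  · have h5 := top_idx hq hb1.1 hfull
    have h6 : idx n o' b true = q / 2 ^ b := by simp [idx, h5]
    refine ⟨(b, true), hbn, ⟨?_, ?_⟩, ?_⟩
    · simp only [h6]; exact hb1.1
    · simp only [h6]; exact hb1.2
    · simp only [h6]

/-- hypothesis on `x`: good for all nodes inside the block `(l, j)` and all nodes that do not
contain the first leaf of the block -/
def HB (n l j : ℕ) (x : ℕ × ℕ → ℝ) : Prop :=
  ∀ u, Full n u → ((u.1 < l ∧ o u / 2 ^ l = j) ∨ (j * 2 ^ l) / 2 ^ (u.1 + 1) ≠ u.2) → Good x u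

lemma row1 {n l j : ℕ} (hf : (j + 1) * 2 ^ l ≤ n) {x : ℕ × ℕ → ℝ} (hx : HB n l j x) {p : ℕ}
    (hp : p / 2 ^ l = j) {q : ℕ} (hq : q < n) : ∃ q' < n, x (p, q) = x (j * 2 ^ l, q') := by
  obtain ⟨π, h1, h2, h3⟩ := trans l j p hp
  refine ⟨π.symm q, ?_, ?_⟩
  · rw [← perm_lt hf h2]
    simpa using hq
  · have := h3 x (fun u hu ho => hx u (full_in hf hu ho) (Or.inl ⟨hu, ho⟩)) (j * 2 ^ l) (π.symm q)
    rw [← this, h1]
    simp

lemma const_block {n l j : ℕ} {x : ℕ × ℕ → ℝ} (hx : HB n l j x) {f : ℕ × Bool}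
    (hf : Valid n (j * 2 ^ l) f) {q : ℕ} (hq : q / 2 ^ f.1 = idx n (j * 2 ^ l) f.1 f.2) :
    x (j * 2 ^ l, q) = x (j * 2 ^ l, cdr n (j * 2 ^ l) (some f)) := by
  obtain ⟨π, h1, h2, h3⟩ := trans f.1 (idx n (j * 2 ^ l) f.1 f.2) q hq
  have h4 := h3 x (fun u hu ho => hx u (full_in hf.1 hu ho) (Or.inr (by
    intro e
    apply hf.2
    rw [← ho]
    rw [← o_div u] at e
    exact div_mono_eq (by omega) e))) (j * 2 ^ l) (idx n (j * 2 ^ l) f.1 f.2 * 2 ^ f.1)
  rw [h1, h2 _ hf.2] at h4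
  exact h4

lemma row12 {n l j : ℕ} (hf : (j + 1) * 2 ^ l ≤ n) {x : ℕ × ℕ → ℝ} (hx : HB n l j x) {p : ℕ}
    (hp : p / 2 ^ l = j) {q : ℕ} (hq : q < n) :
    ∃ f ∈ Rows n (j * 2 ^ l), x (p, q) = x (j * 2 ^ l, cdr n (j * 2 ^ l) f) := by
  obtain ⟨q', hq', e⟩ := row1 hf hx hp hq
  by_cases hne : q' = j * 2 ^ l
  · refine ⟨none, by simp [Rows], ?_⟩
    rw [e, hne]
    rfl
  · obtain ⟨f, h1, h2, h3⟩ := block_of hq' hne
    refine ⟨some f, ?_, ?_⟩
    · simp only [Rows, Finset.some_mem_insertNone, Finset.mem_filter, Finset.mem_product,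
        Finset.mem_range, Finset.mem_univ, and_true]
      exact ⟨h1, h2⟩
    · rw [e, const_block hx h2 h3]

lemma card_block {n l j : ℕ} (hf : (j + 1) * 2 ^ l ≤ n) :
    ((range n).filter (fun p => p / 2 ^ l = j)).card = 2 ^ l := by
  have : (range n).filter (fun p => p / 2 ^ l = j) = Finset.Ico (j * 2 ^ l) ((j + 1) * 2 ^ l) := by
    ext p
    rw [Finset.mem_filter, Finset.mem_range, Finset.mem_Ico]
    constructor
    · rintro ⟨_, h⟩
      constructor
      · rw [← h]; exact Nat.div_mul_le_self _ _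
      · have := Nat.lt_div_mul_add (a := p) (b := 2 ^ l) (by positivity)
        rw [h] at this
        linarith
    · rintro ⟨h1, h2⟩
      refine ⟨lt_of_lt_of_le h2 hf, ?_⟩
      apply le_antisymm
      · have : p / 2 ^ l < j + 1 := (Nat.div_lt_iff_lt_mul (by positivity)).2 h2
        omega
      · exact (Nat.le_div_iff_mul_le (by positivity)).2 h1
  rw [this, Nat.card_Ico, add_mul, one_mul, Nat.add_sub_cancel_left]

lemma row3 {n l j : ℕ} (hf : (j + 1) * 2 ^ l ≤ n) {x : ℕ × ℕ → ℝ} (hx : HB n l j x)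
    (hn : ∑ p ∈ range n, ∑ q ∈ range n, x (p, q) ^ 2 ≤ 1) :
    2 ^ l * ∑ q ∈ range n, x (j * 2 ^ l, q) ^ 2 ≤ 1 := by
  refine le_trans ?_ hn
  have h0 : ∀ p ∈ (range n).filter (fun p => p / 2 ^ l = j),
      ∑ q ∈ range n, x (p, q) ^ 2 = ∑ q ∈ range n, x (j * 2 ^ l, q) ^ 2 := by
    intro p hp
    obtain ⟨π, h1, h2, h3⟩ := trans l j p (Finset.mem_filter.1 hp).2
    symm
    refine Finset.sum_nbij' (fun q => π q) (fun q => π.symm q) ?_ ?_ (by simp) (by simp) ?_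
    · intro q hq
      rw [Finset.mem_range] at hq ⊢
      exact (perm_lt hf h2 q).2 hq
    · intro q hq
      rw [Finset.mem_range] at hq ⊢
      rw [← perm_lt hf h2]
      simpa using hq
    · intro q _
      have := h3 x (fun u hu ho => hx u (full_in hf hu ho) (Or.inl ⟨hu, ho⟩)) (j * 2 ^ l) q
      rw [← this, h1]
  calc 2 ^ l * ∑ q ∈ range n, x (j * 2 ^ l, q) ^ 2
      = ∑ p ∈ (range n).filter (fun p => p / 2 ^ l = j), ∑ q ∈ range n, x (p, q) ^ 2 := by
        rw [Finset.sum_congr rfl h0, Finset.sum_const, card_block hf, nsmul_eq_mul]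
        push_cast
        rfl
    _ ≤ ∑ p ∈ range n, ∑ q ∈ range n, x (p, q) ^ 2 :=
        Finset.sum_le_sum_of_subset_of_nonneg (Finset.filter_subset _ _)
          (fun p _ _ => Finset.sum_nonneg fun q _ => sq_nonneg _)

lemma row4 {n l j : ℕ} {x : ℕ × ℕ → ℝ} (hx : HB n l j x) {f : ℕ × Bool}
    (hf : Valid n (j * 2 ^ l) f) :
    2 ^ f.1 * x (j * 2 ^ l, cdr n (j * 2 ^ l) (some f)) ^ 2 ≤
      ∑ q ∈ range n, x (j * 2 ^ l, q) ^ 2 := by
  calc 2 ^ f.1 * x (j * 2 ^ l, cdr n (j * 2 ^ l) (some f)) ^ 2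
      = ∑ q ∈ (range n).filter (fun q => q / 2 ^ f.1 = idx n (j * 2 ^ l) f.1 f.2),
          x (j * 2 ^ l, q) ^ 2 := by
        rw [Finset.sum_congr rfl (fun q hq => by
          rw [const_block hx hf (Finset.mem_filter.1 hq).2]), Finset.sum_const,
          card_block hf.1, nsmul_eq_mul]
        push_cast
        rfl
    _ ≤ _ := Finset.sum_le_sum_of_subset_of_nonneg (Finset.filter_subset _ _)
          (fun p _ _ => sq_nonneg _)

/-- `1 / √2` -/
noncomputable def rr : ℝ := Real.sqrt (1 / 2)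

lemma rr_nonneg : 0 ≤ rr := Real.sqrt_nonneg _

lemma rr_sq : rr ^ 2 = 1 / 2 := Real.sq_sqrt (by norm_num)

lemma abs_le_rr {m : ℕ} {y : ℝ} (h : 2 ^ m * y ^ 2 ≤ 1) : |y| ≤ rr ^ m := by
  apply abs_le_of_sq_le_sq _ (pow_nonneg rr_nonneg _)
  rw [← pow_mul, mul_comm m 2, pow_mul, rr_sq, div_pow, one_pow, le_div_iff₀ (by positivity)]
  linarith

lemma rr_lt : rr ≤ 0.70711 := by
  unfold rr
  apply Real.sqrt_le_iff.2
  constructor <;> norm_num

lemma rr_sum (n : ℕ) : ∑ b ∈ range n, rr ^ b ≤ 3.415 := by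
  have h1 := rr_lt
  have h0 := rr_nonneg
  rw [geom_sum_eq (by intro h; rw [h] at h1; norm_num at h1)]
  rw [div_le_iff_of_neg (by linarith)]
  have := pow_nonneg h0 n
  nlinarith

lemma row_sum {n l j : ℕ} (hf : (j + 1) * 2 ^ l ≤ n) {x : ℕ × ℕ → ℝ} (hx : HB n l j x)
    (hn : ∑ p ∈ range n, ∑ q ∈ range n, x (p, q) ^ 2 ≤ 1) :
    ∑ f ∈ Rows n (j * 2 ^ l), |x (j * 2 ^ l, cdr n (j * 2 ^ l) f)| ≤ rr ^ l * 7.83 := by
  have h3 := row3 hf hx hn
  have ho : j * 2 ^ l < n := by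
    have : 0 < 2 ^ l := by positivity
    nlinarith
  have hnone : |x (j * 2 ^ l, j * 2 ^ l)| ≤ rr ^ l := by
    apply abs_le_rr
    refine le_trans (mul_le_mul_of_nonneg_left ?_ (by positivity)) h3
    exact Finset.single_le_sum (f := fun q => x (j * 2 ^ l, q) ^ 2) (fun q _ => sq_nonneg _)
      (Finset.mem_range.2 ho)
  have hsome : ∀ f : ℕ × Bool, Valid n (j * 2 ^ l) f →
      |x (j * 2 ^ l, cdr n (j * 2 ^ l) (some f))| ≤ rr ^ l * rr ^ f.1 := by
    intro f hv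
    rw [← pow_add]
    apply abs_le_rr
    rw [pow_add, mul_assoc]
    exact le_trans (mul_le_mul_of_nonneg_left (row4 hx hv) (by positivity)) h3
  unfold Rows
  rw [Finset.sum_insertNone]
  have h5 : ∑ f ∈ (range n ×ˢ (univ : Finset Bool)).filter (Valid n (j * 2 ^ l)),
      |x (j * 2 ^ l, cdr n (j * 2 ^ l) (some f))| ≤ rr ^ l * (2 * 3.415) := by
    calc _ ≤ ∑ f ∈ (range n ×ˢ (univ : Finset Bool)).filter (Valid n (j * 2 ^ l)),
          rr ^ l * rr ^ f.1 := Finset.sum_le_sum fun f hf => hsome f (Finset.mem_filter.1 hf).2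
      _ ≤ ∑ f ∈ range n ×ˢ (univ : Finset Bool), rr ^ l * rr ^ f.1 :=
          Finset.sum_le_sum_of_subset_of_nonneg (Finset.filter_subset _ _)
            (fun f _ _ => mul_nonneg (pow_nonneg rr_nonneg _) (pow_nonneg rr_nonneg _))
      _ = rr ^ l * (2 * ∑ b ∈ range n, rr ^ b) := by
          rw [← Finset.mul_sum, Finset.sum_product]
          simp only [Finset.sum_const, Finset.card_univ, Fintype.card_bool, nsmul_eq_mul,
            Nat.cast_ofNat]
          simp only [Finset.mul_sum]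
      _ ≤ _ := by
          apply mul_le_mul_of_nonneg_left _ (pow_nonneg rr_nonneg _)
          have := rr_sum n
          linarith
  have h6 : |x (j * 2 ^ l, cdr n (j * 2 ^ l) none)| ≤ rr ^ l := hnone
  have h7 := pow_nonneg rr_nonneg l
  nlinarith

end H782.Kom
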