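import Pool.Agent.H782.Kom.Sign
import Pool.Agent.H782.Kom.Row

/-!
# The Komlós problem for matrices, families invariant under block swaps
-/

namespace H782.Kom

open Finset

/-- sign sums -/
def zz (X : Finset (ℕ × ℕ → ℝ)) (ε : (ℕ × ℕ → ℝ) → ℝ) : ℕ × ℕ → ℝ :=
  fun d => ∑ x ∈ X, ε x * x d

lemma good_zz {X : Finset (ℕ × ℕ → ℝ)} (ε : (ℕ × ℕ → ℝ) → ℝ) {u : ℕ × ℕ}
    (h : ∀ x ∈ X, Good x u) : Good (zz X ε) u := by
  rw [good_iff]
  intro d
  unfold zz
  apply Finset.sum_congr rfl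
  intro x hx
  rw [good_iff.1 (h x hx) d]

lemma good_swap {x : ℕ × ℕ → ℝ} {u : ℕ × ℕ} (h : Good x u) : Good (x ∘ Prod.swap) u := by
  rw [good_iff] at h ⊢
  intro d
  exact h (d.2, d.1)

lemma HB_swap {n l j : ℕ} {x : ℕ × ℕ → ℝ} (h : HB n l j x) : HB n l j (x ∘ Prod.swap) :=
  fun u hu hc => good_swap (h u hu hc)

def Norm (n : ℕ) (x : ℕ × ℕ → ℝ) : Prop := ∑ p ∈ range n, ∑ q ∈ range n, x (p, q) ^ 2 ≤ 1

lemma norm_swap {n : ℕ} {x : ℕ × ℕ → ℝ} (h : Norm n x) : Norm n (x ∘ Prod.swap) := by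
  unfold Norm at h ⊢
  rw [Finset.sum_comm]
  exact h

/-! ### all nodes good -/

lemma part_none (n : ℕ) (X : Finset (ℕ × ℕ → ℝ)) (hg : ∀ x ∈ X, ∀ u, Full n u → Good x u)
    (hn : ∀ x ∈ X, Norm n x) :
    ∃ ε : (ℕ × ℕ → ℝ) → ℝ, (∀ x, ε x = 1 ∨ ε x = -1) ∧
      ∀ p q, p < n → q < n → |zz X ε (p, q)| ≤ 26.75 := by
  classical
  let jj : ℕ → ℕ := fun a => 2 * (n / 2 ^ (a + 1))
  let A : Finset ℕ := (range n).filter (fun a => (jj a + 1) * 2 ^ a ≤ n)
  let R : Finset (Sigma fun _ : ℕ => Option (ℕ × Bool)) := A.sigma (fun a => Rows n (jj a * 2 ^ a))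
  obtain ⟨ε, h1, h2⟩ := plainsign X R
    (fun r => (jj r.1 * 2 ^ r.1, cdr n (jj r.1 * 2 ^ r.1) r.2)) 26.75 (by norm_num) (by
      intro x hx
      rw [Finset.sum_sigma]
      calc ∑ a ∈ A, ∑ f ∈ Rows n (jj a * 2 ^ a), |x (jj a * 2 ^ a, cdr n (jj a * 2 ^ a) f)|
          ≤ ∑ a ∈ A, rr ^ a * 7.83 := by
            apply Finset.sum_le_sum
            intro a ha
            exact row_sum (Finset.mem_filter.1 ha).2 (fun u hu _ => hg x hx u hu) (hn x hx)
        _ ≤ ∑ a ∈ range n, rr ^ a * 7.83 :=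
            Finset.sum_le_sum_of_subset_of_nonneg (Finset.filter_subset _ _)
              (fun a _ _ => mul_nonneg (pow_nonneg rr_nonneg _) (by norm_num))
        _ = (∑ a ∈ range n, rr ^ a) * 7.83 := by rw [Finset.sum_mul]
        _ ≤ 26.75 := by
            have := rr_sum n
            linarith)
  refine ⟨ε, h1, ?_⟩
  intro p q hp hq
  -- maximal full block containing p
  have hex : ∃ b, ¬ ((p / 2 ^ b + 1) * 2 ^ b ≤ n) := by
    refine ⟨n, ?_⟩
    intro h1
    have : n < 2 ^ n := Nat.lt_two_pow_self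
    nlinarith [Nat.zero_le (p / 2 ^ n * 2 ^ n)]
  obtain ⟨a, ha1, ha2⟩ := Nat.exists_not_and_succ_of_not_zero_of_exists
    (p := fun b => ¬ ((p / 2 ^ b + 1) * 2 ^ b ≤ n))
    (by simp only [pow_zero, Nat.div_one, mul_one, not_not]; exact hp) hex
  rw [not_not] at ha1
  have htop := top_idx hp ha1 ha2
  have hA : a ∈ A := by
    refine Finset.mem_filter.2 ⟨?_, ?_⟩
    · rw [Finset.mem_range]
      have h3 : a < 2 ^ a := Nat.lt_two_pow_self
      nlinarith [Nat.zero_le (p / 2 ^ a * 2 ^ a)]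
    · show (2 * (n / 2 ^ (a + 1)) + 1) * 2 ^ a ≤ n
      rw [← htop]
      exact ha1
  obtain ⟨f, hf1, hf2⟩ := row12 (n := n) (l := a) (j := jj a) (Finset.mem_filter.1 hA).2
    (x := zz X ε) (fun u hu _ => good_zz ε (fun x hx => hg x hx u hu)) htop hq
  rw [hf2]
  exact h2 ⟨a, f⟩ (Finset.mem_sigma.2 ⟨hA, hf1⟩)

/-! ### moving a leaf to the first half of its node -/

lemma o_eq (v : ℕ × ℕ) : 2 * v.2 * 2 ^ v.1 = o v := by
  unfold o
  rw [pow_succ]
  ring

lemma first_full {n : ℕ} {v : ℕ × ℕ} (hv : Full n v) : (2 * v.2 + 1) * 2 ^ v.1 ≤ n := by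
  unfold Full at hv
  rw [pow_succ] at hv
  nlinarith [Nat.zero_le (2 ^ v.1)]

lemma half (v : ℕ × ℕ) {p : ℕ} (hp : p / 2 ^ (v.1 + 1) = v.2) :
    p / 2 ^ v.1 = 2 * v.2 ∨ sw v p / 2 ^ v.1 = 2 * v.2 := by
  have h := hp
  rw [div_succ] at h
  rcases Nat.even_or_odd' (p / 2 ^ v.1) with ⟨i, hi | hi⟩
  · left; omega
  · right
    rw [sw_pos hp, xor_div_self, hi, two_xor']
    omega

lemma sw_lt {n : ℕ} {v : ℕ × ℕ} (hv : Full n v) {q : ℕ} (hq : q < n) : sw v q < n := by
  by_cases h : q / 2 ^ (v.1 + 1) = v.2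
  · have h1 : sw v q / 2 ^ (v.1 + 1) = v.2 := by rw [sw_div_hi v _ (Nat.lt_succ_self _), h]
    have := full_of_div hv h1 (Nat.zero_le _)
    simp only [pow_zero, Nat.div_one, mul_one] at this
    exact this
  · rw [sw_neg h]; exact hq

/-- row bound for a matrix antisymmetric under `sd v` -/
lemma anti_row {n : ℕ} {v : ℕ × ℕ} (hv : Full n v) {z : ℕ × ℕ → ℝ}
    (hB : HB n v.1 (2 * v.2) z) (ha : ∀ d, z (sd v d) = - z d) {c : ℝ}
    (hc : ∀ f ∈ Rows n (2 * v.2 * 2 ^ v.1),
      |z (2 * v.2 * 2 ^ v.1, cdr n (2 * v.2 * 2 ^ v.1) f)| ≤ c)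
    {p q : ℕ} (hp : p / 2 ^ (v.1 + 1) = v.2) (hq : q < n) : |z (p, q)| ≤ c := by
  rcases half v hp with h | h
  · obtain ⟨f, hf1, hf2⟩ := row12 (first_full hv) hB h hq
    rw [hf2]
    exact hc f hf1
  · obtain ⟨f, hf1, hf2⟩ := row12 (first_full hv) hB h (sw_lt hv hq)
    have := ha (p, q)
    have e : z (p, q) = - z (sw v p, sw v q) := by
      change z (sw v p, sw v q) = - z (p, q) at this
      rw [this, neg_neg]
    rw [e, abs_neg, hf2]
    exact hc f hf1

noncomputable def ind (v : ℕ × ℕ) (p : ℕ) : ℝ := if p / 2 ^ (v.1 + 1) = v.2 then 1 else 0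

lemma ind_nonneg (v : ℕ × ℕ) (p : ℕ) : 0 ≤ ind v p := by unfold ind; split_ifs <;> norm_num

/-! ### chains -/

lemma part_chain (n : ℕ) (v : ℕ × ℕ) (X : Finset (ℕ × ℕ → ℝ)) (hv : Full n v)
    (hP : ∀ x ∈ X, P n v v x) (hX : ∀ x ∈ X, x ∘ sd v ∈ X) (hn : ∀ x ∈ X, Norm n x) :
    ∃ ε : (ℕ × ℕ → ℝ) → ℝ, (∀ x, ε x = 1 ∨ ε x = -1) ∧
      ∀ p q, p < n → q < n → |zz X ε (p, q)| ≤ (ind v p + ind v q) * (31.32 * rr ^ v.1) := by
  classical
  have hrr := pow_nonneg rr_nonneg v.1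
  have hB : ∀ x ∈ X, HB n v.1 (2 * v.2) x := by
    intro x hx u hu hc
    apply (hP x hx).2.2.2.1 u hu _ (Or.inr rfl)
    rintro ⟨h1, h2⟩
    rcases hc with ⟨h3, _⟩ | h3
    · omega
    · rw [o_eq] at h3
      exact h3 h2
  let R : Finset (Bool × Option (ℕ × Bool)) := univ ×ˢ Rows n (2 * v.2 * 2 ^ v.1)
  let cd : Bool × Option (ℕ × Bool) → ℕ × ℕ := fun r =>
    if r.1 then (2 * v.2 * 2 ^ v.1, cdr n (2 * v.2 * 2 ^ v.1) r.2)
    else (cdr n (2 * v.2 * 2 ^ v.1) r.2, 2 * v.2 * 2 ^ v.1)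
  obtain ⟨ε, h1, h2, _, h4⟩ := antisign X (sd v) (sd v) (sd_sd v) (sd_sd v) (fun _ => rfl) hX hX
    (fun x hx => (hP x hx).2.2.2.2.1) (fun x hx => (hP x hx).2.2.2.2.1) R cd
    (2 * (rr ^ v.1 * 7.83)) (by positivity) (by
      intro x hx
      rw [Finset.sum_product]
      rw [Fintype.sum_bool]
      have e1 := row_sum (first_full hv) (hB x hx) (hn x hx)
      have e2 := row_sum (first_full hv) (HB_swap (hB x hx)) (norm_swap (hn x hx))
      have e3 : ∑ f ∈ Rows n (2 * v.2 * 2 ^ v.1), |x (cd (true, f))| ≤ rr ^ v.1 * 7.83 := e1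
      have e4 : ∑ f ∈ Rows n (2 * v.2 * 2 ^ v.1), |x (cd (false, f))| ≤ rr ^ v.1 * 7.83 := e2
      linarith) 2 (Or.inl ⟨rfl, rfl⟩)
  refine ⟨ε, h1, ?_⟩
  intro p q hp hq
  have hz : HB n v.1 (2 * v.2) (zz X ε) := fun u hu hc => good_zz ε (fun x hx => hB x hx u hu hc)
  have ha : ∀ d, zz X ε (sd v d) = - zz X ε d := h2
  have hc1 : ∀ f ∈ Rows n (2 * v.2 * 2 ^ v.1),
      |zz X ε (2 * v.2 * 2 ^ v.1, cdr n (2 * v.2 * 2 ^ v.1) f)| ≤ 31.32 * rr ^ v.1 := by
    intro f hf
    have := h4 (true, f) (Finset.mem_product.2 ⟨Finset.mem_univ _, hf⟩)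
    refine this.trans ?_
    push_cast
    linarith
  have hc2 : ∀ f ∈ Rows n (2 * v.2 * 2 ^ v.1),
      |(zz X ε ∘ Prod.swap) (2 * v.2 * 2 ^ v.1, cdr n (2 * v.2 * 2 ^ v.1) f)| ≤
        31.32 * rr ^ v.1 := by
    intro f hf
    have := h4 (false, f) (Finset.mem_product.2 ⟨Finset.mem_univ _, hf⟩)
    refine this.trans ?_
    push_cast
    linarith
  by_cases hpv : p / 2 ^ (v.1 + 1) = v.2
  · have h5 := anti_row hv hz ha hc1 hpv hq
    have h6 := ind_nonneg v q
    have h7 : ind v p = 1 := by unfold ind; rw [if_pos hpv]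
    rw [h7]
    nlinarith
  · by_cases hqv : q / 2 ^ (v.1 + 1) = v.2
    · have h5 := anti_row hv (HB_swap hz) (fun d => ha (d.2, d.1)) hc2 hqv hp
      change |zz X ε (p, q)| ≤ _ at h5
      have h6 := ind_nonneg v p
      have h7 : ind v q = 1 := by unfold ind; rw [if_pos hqv]
      rw [h7]
      nlinarith
    · have h5 := ha (p, q)
      have h6 : sd v (p, q) = (p, q) := by simp only [sd, sw_neg hpv, sw_neg hqv]
      rw [h6] at h5
      have h7 : zz X ε (p, q) = 0 := by linarith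
      rw [h7, abs_zero]
      have := ind_nonneg v p
      have := ind_nonneg v q
      positivity

/-! ### two disjoint nodes -/

lemma disj {v w : ℕ × ℕ} (h : toLex v < toLex w ∧ ¬ Sub v w) {p : ℕ}
    (hp : p / 2 ^ (v.1 + 1) = v.2) : p / 2 ^ (w.1 + 1) ≠ w.2 := by
  intro e
  have h1 := h.1
  rw [Prod.Lex.toLex_lt_toLex] at h1
  apply h.2
  refine ⟨by omega, ?_⟩
  rw [← e]
  apply div_mono_eq (h := v.1 + 1) (by omega)
  rw [o_div, hp]

def Pgood (n : ℕ) (v w : ℕ × ℕ) (x : ℕ × ℕ → ℝ) : Prop :=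
  ∀ u, Full n u → ¬ Sub v u → toLex u < toLex w → Good x u

lemma pair_const {n : ℕ} {v w : ℕ × ℕ} (hv : Full n v) (hw : Full n w)
    (h : toLex v < toLex w ∧ ¬ Sub v w) {x : ℕ × ℕ → ℝ} (hx : Pgood n v w x) {p q : ℕ}
    (hp : p / 2 ^ v.1 = 2 * v.2) (hq : q / 2 ^ w.1 = 2 * w.2) : x (p, q) = x (o v, o w) := by
  have hlt := h.1
  rw [Prod.Lex.toLex_lt_toLex] at hlt
  have hqw : q / 2 ^ (w.1 + 1) = w.2 := by rw [div_succ, hq]; omega
  have hov : o v / 2 ^ (v.1 + 1) = v.2 := o_div v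
  have hov' : o v / 2 ^ v.1 = 2 * v.2 := by
    rw [← o_eq]; exact Nat.mul_div_cancel _ (by positivity)
  -- move p
  obtain ⟨π, h1, h2, h3⟩ := trans v.1 (2 * v.2) p hp
  have hq' : q / 2 ^ v.1 ≠ 2 * v.2 := by
    intro e
    refine disj h (p := q) ?_ hqw
    rw [div_succ, e]; omega
  have e1 := h3 x (fun u hu ho => hx u (full_in (first_full hv) hu ho)
    (fun hs => by have := hs.1; omega)
    (by rw [Prod.Lex.toLex_lt_toLex]; left; omega)) (2 * v.2 * 2 ^ v.1) q
  rw [h1, h2 q hq', o_eq] at e1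
  -- move q
  obtain ⟨π', h1', h2', h3'⟩ := trans w.1 (2 * w.2) q hq
  have hp' : o v / 2 ^ w.1 ≠ 2 * w.2 := by
    intro e
    refine disj h (p := o v) hov ?_
    rw [div_succ, e]; omega
  have e2 := h3' x (fun u hu ho => hx u (full_in (first_full hw) hu ho)
    (fun hs => by
      apply h.2
      refine ⟨by have := hs.1; omega, ?_⟩
      have hs2 := hs.2
      rw [← o_div u] at hs2
      have := div_mono_eq (l := w.1 + 1) (by omega) hs2
      rw [this, div_succ, ho]; omega)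
    (by rw [Prod.Lex.toLex_lt_toLex]; left; omega)) (o v) (2 * w.2 * 2 ^ w.1)
  rw [h1', h2' _ hp', o_eq] at e2
  rw [e1, e2]

lemma pair_size {n : ℕ} {v w : ℕ × ℕ} (hv : Full n v) (hw : Full n w)
    (h : toLex v < toLex w ∧ ¬ Sub v w) {x : ℕ × ℕ → ℝ} (hx : Pgood n v w x) (hn : Norm n x) :
    |x (o v, o w)| ≤ rr ^ (v.1 + w.1) := by
  apply abs_le_rr
  refine le_trans ?_ hn
  calc 2 ^ (v.1 + w.1) * x (o v, o w) ^ 2
      = ∑ p ∈ (range n).filter (fun p => p / 2 ^ v.1 = 2 * v.2),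
          ∑ q ∈ (range n).filter (fun q => q / 2 ^ w.1 = 2 * w.2), x (p, q) ^ 2 := by
        rw [Finset.sum_congr rfl (fun p hp => Finset.sum_congr rfl (fun q hq => by
          rw [pair_const hv hw h hx (Finset.mem_filter.1 hp).2 (Finset.mem_filter.1 hq).2]))]
        rw [Finset.sum_const, Finset.sum_const, card_block (first_full hv),
          card_block (first_full hw), nsmul_eq_mul, nsmul_eq_mul]
        push_cast
        ring
    _ ≤ ∑ p ∈ (range n).filter (fun p => p / 2 ^ v.1 = 2 * v.2),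
          ∑ q ∈ range n, x (p, q) ^ 2 :=
        Finset.sum_le_sum fun p _ => Finset.sum_le_sum_of_subset_of_nonneg
          (Finset.filter_subset _ _) (fun q _ _ => sq_nonneg _)
    _ ≤ _ := Finset.sum_le_sum_of_subset_of_nonneg (Finset.filter_subset _ _)
          (fun p _ _ => Finset.sum_nonneg fun q _ => sq_nonneg _)

lemma sw_first_of_notin {v : ℕ × ℕ} {p : ℕ} (h : p / 2 ^ (v.1 + 1) ≠ v.2) : sw v p = p := sw_neg h

/-- bound at `(p, q)`, `p` in `v`, `q` in `w` -/
lemma anti_pair {n : ℕ} {v w : ℕ × ℕ} (hv : Full n v) (hw : Full n w)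
    (h : toLex v < toLex w ∧ ¬ Sub v w) {z : ℕ × ℕ → ℝ} (hx : Pgood n v w z)
    (hav : ∀ d, z (sd v d) = - z d) (haw : ∀ d, z (sd w d) = - z d) {c : ℝ}
    (hc : |z (o v, o w)| ≤ c) {p q : ℕ} (hp : p / 2 ^ (v.1 + 1) = v.2)
    (hq : q / 2 ^ (w.1 + 1) = w.2) : |z (p, q)| ≤ c := by
  have hpw : p / 2 ^ (w.1 + 1) ≠ w.2 := disj h hp
  have hqv : q / 2 ^ (v.1 + 1) ≠ v.2 := fun e => disj h e hq
  have hswp : sw v p / 2 ^ (v.1 + 1) = v.2 := by rw [sw_div_hi v _ (Nat.lt_succ_self _), hp]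
  have hswq : sw w q / 2 ^ (w.1 + 1) = w.2 := by rw [sw_div_hi w _ (Nat.lt_succ_self _), hq]
  have e1 : |z (sw v p, q)| = |z (p, q)| := by
    have := hav (p, q)
    simp only [sd, sw_neg hqv] at this
    rw [this, abs_neg]
  have e2 : ∀ p', p' / 2 ^ (v.1 + 1) = v.2 → |z (p', sw w q)| = |z (p', q)| := by
    intro p' hp'
    have := haw (p', q)
    simp only [sd, sw_neg (disj h hp')] at this
    rw [this, abs_neg]
  have key : ∀ p', p' / 2 ^ (v.1 + 1) = v.2 → p' / 2 ^ v.1 = 2 * v.2 → |z (p', q)| ≤ c := by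
    intro p' hp' hp''
    rcases half w hq with k | k
    · rw [pair_const hv hw h hx hp'' k]; exact hc
    · rw [← e2 p' hp', pair_const hv hw h hx hp'' k]; exact hc
  rcases half v hp with k | k
  · exact key p hp k
  · rw [← e1]
    exact key _ hswp k

lemma part_pair (n : ℕ) (v w : ℕ × ℕ) (X : Finset (ℕ × ℕ → ℝ)) (hv : Full n v) (hw : Full n w)
    (h : toLex v < toLex w ∧ ¬ Sub v w)
    (hP : ∀ x ∈ X, P n v w x) (hXv : ∀ x ∈ X, x ∘ sd v ∈ X) (hXw : ∀ x ∈ X, x ∘ sd w ∈ X)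
    (hn : ∀ x ∈ X, Norm n x) :
    ∃ ε : (ℕ × ℕ → ℝ) → ℝ, (∀ x, ε x = 1 ∨ ε x = -1) ∧
      ∀ p q, p < n → q < n → |zz X ε (p, q)| ≤
        (ind v p * ind w q + ind v q * ind w p) * (8 * (rr ^ v.1 * rr ^ w.1)) := by
  classical
  rcases X.eq_empty_or_nonempty with rfl | hne
  · refine ⟨fun _ => 1, fun _ => Or.inl rfl, ?_⟩
    intro p q _ _
    simp only [zz, Finset.sum_empty, abs_zero]
    have := ind_nonneg v p
    have := ind_nonneg v q
    have := ind_nonneg w p
    have := ind_nonneg w q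
    have := rr_nonneg
    positivity
  have hcomm : ∀ d, sd v (sd w d) = sd w (sd v d) := by
    obtain ⟨x, hx⟩ := hne
    intro d
    simp only [sd, sw_comm (hP x hx)]
  have hG : ∀ x ∈ X, Pgood n v w x := fun x hx u hu hs hlt => (hP x hx).2.2.2.1 u hu hs (Or.inl hlt)
  have hGs : ∀ x, Pgood n v w x → Pgood n v w (x ∘ Prod.swap) :=
    fun x hx u hu hs hlt => good_swap (hx u hu hs hlt)
  let cd : Bool → ℕ × ℕ := fun r => if r then (o v, o w) else (o w, o v)
  have hrr := rr_nonneg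
  obtain ⟨ε, h1, h2, h3, h4⟩ := antisign X (sd v) (sd w) (sd_sd v) (sd_sd w) hcomm hXv hXw
    (fun x hx => (hP x hx).2.2.2.2.1) (fun x hx => (hP x hx).2.2.2.2.2) (univ : Finset Bool) cd
    (2 * rr ^ (v.1 + w.1)) (by positivity) (by
      intro x hx
      rw [Fintype.sum_bool]
      have e1 := pair_size hv hw h (hG x hx) (hn x hx)
      have e2 := pair_size hv hw h (hGs x (hG x hx)) (norm_swap (hn x hx))
      have e3 : |x (cd true)| ≤ rr ^ (v.1 + w.1) := e1
      have e4 : |x (cd false)| ≤ rr ^ (v.1 + w.1) := e2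
      linarith) 4 (Or.inr rfl)
  refine ⟨ε, h1, ?_⟩
  intro p q hp hq
  have hz : Pgood n v w (zz X ε) := fun u hu hs hlt => good_zz ε (fun x hx => hG x hx u hu hs hlt)
  have hav : ∀ d, zz X ε (sd v d) = - zz X ε d := h2
  have haw : ∀ d, zz X ε (sd w d) = - zz X ε d := h3
  have hc1 : |zz X ε (o v, o w)| ≤ 8 * (rr ^ v.1 * rr ^ w.1) := by
    have := h4 true (Finset.mem_univ _)
    refine this.trans (le_of_eq ?_)
    push_cast
    rw [pow_add]
    ring
  have hc2 : |(zz X ε ∘ Prod.swap) (o v, o w)| ≤ 8 * (rr ^ v.1 * rr ^ w.1) := by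
    have := h4 false (Finset.mem_univ _)
    refine this.trans (le_of_eq ?_)
    push_cast
    rw [pow_add]
    ring
  have hpos : 0 ≤ 8 * (rr ^ v.1 * rr ^ w.1) := by positivity
  by_cases hpv : p / 2 ^ (v.1 + 1) = v.2
  · have hpw := disj h hpv
    have i1 : ind v p = 1 := by unfold ind; rw [if_pos hpv]
    have i2 : ind w p = 0 := by unfold ind; rw [if_neg hpw]
    by_cases hqw : q / 2 ^ (w.1 + 1) = w.2
    · have i3 : ind w q = 1 := by unfold ind; rw [if_pos hqw]
      rw [i1, i2, i3]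
      have := anti_pair hv hw h hz hav haw hc1 hpv hqw
      linarith
    · have h5 := haw (p, q)
      have h6 : sd w (p, q) = (p, q) := by simp only [sd, sw_neg hpw, sw_neg hqw]
      rw [h6] at h5
      have h7 : zz X ε (p, q) = 0 := by linarith
      rw [h7, abs_zero, i1, i2]
      have := ind_nonneg w q
      have := ind_nonneg v q
      positivity
  · have i1 : ind v p = 0 := by unfold ind; rw [if_neg hpv]
    by_cases hqv : q / 2 ^ (v.1 + 1) = v.2
    · have hqw := disj h hqv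
      have i2 : ind v q = 1 := by unfold ind; rw [if_pos hqv]
      by_cases hpw : p / 2 ^ (w.1 + 1) = w.2
      · have i3 : ind w p = 1 := by unfold ind; rw [if_pos hpw]
        rw [i1, i2, i3]
        have := anti_pair hv hw h (hGs _ hz) (fun d => hav (d.2, d.1)) (fun d => haw (d.2, d.1))
          hc2 hqv hpw
        change |zz X ε (p, q)| ≤ _ at this
        linarith
      · have h5 := haw (p, q)
        have h6 : sd w (p, q) = (p, q) := by simp only [sd, sw_neg hpw, sw_neg hqw]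
        rw [h6] at h5
        have h7 : zz X ε (p, q) = 0 := by linarith
        rw [h7, abs_zero, i1, i2]
        have := ind_nonneg w p
        have := ind_nonneg w q
        positivity
    · have h5 := hav (p, q)
      have h6 : sd v (p, q) = (p, q) := by simp only [sd, sw_neg hpv, sw_neg hqv]
      rw [h6] at h5
      have h7 : zz X ε (p, q) = 0 := by linarith
      rw [h7, abs_zero]
      have := ind_nonneg v p
      have := ind_nonneg v q
      have := ind_nonneg w p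
      have := ind_nonneg w q
      positivity

/-! ### assembly -/

noncomputable def gg (n p : ℕ) : ℝ := ∑ v ∈ Nodes n, ind v p * rr ^ v.1

lemma gg_nonneg (n p : ℕ) : 0 ≤ gg n p :=
  Finset.sum_nonneg fun _ _ => mul_nonneg (ind_nonneg _ _) (pow_nonneg rr_nonneg _)

lemma gg_le (n p : ℕ) : gg n p ≤ 3.415 := by
  unfold gg Nodes
  calc _ ≤ ∑ v ∈ range n ×ˢ range n, ind v p * rr ^ v.1 :=
        Finset.sum_le_sum_of_subset_of_nonneg (Finset.filter_subset _ _)
          (fun v _ _ => mul_nonneg (ind_nonneg _ _) (pow_nonneg rr_nonneg _))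
    _ ≤ ∑ l ∈ range n, rr ^ l := by
        rw [Finset.sum_product]
        apply Finset.sum_le_sum
        intro l _
        simp only [ind]
        rw [← Finset.sum_mul]
        have : ∑ i ∈ range n, (if p / 2 ^ (l + 1) = i then (1 : ℝ) else 0) ≤ 1 := by
          rw [Finset.sum_ite_eq]
          split_ifs <;> norm_num
        calc _ ≤ 1 * rr ^ l := mul_le_mul_of_nonneg_right this (pow_nonneg rr_nonneg _)
          _ = _ := one_mul _
    _ ≤ _ := rr_sum n

theorem finset_signing (n : ℕ) (X : Finset (ℕ × ℕ → ℝ))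
    (hX : ∀ x ∈ X, ∀ u, Full n u → x ∘ sd u ∈ X) (hn : ∀ x ∈ X, Norm n x) :
    ∃ ε : (ℕ × ℕ → ℝ) → ℝ, (∀ x, ε x = 1 ∨ ε x = -1) ∧
      ∀ d : ℕ × ℕ, (d.1 < n ∧ d.2 < n) → |∑ x ∈ X, ε x * x d| ≤ 430 := by
  classical
  let key : (ℕ × ℕ → ℝ) → Option ((ℕ × ℕ) × (ℕ × ℕ)) := fun x =>
    if h : ∃ vw : (ℕ × ℕ) × (ℕ × ℕ), P n vw.1 vw.2 x then some h.choose else none
  have key_some : ∀ x v w, key x = some (v, w) ↔ P n v w x := by
    intro x v w
    constructor
    · intro h
      by_cases h' : ∃ vw : (ℕ × ℕ) × (ℕ × ℕ), P n vw.1 vw.2 x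
      · have e : key x = some h'.choose := by simp only [key, dif_pos h']
        rw [e] at h
        have h1 := h'.choose_spec
        rw [Option.some.inj h] at h1
        exact h1
      · have e : key x = none := by simp only [key, dif_neg h']
        rw [e] at h
        exact absurd h (by simp)
    · intro h
      have h' : ∃ vw : (ℕ × ℕ) × (ℕ × ℕ), P n vw.1 vw.2 x := ⟨(v, w), h⟩
      have e : key x = some h'.choose := by simp only [key, dif_pos h']
      rw [e]
      have := P_unique h'.choose_spec h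
      congr 1
      exact Prod.ext this.1 this.2
  have key_none : ∀ x, key x = none → ∀ u, Full n u → Good x u := by
    intro x h u hu
    by_contra hb
    obtain ⟨v, w, h1⟩ := P_exists (n := n) (x := x) ⟨u, hu, hb⟩
    rw [(key_some x v w).2 h1] at h
    exact absurd h (by simp)
  let KS : Finset (Option ((ℕ × ℕ) × (ℕ × ℕ))) := insertNone (Nodes n ×ˢ Nodes n)
  have hkey : ∀ x ∈ X, key x ∈ KS := by
    intro x _
    rcases hk : key x with _ | ⟨v, w⟩
    · simp [KS]
    · have := (key_some x v w).1 hk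
      simp only [KS, Finset.some_mem_insertNone, Finset.mem_product]
      exact ⟨mem_Nodes.2 this.1, mem_Nodes.2 this.2.1⟩
  let T : Option ((ℕ × ℕ) × (ℕ × ℕ)) → ℕ × ℕ → ℝ := fun k d =>
    match k with
    | none => 26.75
    | some (v, w) => (if v = w then (ind v d.1 + ind v d.2) * (31.32 * rr ^ v.1) else 0) +
        (ind v d.1 * ind w d.2 + ind v d.2 * ind w d.1) * (8 * (rr ^ v.1 * rr ^ w.1))
  obtain ⟨ε, h1, h2⟩ := assemble X key KS hkey T (fun d => d.1 < n ∧ d.2 < n) (by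
    intro k hk
    rcases k with _ | ⟨v, w⟩
    · obtain ⟨ε, h1, h2⟩ := part_none n (X.filter (fun x => key x = none))
        (fun x hx => key_none x (Finset.mem_filter.1 hx).2)
        (fun x hx => hn x (Finset.mem_filter.1 hx).1)
      exact ⟨ε, h1, fun d hd => h2 d.1 d.2 hd.1 hd.2⟩
    · have hm : v ∈ Nodes n ∧ w ∈ Nodes n := by
        simpa only [KS, Finset.some_mem_insertNone, Finset.mem_product] using hk
      have hv := mem_Nodes.1 hm.1
      have hw := mem_Nodes.1 hm.2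
      have hP : ∀ x ∈ X.filter (fun x => key x = some (v, w)), P n v w x :=
        fun x hx => (key_some x v w).1 (Finset.mem_filter.1 hx).2
      have hXv : ∀ x ∈ X.filter (fun x => key x = some (v, w)),
          x ∘ sd v ∈ X.filter (fun x => key x = some (v, w)) := fun x hx =>
        Finset.mem_filter.2 ⟨hX x (Finset.mem_filter.1 hx).1 v hv,
          (key_some _ v w).2 (P_closed_v (hP x hx))⟩
      have hXw : ∀ x ∈ X.filter (fun x => key x = some (v, w)),
          x ∘ sd w ∈ X.filter (fun x => key x = some (v, w)) := fun x hx =>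
        Finset.mem_filter.2 ⟨hX x (Finset.mem_filter.1 hx).1 w hw,
          (key_some _ v w).2 (P_closed_w (hP x hx))⟩
      have hnn : ∀ x ∈ X.filter (fun x => key x = some (v, w)), Norm n x :=
        fun x hx => hn x (Finset.mem_filter.1 hx).1
      have hi := fun a b => ind_nonneg a b
      have hrr := rr_nonneg
      by_cases hvw : v = w
      · subst hvw
        obtain ⟨ε, h1, h2⟩ := part_chain n v _ hv hP hXv hnn
        refine ⟨ε, h1, fun d hd => (h2 d.1 d.2 hd.1 hd.2).trans ?_⟩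
        simp only [T, if_true]
        have : 0 ≤ (ind v d.1 * ind v d.2 + ind v d.2 * ind v d.1) *
            (8 * (rr ^ v.1 * rr ^ v.1)) := by
          have := hi v d.1
          have := hi v d.2
          positivity
        linarith
      · by_cases hne : toLex v < toLex w ∧ ¬ Sub v w
        · obtain ⟨ε, h1, h2⟩ := part_pair n v w _ hv hw hne hP hXv hXw hnn
          refine ⟨ε, h1, fun d hd => (h2 d.1 d.2 hd.1 hd.2).trans ?_⟩
          simp only [T, if_neg hvw, zero_add, le_refl]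
        · -- empty class
          have hemp : X.filter (fun x => key x = some (v, w)) = ∅ := by
            rw [Finset.eq_empty_iff_forall_notMem]
            intro x hx
            rcases (hP x hx).2.2.1 with e | e
            · exact hvw e
            · exact hne e
          refine ⟨fun _ => 1, fun _ => Or.inl rfl, fun d _ => ?_⟩
          rw [hemp, Finset.sum_empty, abs_zero]
          simp only [T, if_neg hvw, zero_add]
          have := hi v d.1
          have := hi v d.2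
          have := hi w d.1
          have := hi w d.2
          positivity)
  refine ⟨ε, h1, fun d hd => (h2 d hd).trans ?_⟩
  have e1 : ∑ k ∈ KS, T k d = 26.75 + (31.32 * (gg n d.1 + gg n d.2) +
      8 * (gg n d.1 * gg n d.2 + gg n d.2 * gg n d.1)) := by
    simp only [KS]
    rw [Finset.sum_insertNone]
    simp only [T]
    congr 1
    rw [Finset.sum_add_distrib]
    congr 1
    · rw [Finset.sum_product]
      unfold gg
      rw [← Finset.sum_add_distrib, Finset.mul_sum]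
      apply Finset.sum_congr rfl
      intro v hv
      rw [Finset.sum_ite_eq, if_pos hv]
      ring
    · rw [Finset.sum_product]
      unfold gg
      rw [Finset.sum_mul_sum, Finset.sum_mul_sum, ← Finset.sum_add_distrib, Finset.mul_sum]
      apply Finset.sum_congr rfl
      intro v _
      rw [← Finset.sum_add_distrib, Finset.mul_sum]
      apply Finset.sum_congr rfl
      intro w _
      ring
  rw [e1]
  have a1 := gg_le n d.1
  have a2 := gg_le n d.2
  have b1 := gg_nonneg n d.1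
  have b2 := gg_nonneg n d.2
  have : gg n d.1 * gg n d.2 ≤ 3.415 * 3.415 := mul_le_mul a1 a2 b2 (by norm_num)
  nlinarith

end H782.Kom
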