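import Mathlib

/-!
# Block swaps on the natural numbers

A node `u = (h, i)` is the block `[i 2^(h+1), (i+1) 2^(h+1))` of leaves; `sw u` swaps its halves.
-/

namespace H782.Kom

open Finset

def sw (v : ℕ × ℕ) (p : ℕ) : ℕ := if p / 2 ^ (v.1 + 1) = v.2 then p ^^^ 2 ^ v.1 else p

/-- first leaf -/
def o (v : ℕ × ℕ) : ℕ := v.2 * 2 ^ (v.1 + 1)

lemma o_div (v : ℕ × ℕ) : o v / 2 ^ (v.1 + 1) = v.2 := by
  unfold o
  exact Nat.mul_div_cancel _ (by positivity)

lemma xor_div (p q m : ℕ) : (p ^^^ q) / 2 ^ m = (p / 2 ^ m) ^^^ (q / 2 ^ m) := by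
  simp only [← Nat.shiftRight_eq_div_pow, Nat.shiftRight_xor_distrib]

lemma xor_div_lt {a m : ℕ} (h : a < m) (p : ℕ) : (p ^^^ 2 ^ a) / 2 ^ m = p / 2 ^ m := by
  rw [xor_div, Nat.div_eq_of_lt (Nat.pow_lt_pow_right (by norm_num) h), Nat.xor_zero]

lemma xor_div_self (a p : ℕ) : (p ^^^ 2 ^ a) / 2 ^ a = (p / 2 ^ a) ^^^ 1 := by
  rw [xor_div, Nat.div_self (by positivity)]

lemma xx (p q : ℕ) : (p ^^^ q) ^^^ q = p := by
  rw [Nat.xor_assoc, Nat.xor_self, Nat.xor_zero]

lemma sw_pos {v : ℕ × ℕ} {p : ℕ} (h : p / 2 ^ (v.1 + 1) = v.2) : sw v p = p ^^^ 2 ^ v.1 := by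
  unfold sw; rw [if_pos h]

lemma sw_neg {v : ℕ × ℕ} {p : ℕ} (h : ¬ p / 2 ^ (v.1 + 1) = v.2) : sw v p = p := by
  unfold sw; rw [if_neg h]

lemma sw_div_hi (v : ℕ × ℕ) (p : ℕ) {m : ℕ} (h : v.1 < m) : sw v p / 2 ^ m = p / 2 ^ m := by
  unfold sw
  split_ifs
  · exact xor_div_lt h p
  · rfl

lemma sw_sw (v : ℕ × ℕ) (p : ℕ) : sw v (sw v p) = p := by
  by_cases h : p / 2 ^ (v.1 + 1) = v.2
  · have h1 : sw v p = p ^^^ 2 ^ v.1 := by unfold sw; rw [if_pos h]
    rw [h1]
    unfold sw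
    rw [xor_div_lt (Nat.lt_succ_self _), if_pos h, xx]
  · have h1 : sw v p = p := by unfold sw; rw [if_neg h]
    rw [h1, h1]

lemma div_mono_eq {h l p q : ℕ} (hl : h ≤ l) (e : p / 2 ^ h = q / 2 ^ h) :
    p / 2 ^ l = q / 2 ^ l := by
  obtain ⟨k, rfl⟩ := Nat.exists_eq_add_of_le hl
  rw [pow_add, ← Nat.div_div_eq_div_mul, ← Nat.div_div_eq_div_mul, e]

lemma sw_same (v : ℕ × ℕ) {h p q : ℕ} (hv : h ≤ v.1 + 1) (e : p / 2 ^ h = q / 2 ^ h) :
    sw v p / 2 ^ h = sw v q / 2 ^ h := by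
  have e2 := div_mono_eq hv e
  unfold sw
  rw [e2]
  split_ifs
  · rw [xor_div, xor_div, e]
  · exact e

def act (v u : ℕ × ℕ) : ℕ × ℕ := (u.1, sw v (o u) / 2 ^ (u.1 + 1))

lemma conj {u v : ℕ × ℕ} (h : u.1 ≤ v.1) (p : ℕ) : sw v (sw u p) = sw (act v u) (sw v p) := by
  have key : p / 2 ^ (u.1 + 1) = u.2 ↔ sw v p / 2 ^ (u.1 + 1) = (act v u).2 := by
    constructor
    · intro e
      apply sw_same v (by omega)
      rw [e, o_div]
    · intro e
      have := sw_same v (h := u.1 + 1) (by omega) e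
      rw [sw_sw, sw_sw, o_div] at this
      exact this
  by_cases e : p / 2 ^ (u.1 + 1) = u.2
  · have h1 : sw u p = p ^^^ 2 ^ u.1 := by unfold sw; rw [if_pos e]
    have h2 : sw (act v u) (sw v p) = (sw v p) ^^^ 2 ^ u.1 := sw_pos (v := act v u) (key.1 e)
    rw [h1, h2]
    unfold sw
    rw [xor_div_lt (by omega)]
    split_ifs
    · rw [Nat.xor_assoc, Nat.xor_assoc, Nat.xor_comm (2 ^ u.1)]
    · rfl
  · have h1 : sw u p = p := by unfold sw; rw [if_neg e]
    have h2 : sw (act v u) (sw v p) = sw v p := sw_neg (v := act v u) (fun h => e (key.2 h))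
    rw [h1, h2]

def Sub (v u : ℕ × ℕ) : Prop := v.1 ≤ u.1 ∧ o v / 2 ^ (u.1 + 1) = u.2

def Full (n : ℕ) (u : ℕ × ℕ) : Prop := (u.2 + 1) * 2 ^ (u.1 + 1) ≤ n

lemma comm_of_not_sub {u v : ℕ × ℕ} (h : v.1 < u.1) (hs : ¬ Sub v u) (p : ℕ) :
    sw v (sw u p) = sw u (sw v p) := by
  have h1 : o v / 2 ^ (u.1 + 1) ≠ u.2 := fun e => hs ⟨h.le, e⟩
  have h2 : sw u (o v) = o v := by unfold sw; rw [if_neg h1]
  have h3 : act u v = v := by
    unfold act
    rw [h2, o_div]
  rw [conj h.le (v := u) (u := v), h3]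

def sd (v : ℕ × ℕ) (d : ℕ × ℕ) : ℕ × ℕ := (sw v d.1, sw v d.2)

lemma sd_sd (v d : ℕ × ℕ) : sd v (sd v d) = d := by
  simp [sd, sw_sw]

lemma conjd {u v : ℕ × ℕ} (h : u.1 ≤ v.1) (d : ℕ × ℕ) : sd v (sd u d) = sd (act v u) (sd v d) := by
  simp only [sd, conj h]

def Good (x : ℕ × ℕ → ℝ) (u : ℕ × ℕ) : Prop := x ∘ sd u = x

lemma good_iff {x : ℕ × ℕ → ℝ} {u : ℕ × ℕ} : Good x u ↔ ∀ d, x (sd u d) = x d := by
  constructor
  · intro h d; exact congrFun h d
  · intro h; funext d; exact h d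

/-- `x ∘ sd v` is good for `u` if `x` is good for `act v u` -/
lemma good_conj {x : ℕ × ℕ → ℝ} {u v : ℕ × ℕ} (h : u.1 ≤ v.1) (hg : Good x (act v u)) :
    Good (x ∘ sd v) u := by
  rw [good_iff] at hg ⊢
  intro d
  simp only [Function.comp_apply]
  rw [conjd h, hg]

lemma good_comm {x : ℕ × ℕ → ℝ} {u v : ℕ × ℕ} (h : v.1 < u.1) (hs : ¬ Sub v u) (hg : Good x u) :
    Good (x ∘ sd v) u := by
  rw [good_iff] at hg ⊢
  intro d
  simp only [Function.comp_apply]
  have : sd v (sd u d) = sd u (sd v d) := by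
    simp only [sd, comm_of_not_sub h hs]
  rw [this, hg]

lemma bad_self {x : ℕ × ℕ → ℝ} {v : ℕ × ℕ} (h : ¬ Good x v) : ¬ Good (x ∘ sd v) v := by
  intro hg
  apply h
  rw [good_iff] at hg ⊢
  intro d
  have := hg d
  simp only [Function.comp_apply, sd_sd] at this
  exact this.symm

lemma full_of_div {n : ℕ} {v : ℕ × ℕ} (hv : Full n v) {q h : ℕ} (hq : q / 2 ^ (v.1 + 1) = v.2)
    (hh : h ≤ v.1 + 1) : (q / 2 ^ h + 1) * 2 ^ h ≤ n := by
  refine le_trans ?_ hv
  obtain ⟨k, hk⟩ := Nat.exists_eq_add_of_le hh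
  have h1 : q / 2 ^ h < (v.2 + 1) * 2 ^ k := by
    rw [Nat.div_lt_iff_lt_mul (by positivity), mul_assoc, ← pow_add, add_comm k h, ← hk]
    have := Nat.lt_div_mul_add (a := q) (b := 2 ^ (v.1 + 1)) (by positivity)
    rw [hq] at this
    linarith
  calc (q / 2 ^ h + 1) * 2 ^ h ≤ ((v.2 + 1) * 2 ^ k) * 2 ^ h := Nat.mul_le_mul_right _ h1
    _ = (v.2 + 1) * 2 ^ (v.1 + 1) := by rw [mul_assoc, ← pow_add, add_comm k h, ← hk]

/-- the class of the vectors with first bad node `v` and first bad node `w` not containing `v`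
(`w = v` if there is none) -/
def P (n : ℕ) (v w : ℕ × ℕ) (x : ℕ × ℕ → ℝ) : Prop :=
  Full n v ∧ Full n w ∧ (v = w ∨ (toLex v < toLex w ∧ ¬ Sub v w)) ∧
  (∀ u, Full n u → ¬ Sub v u → (toLex u < toLex w ∨ v = w) → Good x u) ∧ ¬ Good x v ∧ ¬ Good x w

lemma sub_self (v : ℕ × ℕ) : Sub v v := ⟨le_rfl, o_div v⟩

lemma not_sub_of_lt {u v : ℕ × ℕ} (h : toLex u < toLex v) : ¬ Sub v u := by
  rw [Prod.Lex.toLex_lt_toLex] at h
  rintro ⟨h1, h2⟩
  rcases h with h | ⟨h3, h4⟩
  · omega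
  · rw [h3, o_div] at h2
    omega

lemma P_unique {n : ℕ} {v w v' w' : ℕ × ℕ} {x : ℕ × ℕ → ℝ} (h : P n v w x) (h' : P n v' w' x) :
    v = v' ∧ w = w' := by
  have aux : ∀ {v w v' w' : ℕ × ℕ}, P n v w x → P n v' w' x → ¬ toLex v < toLex v' := by
    intro v w v' w' h h' hlt
    apply h.2.2.2.2.1
    apply h'.2.2.2.1 v h.1 (not_sub_of_lt hlt)
    rcases h'.2.2.1 with e | e
    · right; exact e
    · left; exact hlt.trans e.1
  have e1 : v = v' := by
    have h1 := aux h h'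
    have h2 := aux h' h
    exact toLex.injective (le_antisymm (not_lt.1 h2) (not_lt.1 h1))
  subst e1
  refine ⟨rfl, ?_⟩
  have aux2 : ∀ {w w' : ℕ × ℕ}, P n v w x → P n v w' x → v ≠ w → v ≠ w' →
      ¬ toLex w < toLex w' := by
    intro w w' h h' hw hw' hlt
    apply h.2.2.2.2.2
    apply h'.2.2.2.1 w h.2.1 _ (Or.inl hlt)
    rcases h.2.2.1 with e | e
    · exact absurd e hw
    · exact e.2
  by_cases hw : v = w
  · by_cases hw' : v = w'
    · rw [← hw, ← hw']
    · exfalso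
      apply h'.2.2.2.2.2
      apply h.2.2.2.1 w' h'.2.1 _ (Or.inr hw)
      rcases h'.2.2.1 with e | e
      · exact absurd e hw'
      · exact e.2
  · by_cases hw' : v = w'
    · exfalso
      apply h.2.2.2.2.2
      apply h'.2.2.2.1 w h.2.1 _ (Or.inr hw')
      rcases h.2.2.1 with e | e
      · exact absurd e hw
      · exact e.2
    · have h1 := aux2 h h' hw hw'
      have h2 := aux2 h' h hw' hw
      exact toLex.injective (le_antisymm (not_lt.1 h2) (not_lt.1 h1))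

def Nodes (n : ℕ) : Finset (ℕ × ℕ) :=
  (range n ×ˢ range n).filter (fun u => (u.2 + 1) * 2 ^ (u.1 + 1) ≤ n)

lemma mem_Nodes {n : ℕ} {u : ℕ × ℕ} : u ∈ Nodes n ↔ Full n u := by
  unfold Nodes Full
  rw [Finset.mem_filter, Finset.mem_product, Finset.mem_range, Finset.mem_range]
  constructor
  · intro h; exact h.2
  · intro h
    refine ⟨⟨?_, ?_⟩, h⟩
    · have h1 : u.1 + 1 < 2 ^ (u.1 + 1) := Nat.lt_two_pow_self
      nlinarith [Nat.zero_le (u.2 * 2 ^ (u.1 + 1))]
    · have h1 : 1 ≤ 2 ^ (u.1 + 1) := Nat.one_le_two_pow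
      nlinarith

lemma P_exists {n : ℕ} {x : ℕ × ℕ → ℝ} (h : ∃ u, Full n u ∧ ¬ Good x u) :
    ∃ v w, P n v w x := by
  classical
  obtain ⟨u, hu1, hu2⟩ := h
  let S := (Nodes n).filter (fun u => ¬ Good x u)
  have hS : S.Nonempty := ⟨u, Finset.mem_filter.2 ⟨mem_Nodes.2 hu1, hu2⟩⟩
  obtain ⟨v, hv, hmin⟩ := Finset.exists_min_image S (fun u => toLex u) hS
  have hv' := Finset.mem_filter.1 hv
  let S' := S.filter (fun u => ¬ Sub v u)
  by_cases hS' : S'.Nonempty
  · obtain ⟨w, hw, hmin'⟩ := Finset.exists_min_image S' (fun u => toLex u) hS'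
    have hw' := Finset.mem_filter.1 hw
    have hw'' := Finset.mem_filter.1 hw'.1
    refine ⟨v, w, mem_Nodes.1 hv'.1, mem_Nodes.1 hw''.1, Or.inr ⟨?_, hw'.2⟩, ?_, hv'.2, hw''.2⟩
    · refine lt_of_le_of_ne (hmin w hw'.1) ?_
      intro e
      have : v = w := toLex.injective e
      subst this
      exact hw'.2 (sub_self v)
    · intro u hu hsub hlt
      by_contra hb
      rcases hlt with hlt | e
      · have : u ∈ S' := Finset.mem_filter.2 ⟨Finset.mem_filter.2 ⟨mem_Nodes.2 hu, hb⟩, hsub⟩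
        exact absurd hlt (not_lt.2 (hmin' u this))
      · subst e
        exact hw'.2 (sub_self v)
  · refine ⟨v, v, mem_Nodes.1 hv'.1, mem_Nodes.1 hv'.1, Or.inl rfl, ?_, hv'.2, hv'.2⟩
    intro u hu hsub _
    by_contra hb
    exact hS' ⟨u, Finset.mem_filter.2 ⟨Finset.mem_filter.2 ⟨mem_Nodes.2 hu, hb⟩, hsub⟩⟩

lemma act_of_ne {u v : ℕ × ℕ} (h : o u / 2 ^ (v.1 + 1) ≠ v.2) : act v u = u := by
  have h2 : sw v (o u) = o u := by unfold sw; rw [if_neg h]
  unfold act
  rw [h2, o_div]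

lemma P_closed_v {n : ℕ} {v w : ℕ × ℕ} {x : ℕ × ℕ → ℝ} (h : P n v w x) :
    P n v w (x ∘ sd v) := by
  obtain ⟨h1, h2, h3, h4, h5, h6⟩ := h
  refine ⟨h1, h2, h3, ?_, bad_self h5, ?_⟩
  · intro u hu hs hlt
    rcases le_or_gt u.1 v.1 with hle | hgt
    · apply good_conj hle
      by_cases ho : o u / 2 ^ (v.1 + 1) = v.2
      · -- u inside v, strictly
        have hlt1 : u.1 < v.1 := by
          rcases lt_or_eq_of_le hle with h | h
          · exact h
          · exfalso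
            rw [← h, o_div] at ho
            have : u = v := Prod.ext h ho
            subst this
            exact hs (sub_self u)
        apply h4
        · exact full_of_div h1 (by rw [sw_div_hi v _ (Nat.lt_succ_self _), ho]) (by omega)
        · rintro ⟨h7, _⟩
          change v.1 ≤ u.1 at h7
          omega
        · rcases hlt with h7 | h7
          · left
            rw [Prod.Lex.toLex_lt_toLex]
            left
            change u.1 < w.1
            rcases h3 with e | e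
            · rw [← e]; exact hlt1
            · have := e.1
              rw [Prod.Lex.toLex_lt_toLex] at this
              omega
          · right; exact h7
      · rw [act_of_ne ho]
        exact h4 u hu hs hlt
    · exact good_comm hgt hs (h4 u hu hs hlt)
  · rcases h3 with e | e
    · subst e; exact bad_self h5
    · intro hg
      apply h6
      have hlt := e.1
      rw [Prod.Lex.toLex_lt_toLex] at hlt
      rcases hlt with hlt | ⟨hl1, hl2⟩
      · have := good_comm (x := x ∘ sd v) hlt e.2 hg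
        have e2 : (x ∘ sd v) ∘ sd v = x := by funext d; simp [sd_sd]
        rwa [e2] at this
      · have hne : o w / 2 ^ (v.1 + 1) ≠ v.2 := by
          rw [hl1, o_div]; omega
        have := good_conj (x := x ∘ sd v) (u := w) (v := v) hl1.ge (by rw [act_of_ne hne]; exact hg)
        have e2 : (x ∘ sd v) ∘ sd v = x := by funext d; simp [sd_sd]
        rwa [e2] at this

lemma sw_comm {n : ℕ} {v w : ℕ × ℕ} {x : ℕ × ℕ → ℝ} (h : P n v w x) (p : ℕ) :
    sw v (sw w p) = sw w (sw v p) := by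
  rcases h.2.2.1 with e | e
  · rw [e]
  · have hlt := e.1
    rw [Prod.Lex.toLex_lt_toLex] at hlt
    rcases hlt with hlt | ⟨hl1, hl2⟩
    · exact comm_of_not_sub hlt e.2 p
    · have hne : o w / 2 ^ (v.1 + 1) ≠ v.2 := by
        rw [hl1, o_div]; omega
      rw [conj hl1.ge, act_of_ne hne]

lemma P_closed_w {n : ℕ} {v w : ℕ × ℕ} {x : ℕ × ℕ → ℝ} (h : P n v w x) :
    P n v w (x ∘ sd w) := by
  by_cases hvw : v = w
  · rw [← hvw]
    rw [← hvw] at h
    exact P_closed_v h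
  have hc := sw_comm h
  obtain ⟨h1, h2, h3, h4, h5, h6⟩ := h
  have h3' : toLex v < toLex w ∧ ¬ Sub v w := h3.resolve_left hvw
  refine ⟨h1, h2, h3, ?_, ?_, bad_self h6⟩
  · intro u hu hs hlt
    have hlt' : toLex u < toLex w := hlt.resolve_right hvw
    have hlt2 := hlt'
    rw [Prod.Lex.toLex_lt_toLex] at hlt2
    have hle : u.1 ≤ w.1 := by omega
    apply good_conj hle
    by_cases ho : o u / 2 ^ (w.1 + 1) = w.2
    · have hlt1 : u.1 < w.1 := by
        rcases lt_or_eq_of_le hle with h | h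
        · exact h
        · exfalso
          rw [← h, o_div] at ho
          omega
      apply h4
      · exact full_of_div h2 (by rw [sw_div_hi w _ (Nat.lt_succ_self _), ho]) (by omega)
      · rintro ⟨h7, h8⟩
        apply h3'.2
        change v.1 ≤ u.1 at h7
        change o v / 2 ^ (u.1 + 1) = sw w (o u) / 2 ^ (u.1 + 1) at h8
        refine ⟨by omega, ?_⟩
        have := div_mono_eq (l := w.1 + 1) (by omega) h8
        rw [this, sw_div_hi w _ (Nat.lt_succ_self _), ho]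
      · left
        rw [Prod.Lex.toLex_lt_toLex]
        left
        exact hlt1
    · rw [act_of_ne ho]
      exact h4 u hu hs hlt
  · intro hg
    apply h5
    rw [good_iff] at hg ⊢
    intro d
    have := hg (sd w d)
    simp only [Function.comp_apply] at this
    have e1 : sd w (sd v (sd w d)) = sd v d := by
      simp only [sd, hc, sw_sw]
    rw [e1, sd_sd] at this
    exact this

end H782.Kom
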