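import Mathlib
import Pool.Agent.H294R2.BF.L1

/-!
# Signings of families with symmetries: general lemmas
-/

namespace H782.Kom

open Finset

/-- Beck–Fiala for arbitrary finite index sets -/
lemma bf {ι ρ : Type*} [Fintype ι] (R : Finset ρ) (A : ρ → ι → ℝ) (t : ℝ) (ht : 0 ≤ t)
    (h : ∀ j, ∑ r ∈ R, |A r j| ≤ t) :
    ∃ x : ι → ℝ, (∀ j, x j = 1 ∨ x j = -1) ∧ ∀ r ∈ R, |∑ j, x j * A r j| ≤ t := by
  classical
  let e := R.equivFin
  let f := Fintype.equivFin ι
  obtain ⟨x, hx, hb⟩ := H294BF.l1_signing (fun i j => A (e.symm i) (f.symm j)) t ht (by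
    intro j
    have := h (f.symm j)
    rw [← Finset.sum_coe_sort R (fun r => |A r (f.symm j)|)] at this
    rw [← e.symm.sum_comp] at this
    exact this)
  refine ⟨fun j => x (f j), fun j => hx _, ?_⟩
  intro r hr
  have := hb (e ⟨r, hr⟩)
  simp only [Equiv.symm_apply_apply] at this
  rw [← f.symm.sum_comp]
  simpa [mul_comm] using this

/-- signing a finite set of functions, without symmetry -/
lemma plainsign {D ρ : Type} (X : Finset (D → ℝ)) (R : Finset ρ) (cd : ρ → D) (c : ℝ) (hc : 0 ≤ c)
    (hR : ∀ x ∈ X, ∑ r ∈ R, |x (cd r)| ≤ c) :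
    ∃ ε : (D → ℝ) → ℝ, (∀ x, ε x = 1 ∨ ε x = -1) ∧
      ∀ r ∈ R, |∑ x ∈ X, ε x * x (cd r)| ≤ c := by
  classical
  obtain ⟨f, hf, hb⟩ := bf (ι := X) R (fun r x => x.1 (cd r)) c hc (fun x => hR x.1 x.2)
  refine ⟨fun x => if h : x ∈ X then f ⟨x, h⟩ else 1, ?_, ?_⟩
  · intro x
    by_cases h : x ∈ X
    · simpa [h] using hf ⟨x, h⟩
    · simp [h]
  · intro r hr
    have := hb r hr
    rw [← Finset.sum_coe_sort X]
    simpa using this

/-- signing a finite set of functions, antisymmetrically under two commuting involutions -/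
lemma antisign {D ρ : Type} (X : Finset (D → ℝ)) (s t : D → D) (hs : ∀ d, s (s d) = d)
    (ht : ∀ d, t (t d) = d) (hst : ∀ d, s (t d) = t (s d))
    (hXs : ∀ x ∈ X, x ∘ s ∈ X) (hXt : ∀ x ∈ X, x ∘ t ∈ X)
    (hns : ∀ x ∈ X, x ∘ s ≠ x) (hnt : ∀ x ∈ X, x ∘ t ≠ x)
    (R : Finset ρ) (cd : ρ → D) (c : ℝ) (hc : 0 ≤ c)
    (hR : ∀ x ∈ X, ∑ r ∈ R, |x (cd r)| ≤ c) (m : ℕ) (hm : (s = t ∧ m = 2) ∨ m = 4) :
    ∃ ε : (D → ℝ) → ℝ, (∀ x, ε x = 1 ∨ ε x = -1) ∧
      (∀ d, ∑ x ∈ X, ε x * x (s d) = -∑ x ∈ X, ε x * x d) ∧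
      (∀ d, ∑ x ∈ X, ε x * x (t d) = -∑ x ∈ X, ε x * x d) ∧
      ∀ r ∈ R, |∑ x ∈ X, ε x * x (cd r)| ≤ m * c := by
  classical
  have ess : ∀ x : D → ℝ, (x ∘ s) ∘ s = x := fun x => by funext d; simp [hs]
  have ett : ∀ x : D → ℝ, (x ∘ t) ∘ t = x := fun x => by funext d; simp [ht]
  have est : ∀ x : D → ℝ, (x ∘ s) ∘ t = (x ∘ t) ∘ s := fun x => by funext d; simp [hst]
  let S : Setoid (D → ℝ) :=
    { r := fun x y => y = x ∨ y = x ∘ s ∨ y = x ∘ t ∨ y = (x ∘ s) ∘ t
      iseqv := by
        refine ⟨fun x => Or.inl rfl, ?_, ?_⟩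
        · rintro x y (h | h | h | h)
          · left; exact h.symm
          · right; left; rw [h, ess]
          · right; right; left; rw [h, ett]
          · right; right; right; rw [h, est x, ess, ett]
        · rintro x y z (h | h | h | h) (k | k | k | k)
          · left; rw [k, h]
          · right; left; rw [k, h]
          · right; right; left; rw [k, h]
          · right; right; right; rw [k, h]
          · right; left; rw [k, h]
          · left; rw [k, h, ess]
          · right; right; right; rw [k, h]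
          · right; right; left; rw [k, h, ess]
          · right; right; left; rw [k, h]
          · right; right; right; rw [k, h, est]
          · left; rw [k, h, ett]
          · right; left; rw [k, h, ← est x, ett]
          · right; right; right; rw [k, h]
          · right; right; left; rw [k, h, est x, ess]
          · right; left; rw [k, h, ett]
          · left; rw [k, h, est x, ess, ett] }
  let rep : (D → ℝ) → (D → ℝ) := fun x => Quotient.out (Quotient.mk S x)
  have hrep : ∀ x, x = rep x ∨ x = rep x ∘ s ∨ x = rep x ∘ t ∨ x = (rep x ∘ s) ∘ t := by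
    intro x
    exact Quotient.exact (Quotient.out_eq (Quotient.mk S x))
  have hreps : ∀ x, rep (x ∘ s) = rep x := by
    intro x
    have : Quotient.mk S (x ∘ s) = Quotient.mk S x :=
      Quotient.sound (show x = x ∘ s ∨ x = (x ∘ s) ∘ s ∨ x = (x ∘ s) ∘ t ∨ x = ((x ∘ s) ∘ s) ∘ t
        from Or.inr (Or.inl (ess x).symm))
    simp only [rep, this]
  have hrept : ∀ x, rep (x ∘ t) = rep x := by
    intro x
    have : Quotient.mk S (x ∘ t) = Quotient.mk S x :=
      Quotient.sound (show x = x ∘ t ∨ x = (x ∘ t) ∘ s ∨ x = (x ∘ t) ∘ t ∨ x = ((x ∘ t) ∘ s) ∘ t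
        from Or.inr (Or.inr (Or.inl (ett x).symm)))
    simp only [rep, this]
  let cc : (D → ℝ) → ℝ := fun x => if x = rep x ∨ x = (rep x ∘ s) ∘ t then 1 else -1
  have hcc : ∀ x, cc x = 1 ∨ cc x = -1 := by
    intro x
    by_cases h : x = rep x ∨ x = (rep x ∘ s) ∘ t
    · left; simp only [cc, if_pos h]
    · right; simp only [cc, if_neg h]
  -- behaviour of cc under s and t
  have key : ∀ (x r : D → ℝ), x ∘ s ≠ x → x ∘ t ≠ x →
      (x = r ∨ x = r ∘ s ∨ x = r ∘ t ∨ x = (r ∘ s) ∘ t) →
      ((x = r ∨ x = (r ∘ s) ∘ t) ↔ ¬ (x ∘ s = r ∨ x ∘ s = (r ∘ s) ∘ t)) ∧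
      ((x = r ∨ x = (r ∘ s) ∘ t) ↔ ¬ (x ∘ t = r ∨ x ∘ t = (r ∘ s) ∘ t)) := by
    intro x r h1 h2 h3
    have a1 : x = r ↔ r = x := eq_comm
    have s1 : ∀ a b : D → ℝ, a ∘ s = b ↔ a = b ∘ s := fun a b =>
      ⟨fun h => by rw [← h, ess], fun h => by rw [h, ess]⟩
    have t1 : ∀ a b : D → ℝ, a ∘ t = b ↔ a = b ∘ t := fun a b =>
      ⟨fun h => by rw [← h, ett], fun h => by rw [h, ett]⟩
    have e1 : (r ∘ s) ∘ t ∘ s = r ∘ t := by
      funext d; simp [← hst, hs]
    constructor
    · constructor
      · rintro (h | h) (k | k)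
        · exact h1 (by rw [k, h])
        · apply h2
          rw [s1] at k
          rw [est, ess] at k
          rw [h] at k ⊢
          exact k.symm
        · apply h2
          rw [h, ett]
          rw [s1] at k
          rw [h] at k
          exact k.symm
        · exact h1 (by rw [k, h])
      · intro h
        rcases h3 with k | k | k | k
        · exact Or.inl k
        · exact absurd (Or.inl (by rw [k, ess])) h
        · exact absurd (Or.inr (by rw [k, est])) h
        · exact Or.inr k
    · constructor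
      · rintro (h | h) (k | k)
        · exact h2 (by rw [k, h])
        · apply h1
          rw [t1] at k
          rw [ett] at k
          rw [h] at k ⊢
          exact k.symm
        · apply h1
          rw [t1] at k
          rw [h, est, ess]
          rw [h, est] at k
          exact k.symm
        · exact h2 (by rw [k, h])
      · intro h
        rcases h3 with k | k | k | k
        · exact Or.inl k
        · exact absurd (Or.inr (by rw [k])) h
        · exact absurd (Or.inl (by rw [k, ett])) h
        · exact Or.inr k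
  have ccs : ∀ x ∈ X, cc (x ∘ s) = - cc x := by
    intro x hx
    have := (key x (rep x) (hns x hx) (hnt x hx) (hrep x)).1
    simp only [cc, hreps]
    by_cases h : x = rep x ∨ x = (rep x ∘ s) ∘ t
    · rw [if_pos h, if_neg (this.1 h)]
    · rw [if_neg h, if_pos (by by_contra h'; exact h (this.2 h'))]; norm_num
  have cct : ∀ x ∈ X, cc (x ∘ t) = - cc x := by
    intro x hx
    have := (key x (rep x) (hns x hx) (hnt x hx) (hrep x)).2
    simp only [cc, hrept]
    by_cases h : x = rep x ∨ x = (rep x ∘ s) ∘ t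
    · rw [if_pos h, if_neg (this.1 h)]
    · rw [if_neg h, if_pos (by by_contra h'; exact h (this.2 h'))]; norm_num
  let Y : Finset (D → ℝ) := X.image rep
  have hfib : ∀ y, (X.filter (fun x => rep x = y)).card ≤ m := by
    intro y
    have hsub : X.filter (fun x => rep x = y) ⊆
        ({y, y ∘ s, y ∘ t, (y ∘ s) ∘ t} : Finset (D → ℝ)) := by
      intro x hx
      rw [Finset.mem_filter] at hx
      have := hrep x
      rw [hx.2] at this
      simp only [Finset.mem_insert, Finset.mem_singleton]
      exact this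
    rcases hm with ⟨h, hm⟩ | hm
    · rw [hm]
      refine (Finset.card_le_card (t := ({y, y ∘ s} : Finset (D → ℝ))) ?_).trans
        Finset.card_le_two
      refine hsub.trans ?_
      intro x hx
      simp only [Finset.mem_insert, Finset.mem_singleton, ← h, ess] at hx ⊢
      tauto
    · rw [hm]
      exact (Finset.card_le_card hsub).trans Finset.card_le_four
  obtain ⟨f, hf, hb⟩ := bf (ι := Y) R
    (fun r y => ∑ x ∈ X.filter (fun x => rep x = y.1), cc x * x (cd r)) (m * c) (by positivity) (by
      intro y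
      calc ∑ r ∈ R, |∑ x ∈ X.filter (fun x => rep x = y.1), cc x * x (cd r)|
          ≤ ∑ r ∈ R, ∑ x ∈ X.filter (fun x => rep x = y.1), |x (cd r)| := by
            apply Finset.sum_le_sum
            intro r _
            refine (Finset.abs_sum_le_sum_abs _ _).trans (Finset.sum_le_sum fun x _ => ?_)
            rw [abs_mul]
            rcases hcc x with h | h <;> rw [h] <;> simp
        _ = ∑ x ∈ X.filter (fun x => rep x = y.1), ∑ r ∈ R, |x (cd r)| := Finset.sum_comm
        _ ≤ ∑ x ∈ X.filter (fun x => rep x = y.1), c :=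
            Finset.sum_le_sum fun x hx => hR x (Finset.mem_filter.1 hx).1
        _ = (X.filter (fun x => rep x = y.1)).card * c := by rw [Finset.sum_const, nsmul_eq_mul]
        _ ≤ m * c := by
            apply mul_le_mul_of_nonneg_right _ hc
            exact_mod_cast hfib y.1)
  let g : (D → ℝ) → ℝ := fun y => if h : y ∈ Y then f ⟨y, h⟩ else 1
  have hg : ∀ y, g y = 1 ∨ g y = -1 := by
    intro y
    by_cases h : y ∈ Y
    · simpa [g, h] using hf ⟨y, h⟩
    · simp [g, h]
  refine ⟨fun x => g (rep x) * cc x, ?_, ?_, ?_, ?_⟩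
  · intro x
    rcases hg (rep x) with h | h <;> rcases hcc x with k | k <;> simp [h, k]
  · intro d
    rw [← Finset.sum_neg_distrib]
    refine Finset.sum_nbij' (fun x => x ∘ s) (fun x => x ∘ s) (fun x hx => hXs x hx)
      (fun x hx => hXs x hx) (fun x _ => ess x) (fun x _ => ess x) ?_
    intro x hx
    simp only [Function.comp_apply, hreps, ccs x hx]
    ring
  · intro d
    rw [← Finset.sum_neg_distrib]
    refine Finset.sum_nbij' (fun x => x ∘ t) (fun x => x ∘ t) (fun x hx => hXt x hx)
      (fun x hx => hXt x hx) (fun x _ => ett x) (fun x _ => ett x) ?_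
    intro x hx
    simp only [Function.comp_apply, hrept, cct x hx]
    ring
  · intro r hr
    have h1 := hb r hr
    have h2 : ∑ x ∈ X, g (rep x) * cc x * x (cd r) =
        ∑ y : Y, f y * ∑ x ∈ X.filter (fun x => rep x = y.1), cc x * x (cd r) := by
      rw [← Finset.sum_fiberwise_of_maps_to (s := X) (t := Y) (g := rep)
        (fun x hx => Finset.mem_image_of_mem _ hx), ← Finset.sum_coe_sort Y]
      apply Finset.sum_congr rfl
      intro y _
      rw [Finset.mul_sum]
      apply Finset.sum_congr rfl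
      intro x hx
      rw [(Finset.mem_filter.1 hx).2]
      have : g y.1 = f y := by simp [g]
      rw [this]
      ring
    rw [h2]
    exact h1

/-- combine signings of the fibres of a key -/
lemma assemble {D K : Type} [DecidableEq K] (X : Finset (D → ℝ)) (key : (D → ℝ) → K)
    (KS : Finset K) (hkey : ∀ x ∈ X, key x ∈ KS) (T : K → D → ℝ) (Q : D → Prop)
    (H : ∀ k ∈ KS, ∃ ε : (D → ℝ) → ℝ, (∀ x, ε x = 1 ∨ ε x = -1) ∧
      ∀ d, Q d → |∑ x ∈ X.filter (fun x => key x = k), ε x * x d| ≤ T k d) :
    ∃ ε : (D → ℝ) → ℝ, (∀ x, ε x = 1 ∨ ε x = -1) ∧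
      ∀ d, Q d → |∑ x ∈ X, ε x * x d| ≤ ∑ k ∈ KS, T k d := by
  classical
  choose! E hE1 hE2 using H
  refine ⟨fun x => if key x ∈ KS then E (key x) x else 1, ?_, ?_⟩
  · intro x
    by_cases h : key x ∈ KS
    · simpa [h] using hE1 _ h x
    · simp [h]
  · intro d hQ
    rw [← Finset.sum_fiberwise_of_maps_to hkey]
    refine (Finset.abs_sum_le_sum_abs _ _).trans (Finset.sum_le_sum fun k hk => ?_)
    refine le_trans (le_of_eq ?_) (hE2 k hk d hQ)
    congr 1
    apply Finset.sum_congr rfl
    intro x hx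
    simp only [(Finset.mem_filter.1 hx).2, if_pos hk]

lemma alt {N : Type} (F : Finset N) : ∃ δ : N → ℝ, (∀ j, δ j = 1 ∨ δ j = -1) ∧
    ∑ j ∈ F, δ j = if Odd F.card then 1 else 0 := by
  classical
  induction F using Finset.induction_on with
  | empty => exact ⟨fun _ => 1, fun _ => Or.inl rfl, by simp⟩
  | insert a F ha ih =>
    obtain ⟨δ, h1, h2⟩ := ih
    refine ⟨fun j => if j = a then 1 else - δ j, ?_, ?_⟩
    · intro j
      by_cases h : j = a
      · simp [h]
      · rcases h1 j with k | k <;> simp [h, k]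
    · rw [Finset.sum_insert ha, if_pos rfl]
      have : ∑ j ∈ F, (if j = a then (1 : ℝ) else - δ j) = - ∑ j ∈ F, δ j := by
        rw [← Finset.sum_neg_distrib]
        apply Finset.sum_congr rfl
        intro j hj
        have hja : j ≠ a := by rintro rfl; exact ha hj
        rw [if_neg hja]
      rw [this, h2, Finset.card_insert_of_notMem ha]
      by_cases ho : Odd F.card
      · rw [if_pos ho, if_neg (by rw [Nat.odd_add_one]; simpa using ho)]; norm_num
      · rw [if_neg ho, if_pos (by rw [Nat.odd_add_one]; exact ho)]; norm_num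

/-- reduction of families to sets: vectors with even multiplicity are cancelled -/
lemma parity {D N : Type} [Fintype N] (v : N → D → ℝ) :
    ∃ X : Finset (D → ℝ), (∀ x, x ∈ X ↔ Odd (Nat.card {j // v j = x})) ∧
      ∀ ε : (D → ℝ) → ℝ, (∀ x, ε x = 1 ∨ ε x = -1) →
        ∃ δ : N → ℝ, (∀ j, δ j = 1 ∨ δ j = -1) ∧ ∀ d, ∑ j, δ j * v j d = ∑ x ∈ X, ε x * x d := by
  classical
  refine ⟨(Finset.univ.image v).filter (fun x => Odd (Nat.card {j // v j = x})), ?_, ?_⟩
  · intro x
    simp only [Finset.mem_filter, Finset.mem_image, Finset.mem_univ, true_and,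
      and_iff_right_iff_imp]
    intro h
    have h1 : 0 < Nat.card {j // v j = x} := h.pos
    have : Nonempty {j // v j = x} := (Nat.card_pos_iff.1 h1).1
    obtain ⟨j, hj⟩ := this
    exact ⟨j, hj⟩
  · intro ε hε
    choose δ h1 h2 using fun x : D → ℝ => alt (Finset.univ.filter (fun j => v j = x))
    refine ⟨fun j => ε (v j) * δ (v j) j, ?_, ?_⟩
    · intro j
      rcases hε (v j) with h | h <;> rcases h1 (v j) j with k | k <;> simp [h, k]
    · intro d
      rw [Finset.sum_filter, ← Finset.sum_fiberwise_of_maps_to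
        (s := (Finset.univ : Finset N)) (t := Finset.univ.image v) (g := v)
        (fun x hx => Finset.mem_image_of_mem _ hx)]
      apply Finset.sum_congr rfl
      intro x _
      have e1 : ∑ j ∈ Finset.univ.filter (fun j => v j = x), ε (v j) * δ (v j) j * v j d =
          (∑ j ∈ Finset.univ.filter (fun j => v j = x), δ x j) * (ε x * x d) := by
        rw [Finset.sum_mul]
        apply Finset.sum_congr rfl
        intro j hj
        rw [(Finset.mem_filter.1 hj).2]
        ring
      rw [e1, h2 x]
      have e2 : (Finset.univ.filter (fun j => v j = x)).card = Nat.card {j // v j = x} := by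
        rw [Nat.card_eq_fintype_card, Fintype.card_subtype]
      rw [e2]
      by_cases ho : Odd (Nat.card {j // v j = x})
      · rw [if_pos ho, if_pos ho, one_mul]
      · rw [if_neg ho, if_neg ho, zero_mul]

end H782.Kom
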