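import Pool.Agent.H782.Kom.Lift

/-!
# Arrays with independent block swaps in the directions
-/

namespace H782.Kom

open Finset

def gn (n : ℕ) (u : ℕ × ℕ) (p : Fin n) : Fin n := if h : sw u p < n then ⟨sw u p, h⟩ else p

lemma gn_val {n : ℕ} {u : ℕ × ℕ} (hu : Full n u) (p : Fin n) : (gn n u p : ℕ) = sw u p := by
  unfold gn
  rw [dif_pos (sw_lt hu p.2)]

lemma gn_gn {n : ℕ} {u : ℕ × ℕ} (hu : Full n u) (p : Fin n) : gn n u (gn n u p) = p := by
  apply Fin.ext
  rw [gn_val hu, gn_val hu, sw_sw]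

lemma const1 {n l j : ℕ} (hf : (j + 1) * 2 ^ l ≤ n) (y : Fin n → ℝ)
    (hy : ∀ u, Full n u → u.1 < l → o u / 2 ^ l = j → ∀ p, y (gn n u p) = y p) (p : Fin n)
    (hp : (p : ℕ) / 2 ^ l = j) (h0 : j * 2 ^ l < n) : y p = y ⟨j * 2 ^ l, h0⟩ := by
  obtain ⟨π, h1, h2, h3⟩ := trans l j p hp
  let φ : ℕ → ℝ := fun q => if h : q < n then y ⟨q, h⟩ else 0
  have hφ : ∀ u, Full n u → u.1 < l → o u / 2 ^ l = j → ∀ q, φ (sw u q) = φ q := by
    intro u hu hl ho q
    by_cases hq : q < n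
    · have hq' := sw_lt hu hq
      have e1 : φ (sw u q) = y ⟨sw u q, hq'⟩ := by simp only [φ, dif_pos hq']
      have e2 : φ q = y ⟨q, hq⟩ := by simp only [φ, dif_pos hq]
      have e3 : gn n u ⟨q, hq⟩ = ⟨sw u q, hq'⟩ := Fin.ext (gn_val hu _)
      rw [e1, e2, ← e3, hy u hu hl ho]
    · have hq' : ¬ sw u q < n := by
        intro h
        have := sw_lt hu h
        rw [sw_sw] at this
        exact hq this
      simp only [φ, dif_neg hq, dif_neg hq']
  have h4 := h3 (fun d => φ d.1) (fun u hu ho => by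
    rw [good_iff]
    intro d
    exact hφ u (full_in hf hu ho) hu ho d.1) (j * 2 ^ l) 0
  simp only at h4
  rw [h1] at h4
  have e1 : φ p = y p := by simp only [φ, dif_pos p.2]
  have e2 : φ (j * 2 ^ l) = y ⟨j * 2 ^ l, h0⟩ := by simp only [φ, dif_pos h0]
  rw [← e1, ← e2, h4]

lemma cardF {n l j : ℕ} (hf : (j + 1) * 2 ^ l ≤ n) :
    ((univ : Finset (Fin n)).filter (fun p : Fin n => (p : ℕ) / 2 ^ l = j)).card = 2 ^ l := by
  rw [Finset.card_filter, ← Finset.sum_range (fun p => if p / 2 ^ l = j then 1 else 0),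
    ← Finset.card_filter, card_block hf]

lemma sumF {n l j : ℕ} (hf : (j + 1) * 2 ^ l ≤ n) (S : Fin n → ℝ) (c : ℝ)
    (hS : ∀ p : Fin n, (p : ℕ) / 2 ^ l = j → S p = c) :
    ∑ p ∈ (univ : Finset (Fin n)).filter (fun p : Fin n => (p : ℕ) / 2 ^ l = j), S p = 2 ^ l * c := by
  rw [Finset.sum_congr rfl fun p hp => hS p (Finset.mem_filter.1 hp).2, Finset.sum_const,
    cardF hf, nsmul_eq_mul]
  push_cast
  rfl

/-- odd signing property -/
def OddP (D : Type) [Fintype D] (Hs : Set (D → D)) (K : ℝ) : Prop :=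
  ∀ (J : Type) [Fintype J] (w : J → ℝ) (A : Finset (J × D → ℝ)), (∀ j, 0 ≤ w j) →
    (∀ a ∈ A, -a ∈ A) → (∀ a ∈ A, a ≠ 0) → (∀ h ∈ Hs, ∀ a ∈ A, (fun d => a (d.1, h d.2)) ∈ A) →
    (∀ a ∈ A, ∀ j, ∑ d, a (j, d) ^ 2 ≤ w j ^ 2) →
    ∃ ε : (J × D → ℝ) → ℝ, (∀ a, ε a = 1 ∨ ε a = -1) ∧ (∀ a ∈ A, ε (-a) = -ε a) ∧
      ∀ r, |∑ a ∈ A, ε a * a r| ≤ K * ∑ j, w j

lemma oddP_unit (Hs : Set (Unit → Unit)) : OddP Unit Hs 2 := by
  classical
  intro J _ w A hw hneg hne _ hn
  obtain ⟨pos, hpos⟩ := exists_pos (J × Unit)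
  obtain ⟨ε0, h1, h2⟩ := plainsign (A.filter pos) (univ : Finset (J × Unit)) (fun r => r)
    (∑ j, w j) (Finset.sum_nonneg fun j _ => hw j) (by
      intro a ha
      have ha' := (Finset.mem_filter.1 ha).1
      rw [Fintype.sum_prod_type]
      apply Finset.sum_le_sum
      intro j _
      have := hn a ha' j
      simp only [Finset.univ_unique, Finset.sum_singleton] at this ⊢
      exact abs_le_of_sq_le_sq this (hw j))
  refine ⟨fun a => if pos a then ε0 a else - ε0 (-a), ?_, ?_, ?_⟩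
  · intro a
    by_cases h : pos a
    · simpa [h] using h1 a
    · rcases h1 (-a) with k | k <;> simp [h, k]
  · intro a ha
    have := hpos a (hne a ha)
    by_cases h : pos a
    · have h' : ¬ pos (-a) := by rw [this, not_not]; exact h
      simp only [if_pos h, if_neg h', neg_neg]
    · have h' : pos (-a) := this.2 h
      simp only [if_neg h, if_pos h', neg_neg]
  · intro r
    rw [← Finset.sum_filter_add_sum_filter_not A pos]
    have e1 : ∑ a ∈ A.filter pos, (if pos a then ε0 a else - ε0 (-a)) * a r =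
        ∑ a ∈ A.filter pos, ε0 a * a r :=
      Finset.sum_congr rfl fun a ha => by rw [if_pos (Finset.mem_filter.1 ha).2]
    have e2 : ∑ a ∈ A.filter (fun a => ¬ pos a), (if pos a then ε0 a else - ε0 (-a)) * a r =
        ∑ a ∈ A.filter pos, ε0 a * a r := by
      refine Finset.sum_nbij' (fun x => -x) (fun x => -x) ?_ ?_ (fun x _ => neg_neg x)
        (fun x _ => neg_neg x) ?_
      · intro a ha
        have ha' := Finset.mem_filter.1 ha
        exact Finset.mem_filter.2 ⟨hneg a ha'.1, (hpos a (hne a ha'.1)).2 ha'.2⟩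
      · intro a ha
        have ha' := Finset.mem_filter.1 ha
        refine Finset.mem_filter.2 ⟨hneg a ha'.1, ?_⟩
        rw [hpos a (hne a ha'.1), not_not]
        exact ha'.2
      · intro a ha
        have ha' := Finset.mem_filter.1 ha
        rw [if_neg ha'.2]
        simp only [Pi.neg_apply]
        ring
    rw [e1, e2]
    have := h2 r (Finset.mem_univ _)
    calc |∑ a ∈ A.filter pos, ε0 a * a r + ∑ a ∈ A.filter pos, ε0 a * a r|
        ≤ |∑ a ∈ A.filter pos, ε0 a * a r| + |∑ a ∈ A.filter pos, ε0 a * a r| := abs_add_le _ _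
      _ ≤ 2 * ∑ j, w j := by linarith

/-! ### the step -/

section step

variable {J F : Type} {n : ℕ}

def su (u : ℕ × ℕ) (d : J × (Fin n × F)) : J × (Fin n × F) := (d.1, (gn n u d.2.1, d.2.2))

lemma su_su {u : ℕ × ℕ} (hu : Full n u) (d : J × (Fin n × F)) : su u (su u d) = d := by
  simp only [su, gn_gn hu]

lemma comp_su_su {u : ℕ × ℕ} (hu : Full n u) (x : J × (Fin n × F) → ℝ) :
    (x ∘ su u) ∘ su u = x := by
  funext d
  simp only [Function.comp_apply, su_su hu]

def P1 (v : ℕ × ℕ) (x : J × (Fin n × F) → ℝ) : Prop :=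
  Full n v ∧ x ∘ su v ≠ x ∧ ∀ u, Full n u → toLex u < toLex v → x ∘ su u = x

lemma P1_unique {v v' : ℕ × ℕ} {x : J × (Fin n × F) → ℝ} (h : P1 v x) (h' : P1 v' x) :
    v = v' := by
  have h1 : ¬ toLex v < toLex v' := fun hlt => h.2.1 (h'.2.2 v h.1 hlt)
  have h2 : ¬ toLex v' < toLex v := fun hlt => h'.2.1 (h.2.2 v' h'.1 hlt)
  exact toLex.injective (le_antisymm (not_lt.1 h2) (not_lt.1 h1))

lemma P1_exists {x : J × (Fin n × F) → ℝ} (h : ∃ u, Full n u ∧ x ∘ su u ≠ x) :
    ∃ v, P1 v x := by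
  classical
  obtain ⟨u, hu1, hu2⟩ := h
  let S := (Nodes n).filter (fun u => x ∘ su u ≠ x)
  have hS : S.Nonempty := ⟨u, Finset.mem_filter.2 ⟨mem_Nodes.2 hu1, hu2⟩⟩
  obtain ⟨v, hv, hmin⟩ := Finset.exists_min_image S (fun u => toLex u) hS
  have hv' := Finset.mem_filter.1 hv
  refine ⟨v, mem_Nodes.1 hv'.1, hv'.2, fun u hu hlt => ?_⟩
  by_contra hb
  exact absurd hlt (not_lt.2 (hmin u (Finset.mem_filter.2 ⟨mem_Nodes.2 hu, hb⟩)))

lemma P1_neg {v : ℕ × ℕ} {x : J × (Fin n × F) → ℝ} (h : P1 v x) : P1 v (-x) := by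
  refine ⟨h.1, ?_, ?_⟩
  · intro e
    apply h.2.1
    funext d
    have := congrFun e d
    simp only [Function.comp_apply, Pi.neg_apply, neg_inj] at this
    exact this
  · intro u hu hlt
    funext d
    have := congrFun (h.2.2 u hu hlt) d
    simp only [Function.comp_apply, Pi.neg_apply] at this ⊢
    rw [this]

lemma P1_h {v : ℕ × ℕ} {x : J × (Fin n × F) → ℝ} (h : P1 v x) {k : F → F}
    (hk : ∀ f, k (k f) = f) : P1 v (fun d => x (d.1, (d.2.1, k d.2.2))) := by
  refine ⟨h.1, ?_, ?_⟩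
  · intro e
    apply h.2.1
    funext d
    have := congrFun e (d.1, (d.2.1, k d.2.2))
    simp only [Function.comp_apply, su, hk] at this ⊢
    exact this
  · intro u hu hlt
    funext d
    have := congrFun (h.2.2 u hu hlt) (d.1, (d.2.1, k d.2.2))
    simp only [Function.comp_apply, su] at this ⊢
    exact this

lemma P1_su {v : ℕ × ℕ} {x : J × (Fin n × F) → ℝ} (h : P1 v x) : P1 v (x ∘ su v) := by
  obtain ⟨h1, h2, h3⟩ := h
  refine ⟨h1, ?_, ?_⟩
  · intro e
    apply h2
    rw [comp_su_su h1] at e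
    exact e.symm
  · intro u hu hlt
    have hlt' := hlt
    rw [Prod.Lex.toLex_lt_toLex] at hlt'
    have hle : u.1 ≤ v.1 := by omega
    have hact : Full n (act v u) ∧ toLex (act v u) < toLex v := by
      by_cases ho : o u / 2 ^ (v.1 + 1) = v.2
      · have hlt1 : u.1 < v.1 := by
          rcases lt_or_eq_of_le hle with h | h
          · exact h
          · exfalso
            rw [← h, o_div] at ho
            omega
        refine ⟨full_of_div h1 (by rw [sw_div_hi v _ (Nat.lt_succ_self _), ho]) (by omega), ?_⟩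
        rw [Prod.Lex.toLex_lt_toLex]
        left
        exact hlt1
      · rw [act_of_ne ho]
        exact ⟨hu, hlt⟩
    have hc : ∀ d : J × (Fin n × F), su v (su u d) = su (act v u) (su v d) := by
      intro d
      simp only [su]
      congr 2
      apply Fin.ext
      rw [gn_val h1, gn_val hu, gn_val hact.1, gn_val h1, conj hle]
    funext d
    simp only [Function.comp_apply]
    rw [hc]
    exact congrFun (h3 _ hact.1 hact.2) (su v d)

end step

end H782.Kom
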