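import Pool.Agent.H782.Kom.Ten

/-!
# Arrays with independent block swaps in the directions: the step
-/

namespace H782.Kom

open Finset

variable {J F : Type} {n : ℕ}

/-- constancy on the first half of `v` -/
lemma firstHalf {v : ℕ × ℕ} {x : J × (Fin n × F) → ℝ} (h : P1 v x)
    (h0 : 2 * v.2 * 2 ^ v.1 < n) (p : Fin n) (hp : (p : ℕ) / 2 ^ v.1 = 2 * v.2) (j : J) (f : F) :
    x (j, (p, f)) = x (j, (⟨2 * v.2 * 2 ^ v.1, h0⟩, f)) := by
  apply const1 (first_full h.1) (fun p => x (j, (p, f)))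
  · intro u hu hl _ p
    exact congrFun (h.2.2 u hu (by rw [Prod.Lex.toLex_lt_toLex]; left; exact hl)) (j, (p, f))
  · exact hp

lemma o1_lt {v : ℕ × ℕ} (hv : Full n v) : 2 * v.2 * 2 ^ v.1 < n := by
  have h1 := first_full hv
  have : 0 < 2 ^ v.1 := by positivity
  nlinarith

lemma gn_notin {v : ℕ × ℕ} (hv : Full n v) (p : Fin n) (hp : (p : ℕ) / 2 ^ (v.1 + 1) ≠ v.2) :
    gn n v p = p := by
  apply Fin.ext
  rw [gn_val hv, sw_neg hp]

/-- three cases for a leaf -/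
lemma cases3 (v : ℕ × ℕ) (hv : Full n v) (p : Fin n) : ((p : ℕ) / 2 ^ (v.1 + 1) ≠ v.2) ∨
    ((p : ℕ) / 2 ^ (v.1 + 1) = v.2 ∧ (p : ℕ) / 2 ^ v.1 = 2 * v.2) ∨
    ((p : ℕ) / 2 ^ (v.1 + 1) = v.2 ∧ (gn n v p : ℕ) / 2 ^ v.1 = 2 * v.2) := by
  by_cases h : (p : ℕ) / 2 ^ (v.1 + 1) = v.2
  · rcases half v h with k | k
    · right; left; exact ⟨h, k⟩
    · right; right; exact ⟨h, by rw [gn_val hv]; exact k⟩
  · left; exact h

/-- the difference map -/
noncomputable def YY (v : ℕ × ℕ) (o1 : Fin n) (x : J × (Fin n × F) → ℝ) : J × F → ℝ :=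
  fun d => x (d.1, (o1, d.2)) - x (d.1, (gn n v o1, d.2))

lemma YY_size [Fintype F] {v : ℕ × ℕ} {x : J × (Fin n × F) → ℝ} (h : P1 v x)
    (h0 : 2 * v.2 * 2 ^ v.1 < n) (j : J) {w : ℝ}
    (hn : ∑ d : Fin n × F, x (j, d) ^ 2 ≤ w ^ 2) :
    ∑ f, YY v ⟨2 * v.2 * 2 ^ v.1, h0⟩ x (j, f) ^ 2 ≤ (1.4143 * rr ^ v.1 * w) ^ 2 := by
  classical
  set o1 : Fin n := ⟨2 * v.2 * 2 ^ v.1, h0⟩ with ho1
  have hs := P1_su h
  let S : Fin n → ℝ := fun p => ∑ f, x (j, (p, f)) ^ 2
  have hS0 : ∀ p, 0 ≤ S p := fun p => Finset.sum_nonneg fun f _ => sq_nonneg _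
  have e1 : ∑ p ∈ (univ : Finset (Fin n)).filter (fun p : Fin n => (p : ℕ) / 2 ^ v.1 = 2 * v.2),
      S p = 2 ^ v.1 * S o1 := sumF (first_full h.1) S _ (fun p hp => by
    simp only [S]
    exact Finset.sum_congr rfl fun f _ => by rw [firstHalf h h0 p hp j f])
  have e2 : ∑ p ∈ (univ : Finset (Fin n)).filter (fun p : Fin n => (p : ℕ) / 2 ^ v.1 = 2 * v.2),
      S (gn n v p) = 2 ^ v.1 * S (gn n v o1) :=
    sumF (first_full h.1) (fun p => S (gn n v p)) _ (fun p hp => by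
      simp only [S]
      apply Finset.sum_congr rfl
      intro f _
      have := firstHalf hs h0 p hp j f
      simp only [Function.comp_apply, su] at this
      rw [this])
  have e3 : ∑ p ∈ (univ : Finset (Fin n)).filter (fun p : Fin n => (p : ℕ) / 2 ^ v.1 = 2 * v.2),
      S (gn n v p) = ∑ p ∈ ((univ : Finset (Fin n)).filter
        (fun p : Fin n => (p : ℕ) / 2 ^ v.1 = 2 * v.2)).image (gn n v), S p := by
    rw [Finset.sum_image]
    intro p _ q _ hpq
    have := congrArg (gn n v) hpq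
    rwa [gn_gn h.1, gn_gn h.1] at this
  have hdisj : Disjoint ((univ : Finset (Fin n)).filter
      (fun p : Fin n => (p : ℕ) / 2 ^ v.1 = 2 * v.2)) (((univ : Finset (Fin n)).filter
        (fun p : Fin n => (p : ℕ) / 2 ^ v.1 = 2 * v.2)).image (gn n v)) := by
    rw [Finset.disjoint_left]
    intro p hp hq
    obtain ⟨q, hq1, hq2⟩ := Finset.mem_image.1 hq
    have hp' := (Finset.mem_filter.1 hp).2
    have hq' := (Finset.mem_filter.1 hq1).2
    rw [← hq2, gn_val h.1] at hp'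
    have hin : (q : ℕ) / 2 ^ (v.1 + 1) = v.2 := by rw [div_succ, hq']; omega
    rw [sw_pos hin, xor_div_self, hq', two_xor] at hp'
    omega
  have e4 : 2 ^ v.1 * S o1 + 2 ^ v.1 * S (gn n v o1) ≤ w ^ 2 := by
    rw [← e1, ← e2, e3, ← Finset.sum_union hdisj]
    refine le_trans (Finset.sum_le_sum_of_subset_of_nonneg (Finset.subset_univ _)
      (fun p _ _ => hS0 p)) ?_
    refine le_trans (le_of_eq ?_) hn
    rw [Fintype.sum_prod_type]
  have e5 : ∑ f, YY v o1 x (j, f) ^ 2 ≤ 2 * (S o1 + S (gn n v o1)) := by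
    simp only [S]
    rw [← Finset.sum_add_distrib, Finset.mul_sum]
    apply Finset.sum_le_sum
    intro f _
    simp only [YY]
    nlinarith [sq_nonneg (x (j, (o1, f)) + x (j, (gn n v o1, f)))]
  have hr : (rr ^ v.1) ^ 2 * 2 ^ v.1 = 1 := by
    rw [← pow_mul, mul_comm v.1 2, pow_mul, rr_sq, ← mul_pow]
    norm_num
  have e6 : S o1 + S (gn n v o1) ≤ (rr ^ v.1) ^ 2 * w ^ 2 := by
    have h2 : (rr ^ v.1) ^ 2 * (2 ^ v.1 * S o1 + 2 ^ v.1 * S (gn n v o1)) ≤
        (rr ^ v.1) ^ 2 * w ^ 2 := mul_le_mul_of_nonneg_left e4 (sq_nonneg _)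
    calc S o1 + S (gn n v o1) = ((rr ^ v.1) ^ 2 * 2 ^ v.1) * (S o1 + S (gn n v o1)) := by
          rw [hr, one_mul]
      _ = (rr ^ v.1) ^ 2 * (2 ^ v.1 * S o1 + 2 ^ v.1 * S (gn n v o1)) := by ring
      _ ≤ _ := h2
  have e7 : 0 ≤ (rr ^ v.1) ^ 2 * w ^ 2 := by positivity
  calc ∑ f, YY v o1 x (j, f) ^ 2 ≤ 2 * (S o1 + S (gn n v o1)) := e5
    _ ≤ 2 * ((rr ^ v.1) ^ 2 * w ^ 2) := by linarith
    _ ≤ (1.4143 * rr ^ v.1 * w) ^ 2 := by
        have : (1.4143 * rr ^ v.1 * w) ^ 2 = 1.4143 ^ 2 * ((rr ^ v.1) ^ 2 * w ^ 2) := by ring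
        rw [this]
        nlinarith

/-- signing the class of a node -/
lemma part_v [Fintype J] [Fintype F] {Hs : Set (F → F)} {K : ℝ} (hK : OddP F Hs K)
    (hinv : ∀ h ∈ Hs, ∀ f, h (h f) = f) (v : ℕ × ℕ) (hv : Full n v) (w : J → ℝ)
    (hw : ∀ j, 0 ≤ w j) (X : Finset (J × (Fin n × F) → ℝ)) (hP : ∀ x ∈ X, P1 v x)
    (hneg : ∀ x ∈ X, -x ∈ X) (hsu : ∀ x ∈ X, x ∘ su v ∈ X)
    (hh : ∀ h ∈ Hs, ∀ x ∈ X, (fun d : J × (Fin n × F) => x (d.1, (d.2.1, h d.2.2))) ∈ X)
    (hn : ∀ x ∈ X, ∀ j, ∑ d, x (j, d) ^ 2 ≤ w j ^ 2) :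
    ∃ ε : (J × (Fin n × F) → ℝ) → ℝ, (∀ x, ε x = 1 ∨ ε x = -1) ∧ (∀ x ∈ X, ε (-x) = -ε x) ∧
      ∀ r : J × (Fin n × F), |∑ x ∈ X, ε x * x r| ≤
        ind v r.2.1 * (2.12145 * rr ^ v.1 * (K * ∑ j, w j)) := by
  classical
  have h0 := o1_lt hv
  set o1 : Fin n := ⟨2 * v.2 * 2 ^ v.1, h0⟩ with ho1
  let κ : (J × (Fin n × F) → ℝ) → (J × (Fin n × F) → ℝ) := fun x => -(x ∘ su v)
  have hκκ : ∀ x, κ (κ x) = x := by
    intro x
    funext d
    simp only [κ, Pi.neg_apply, Function.comp_apply, neg_neg, su_su hv]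
  -- second half values
  have sec : ∀ x ∈ X, ∀ p : Fin n, (gn n v p : ℕ) / 2 ^ v.1 = 2 * v.2 → ∀ j f,
      x (j, (p, f)) = x (j, (gn n v o1, f)) := by
    intro x hx p hp j f
    have := firstHalf (P1_su (hP x hx)) h0 (gn n v p) hp j f
    simp only [Function.comp_apply, su, gn_gn hv] at this
    exact this
  have fst : ∀ x ∈ X, ∀ p : Fin n, (p : ℕ) / 2 ^ v.1 = 2 * v.2 → ∀ j f,
      x (j, (p, f)) = x (j, (o1, f)) := fun x hx p hp j f => firstHalf (hP x hx) h0 p hp j f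
  obtain ⟨ε, h1, h2, h3, h4⟩ := lift X (YY v o1) κ hneg
    (fun x hx => hneg _ (hsu x hx)) hκκ
    (fun x => by funext d; simp only [κ, Pi.neg_apply, Function.comp_apply])
    (fun x => by funext d; simp only [YY, Pi.neg_apply]; ring)
    (fun x hx => by
      funext d
      simp only [YY, κ, Pi.neg_apply, Function.comp_apply, su, gn_gn hv]
      ring)
    (fun x hx h => by
      apply (hP x hx).2.1
      have heq : ∀ j f, x (j, (o1, f)) = x (j, (gn n v o1, f)) := by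
        intro j f
        have := congrFun h (j, f)
        simp only [YY, Pi.zero_apply] at this
        linarith
      funext d
      obtain ⟨j, p, f⟩ := d
      simp only [Function.comp_apply, su]
      rcases cases3 v hv p with k | ⟨_, k⟩ | ⟨_, k⟩
      · rw [gn_notin hv p k]
      · rw [fst x hx p k, sec x hx (gn n v p) (by rw [gn_gn hv]; exact k), heq]
      · rw [sec x hx p k, fst x hx (gn n v p) k, heq])
    (fun x hx x' hx' e e' hY => by
      funext d
      obtain ⟨j, p, f⟩ := d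
      have hx1 : ∀ d, x d = - x (su v d) := fun d => by
        have := congrFun e d
        simp only [κ, Pi.neg_apply, Function.comp_apply] at this
        linarith
      have hx2 : ∀ d, x' d = - x' (su v d) := fun d => by
        have := congrFun e' d
        simp only [κ, Pi.neg_apply, Function.comp_apply] at this
        linarith
      have hY1 : x (j, (o1, f)) - x (j, (gn n v o1, f)) =
          x' (j, (o1, f)) - x' (j, (gn n v o1, f)) := congrFun hY (j, f)
      have a1 := hx1 (j, (o1, f))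
      have a2 := hx2 (j, (o1, f))
      simp only [su] at a1 a2
      have b1 : x (j, (o1, f)) = x' (j, (o1, f)) := by linarith
      have b2 : x (j, (gn n v o1, f)) = x' (j, (gn n v o1, f)) := by linarith
      rcases cases3 v hv p with k | ⟨_, k⟩ | ⟨_, k⟩
      · have c1 := hx1 (j, (p, f))
        have c2 := hx2 (j, (p, f))
        simp only [su, gn_notin hv p k] at c1 c2
        linarith
      · rw [fst x hx p k, fst x' hx' p k, b1]
      · rw [sec x hx p k, sec x' hx' p k, b2])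
    {h // h ∈ Hs} (fun i x => fun d => x (d.1, (d.2.1, i.1 d.2.2)))
    (fun i b => fun d => b (d.1, i.1 d.2))
    (fun i x hx => hh i.1 i.2 x hx)
    (fun i x => by funext d; simp only [hinv i.1 i.2])
    (fun i x => rfl) (fun i x => rfl) Set.univ
    (K * ∑ j, 1.4143 * rr ^ v.1 * w j)
    (fun B hB1 hB2 hB3 hB4 => by
      obtain ⟨ε, h1, h2, h3⟩ := hK J (fun j => 1.4143 * rr ^ v.1 * w j) B
        (fun j => by have := rr_nonneg; have := hw j; positivity) hB1 hB2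
        (fun h hh b hb => hB3 ⟨h, hh⟩ b hb) (fun b hb j => by
          obtain ⟨x, hx, rfl⟩ := hB4 b hb
          exact YY_size (hP x hx) h0 j (hn x hx j))
      exact ⟨ε, h1, h2, fun r _ => h3 r⟩)
  refine ⟨ε, h1, h2, ?_⟩
  set z : J × (Fin n × F) → ℝ := fun r => ∑ x ∈ X, ε x * x r with hz
  have za : ∀ d, z (su v d) = - z d := by
    intro d
    simp only [hz]
    rw [← Finset.sum_neg_distrib]
    refine Finset.sum_nbij' κ κ (fun x hx => hneg _ (hsu x hx)) (fun x hx => hneg _ (hsu x hx))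
      (fun x _ => hκκ x) (fun x _ => hκκ x) ?_
    intro x hx
    rw [h3 x hx]
    simp only [κ, Pi.neg_apply, Function.comp_apply]
    ring
  have zf : ∀ p : Fin n, (p : ℕ) / 2 ^ v.1 = 2 * v.2 → ∀ j f,
      z (j, (p, f)) = z (j, (o1, f)) := by
    intro p hp j f
    simp only [hz]
    exact Finset.sum_congr rfl fun x hx => by rw [fst x hx p hp]
  have hM : ∑ j, 1.4143 * rr ^ v.1 * w j = 1.4143 * rr ^ v.1 * ∑ j, w j := by
    rw [Finset.mul_sum]
  have zo : ∀ j f, |z (j, (o1, f))| ≤ 2.12145 * rr ^ v.1 * (K * ∑ j, w j) := by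
    intro j f
    have e1 := za (j, (o1, f))
    have e2 : ∑ x ∈ X, ε x * YY v o1 x (j, f) = z (j, (o1, f)) - z (j, (gn n v o1, f)) := by
      simp only [hz, YY]
      rw [← Finset.sum_sub_distrib]
      exact Finset.sum_congr rfl fun x _ => by ring
    have e3 : ∑ x ∈ X, ε x * YY v o1 x (j, f) = 2 * z (j, (o1, f)) := by
      rw [e2]
      simp only [su] at e1
      rw [e1]
      ring
    have e4 := h4 (j, f) (Set.mem_univ _)
    rw [e3, abs_mul, abs_of_pos (by norm_num : (0:ℝ) < 2), hM] at e4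
    nlinarith
  rintro ⟨j, p, f⟩
  show |z (j, (p, f))| ≤ _
  rcases cases3 v hv p with k | ⟨k0, k⟩ | ⟨k0, k⟩
  · have e1 := za (j, (p, f))
    simp only [su, gn_notin hv p k] at e1
    have e2 : z (j, (p, f)) = 0 := by linarith
    have e3 : ind v p = 0 := by unfold ind; rw [if_neg k]
    rw [e2, abs_zero]
    simp only [e3, zero_mul, le_refl]
  · have e3 : ind v p = 1 := by unfold ind; rw [if_pos k0]
    simp only [e3, one_mul]
    rw [zf p k]
    exact zo j f
  · have e3 : ind v p = 1 := by unfold ind; rw [if_pos k0]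
    simp only [e3, one_mul]
    have e1 := za (j, (p, f))
    simp only [su] at e1
    have e2 : |z (j, (p, f))| = |z (j, (gn n v p, f))| := by rw [e1, abs_neg]
    rw [e2, zf _ k]
    exact zo j f

end H782.Kom
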