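import Pool.Agent.H782.Kom.Ten2

/-!
# Arrays with independent block swaps in the directions: conclusion
-/

namespace H782.Kom

open Finset

variable {J F : Type} {n : ℕ}

lemma oa_lt {a : ℕ} (h : (2 * (n / 2 ^ (a + 1)) + 1) * 2 ^ a ≤ n) :
    2 * (n / 2 ^ (a + 1)) * 2 ^ a < n := by
  have : 0 < 2 ^ a := by positivity
  nlinarith

noncomputable def YT (x : J × (Fin n × F) → ℝ) : (J × Fin n) × F → ℝ := fun d =>
  if h : (2 * (n / 2 ^ ((d.1.2 : ℕ) + 1)) + 1) * 2 ^ (d.1.2 : ℕ) ≤ n then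
    x (d.1.1, (⟨2 * (n / 2 ^ ((d.1.2 : ℕ) + 1)) * 2 ^ (d.1.2 : ℕ), oa_lt h⟩, d.2)) else 0

lemma tree_of (p : Fin n) : ∃ a : Fin n, (2 * (n / 2 ^ ((a : ℕ) + 1)) + 1) * 2 ^ (a : ℕ) ≤ n ∧
    (p : ℕ) / 2 ^ (a : ℕ) = 2 * (n / 2 ^ ((a : ℕ) + 1)) := by
  have hex : ∃ b, ¬ (((p : ℕ) / 2 ^ b + 1) * 2 ^ b ≤ n) := by
    refine ⟨n, ?_⟩
    intro h1
    have : n < 2 ^ n := Nat.lt_two_pow_self
    nlinarith [Nat.zero_le ((p : ℕ) / 2 ^ n * 2 ^ n)]
  obtain ⟨a, ha1, ha2⟩ := Nat.exists_not_and_succ_of_not_zero_of_exists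
    (p := fun b => ¬ (((p : ℕ) / 2 ^ b + 1) * 2 ^ b ≤ n))
    (by simp only [pow_zero, Nat.div_one, mul_one, not_not]; exact p.2) hex
  rw [not_not] at ha1
  have htop := top_idx p.2 ha1 ha2
  have han : a < n := by
    have h3 : a < 2 ^ a := Nat.lt_two_pow_self
    nlinarith [Nat.zero_le ((p : ℕ) / 2 ^ a * 2 ^ a)]
  refine ⟨⟨a, han⟩, ?_, htop⟩
  show (2 * (n / 2 ^ (a + 1)) + 1) * 2 ^ a ≤ n
  rw [← htop]
  exact ha1

lemma YT_val {x : J × (Fin n × F) → ℝ} (hx : ∀ u, Full n u → x ∘ su u = x) (p : Fin n) (j : J)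
    (f : F) {a : Fin n} (h1 : (2 * (n / 2 ^ ((a : ℕ) + 1)) + 1) * 2 ^ (a : ℕ) ≤ n)
    (h2 : (p : ℕ) / 2 ^ (a : ℕ) = 2 * (n / 2 ^ ((a : ℕ) + 1))) :
    x (j, (p, f)) = YT x ((j, a), f) := by
  have := const1 h1 (fun p => x (j, (p, f)))
    (fun u hu _ _ p => congrFun (hx u hu) (j, (p, f))) p h2 (oa_lt h1)
  rw [this]
  unfold YT
  rw [dif_pos h1]

lemma YT_size [Fintype F] {x : J × (Fin n × F) → ℝ} (hx : ∀ u, Full n u → x ∘ su u = x) (j : J)
    (a : Fin n) {w : ℝ} (hn : ∑ d : Fin n × F, x (j, d) ^ 2 ≤ w ^ 2) :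
    ∑ f, YT x ((j, a), f) ^ 2 ≤ (w * rr ^ (a : ℕ)) ^ 2 := by
  classical
  by_cases h1 : (2 * (n / 2 ^ ((a : ℕ) + 1)) + 1) * 2 ^ (a : ℕ) ≤ n
  · let S : Fin n → ℝ := fun p => ∑ f, x (j, (p, f)) ^ 2
    have e1 := sumF h1 S (∑ f, YT x ((j, a), f) ^ 2) (fun p hp => by
      simp only [S]
      exact Finset.sum_congr rfl fun f _ => by rw [YT_val hx p j f h1 hp])
    have e2 : 2 ^ (a : ℕ) * ∑ f, YT x ((j, a), f) ^ 2 ≤ w ^ 2 := by
      rw [← e1]
      refine le_trans (Finset.sum_le_sum_of_subset_of_nonneg (Finset.filter_subset _ _)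
        (fun p _ _ => Finset.sum_nonneg fun f _ => sq_nonneg _)) ?_
      refine le_trans (le_of_eq ?_) hn
      rw [Fintype.sum_prod_type]
    have hr : (rr ^ (a : ℕ)) ^ 2 * 2 ^ (a : ℕ) = 1 := by
      rw [← pow_mul, mul_comm (a : ℕ) 2, pow_mul, rr_sq, ← mul_pow]
      norm_num
    calc ∑ f, YT x ((j, a), f) ^ 2 = ((rr ^ (a : ℕ)) ^ 2 * 2 ^ (a : ℕ)) *
          ∑ f, YT x ((j, a), f) ^ 2 := by rw [hr, one_mul]
      _ = (rr ^ (a : ℕ)) ^ 2 * (2 ^ (a : ℕ) * ∑ f, YT x ((j, a), f) ^ 2) := by ring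
      _ ≤ (rr ^ (a : ℕ)) ^ 2 * w ^ 2 := mul_le_mul_of_nonneg_left e2 (sq_nonneg _)
      _ = _ := by ring
  · have : ∀ f, YT x ((j, a), f) = 0 := fun f => by unfold YT; rw [dif_neg h1]
    simp only [this]
    have : 0 ≤ (w * rr ^ (a : ℕ)) ^ 2 := sq_nonneg _
    simpa using this

lemma part_tree [Fintype J] [Fintype F] {Hs : Set (F → F)} {K : ℝ} (hK : OddP F Hs K)
    (hK0 : 0 ≤ K) (w : J → ℝ)
    (hw : ∀ j, 0 ≤ w j) (X : Finset (J × (Fin n × F) → ℝ))
    (hg : ∀ x ∈ X, ∀ u, Full n u → x ∘ su u = x)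
    (hneg : ∀ x ∈ X, -x ∈ X) (h00 : ∀ x ∈ X, x ≠ 0)
    (hh : ∀ h ∈ Hs, ∀ x ∈ X, (fun d : J × (Fin n × F) => x (d.1, (d.2.1, h d.2.2))) ∈ X)
    (hn : ∀ x ∈ X, ∀ j, ∑ d, x (j, d) ^ 2 ≤ w j ^ 2) :
    ∃ ε : (J × (Fin n × F) → ℝ) → ℝ, (∀ x, ε x = 1 ∨ ε x = -1) ∧ (∀ x ∈ X, ε (-x) = -ε x) ∧
      ∀ r : J × (Fin n × F), |∑ x ∈ X, ε x * x r| ≤ 3.415 * (K * ∑ j, w j) := by
  classical
  have hneg' : ∀ x : J × (Fin n × F) → ℝ, YT (-x) = - YT x := by
    intro x
    funext d
    simp only [YT, Pi.neg_apply]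
    split_ifs <;> simp
  have hinj : ∀ x ∈ X, ∀ x' ∈ X, YT x = YT x' → x = x' := by
    intro x hx x' hx' h
    funext r
    obtain ⟨j, p, f⟩ := r
    obtain ⟨a, h1, h2⟩ := tree_of p
    rw [YT_val (hg x hx) p j f h1 h2, YT_val (hg x' hx') p j f h1 h2, h]
  obtain ⟨ε, h1, h2, h3⟩ := hK (J × Fin n) (fun q => w q.1 * rr ^ (q.2 : ℕ)) (X.image YT)
    (fun q => mul_nonneg (hw _) (pow_nonneg rr_nonneg _))
    (by
      intro b hb
      obtain ⟨x, hx, rfl⟩ := Finset.mem_image.1 hb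
      exact Finset.mem_image.2 ⟨-x, hneg x hx, hneg' x⟩)
    (by
      intro b hb h
      obtain ⟨x, hx, rfl⟩ := Finset.mem_image.1 hb
      apply h00 x hx
      funext r
      obtain ⟨j, p, f⟩ := r
      obtain ⟨a, h1, h2⟩ := tree_of p
      rw [YT_val (hg x hx) p j f h1 h2, h]
      rfl)
    (by
      intro h hh' b hb
      obtain ⟨x, hx, rfl⟩ := Finset.mem_image.1 hb
      exact Finset.mem_image.2 ⟨_, hh h hh' x hx, rfl⟩)
    (by
      intro b hb q
      obtain ⟨x, hx, rfl⟩ := Finset.mem_image.1 hb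
      exact YT_size (hg x hx) q.1 q.2 (hn x hx q.1))
  refine ⟨fun x => ε (YT x), fun x => h1 _, ?_, ?_⟩
  · intro x hx
    simp only [hneg']
    exact h2 _ (Finset.mem_image_of_mem _ hx)
  · rintro ⟨j, p, f⟩
    obtain ⟨a, k1, k2⟩ := tree_of p
    have e1 : ∑ x ∈ X, ε (YT x) * x (j, (p, f)) = ∑ b ∈ X.image YT, ε b * b ((j, a), f) := by
      rw [Finset.sum_image (fun x hx x' hx' h => hinj x hx x' hx' h)]
      exact Finset.sum_congr rfl fun x hx => by rw [YT_val (hg x hx) p j f k1 k2]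
    rw [e1]
    refine (h3 _).trans ?_
    have e2 : ∑ q : J × Fin n, w q.1 * rr ^ (q.2 : ℕ) = (∑ j, w j) * ∑ b ∈ range n, rr ^ b := by
      rw [Fintype.sum_prod_type, Finset.sum_mul]
      apply Finset.sum_congr rfl
      intro j _
      rw [Finset.sum_range, Finset.mul_sum]
    rw [e2]
    have e3 := rr_sum n
    have e4 : 0 ≤ ∑ j, w j := Finset.sum_nonneg fun j _ => hw j
    have e5 : 0 ≤ K * ∑ j, w j := mul_nonneg hK0 e4
    calc K * ((∑ j, w j) * ∑ b ∈ range n, rr ^ b) = (K * ∑ j, w j) * ∑ b ∈ range n, rr ^ b := by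
          ring
      _ ≤ (K * ∑ j, w j) * 3.415 := mul_le_mul_of_nonneg_left e3 e5
      _ = _ := by ring

/-- block swaps of `Fin n` -/
def BS {n : ℕ} (g : Equiv.Perm (Fin n)) : Prop :=
  ∃ h i : ℕ, (i + 1) * 2 ^ (h + 1) ≤ n ∧
    ∀ a : Fin n, (g a : ℕ) = if (a : ℕ) / 2 ^ (h + 1) = i then (a : ℕ) ^^^ 2 ^ h else (a : ℕ)

lemma BS_inv {g : Equiv.Perm (Fin n)} (hg : BS g) (a : Fin n) : g (g a) = a := by
  obtain ⟨h, i, _, h2⟩ := hg
  apply Fin.ext
  rw [h2, h2]
  exact sw_sw (h, i) a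

def HS (n : ℕ) (Hs : Set (F → F)) : Set (Fin n × F → Fin n × F) :=
  {h | (∃ g : Equiv.Perm (Fin n), BS g ∧ h = fun d => (g d.1, d.2)) ∨
    ∃ h' ∈ Hs, h = fun d => (d.1, h' d.2)}

theorem oddP_step [Fintype F] {Hs : Set (F → F)} {K : ℝ} (hK : OddP F Hs K)
    (hK0 : 0 ≤ K) (hinv : ∀ h ∈ Hs, ∀ f, h (h f) = f) (n : ℕ) :
    OddP (Fin n × F) (HS n Hs) (10.7 * K) := by
  classical
  intro J _ w A hw hneg h00 hcl hn
  have hsu : ∀ u, Full n u → ∀ x ∈ A, x ∘ su u ∈ A := by
    intro u hu x hx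
    let g : Equiv.Perm (Fin n) :=
      { toFun := gn n u, invFun := gn n u, left_inv := gn_gn hu, right_inv := gn_gn hu }
    exact hcl (fun d => (g d.1, d.2)) (Or.inl ⟨g, ⟨u.1, u.2, hu, fun a => gn_val hu a⟩, rfl⟩) x hx
  have hh : ∀ h ∈ Hs, ∀ x ∈ A, (fun d : J × (Fin n × F) => x (d.1, (d.2.1, h d.2.2))) ∈ A :=
    fun h hh x hx => hcl (fun d => (d.1, h d.2)) (Or.inr ⟨h, hh, rfl⟩) x hx
  let key : (J × (Fin n × F) → ℝ) → Option (ℕ × ℕ) := fun x =>
    if h : ∃ v, P1 v x then some h.choose else none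
  have key_some : ∀ x v, key x = some v ↔ P1 v x := by
    intro x v
    constructor
    · intro h
      by_cases h' : ∃ v, P1 v x
      · have e : key x = some h'.choose := by simp only [key, dif_pos h']
        rw [e] at h
        have h1 := h'.choose_spec
        rw [Option.some.inj h] at h1
        exact h1
      · have e : key x = none := by simp only [key, dif_neg h']
        rw [e] at h
        exact absurd h (by simp)
    · intro h
      have h' : ∃ v, P1 v x := ⟨v, h⟩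
      have e : key x = some h'.choose := by simp only [key, dif_pos h']
      rw [e]
      congr 1
      exact P1_unique h'.choose_spec h
  have key_none : ∀ x, key x = none ↔ ∀ u, Full n u → x ∘ su u = x := by
    intro x
    constructor
    · intro h u hu
      by_contra hb
      obtain ⟨v, h1⟩ := P1_exists (n := n) (x := x) ⟨u, hu, hb⟩
      rw [(key_some x v).2 h1] at h
      exact absurd h (by simp)
    · intro h
      rcases hk : key x with _ | v
      · rfl
      · have := (key_some x v).1 hk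
        exact absurd (h v this.1) this.2.1
  have key_neg : ∀ x, key (-x) = key x := by
    intro x
    rcases hk : key x with _ | v
    · rw [key_none] at hk ⊢
      intro u hu
      funext d
      have := congrFun (hk u hu) d
      simp only [Function.comp_apply, Pi.neg_apply] at this ⊢
      rw [this]
    · rw [key_some] at hk ⊢
      exact P1_neg hk
  let KS : Finset (Option (ℕ × ℕ)) := insertNone (Nodes n)
  have hkey : ∀ x ∈ A, key x ∈ KS := by
    intro x _
    rcases hk : key x with _ | v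
    · simp [KS]
    · simp only [KS, Finset.some_mem_insertNone]
      exact mem_Nodes.2 ((key_some x v).1 hk).1
  let T : Option (ℕ × ℕ) → J × (Fin n × F) → ℝ := fun k r =>
    match k with
    | none => 3.415 * (K * ∑ j, w j)
    | some v => ind v r.2.1 * (2.12145 * rr ^ v.1 * (K * ∑ j, w j))
  have main : ∀ k ∈ KS, ∃ ε : (J × (Fin n × F) → ℝ) → ℝ, (∀ x, ε x = 1 ∨ ε x = -1) ∧
      (∀ x ∈ A.filter (fun x => key x = k), ε (-x) = -ε x) ∧
      ∀ r, |∑ x ∈ A.filter (fun x => key x = k), ε x * x r| ≤ T k r := by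
    intro k hk
    have hnegk : ∀ x ∈ A.filter (fun x => key x = k), -x ∈ A.filter (fun x => key x = k) :=
      fun x hx => Finset.mem_filter.2 ⟨hneg x (Finset.mem_filter.1 hx).1, by
        rw [key_neg]; exact (Finset.mem_filter.1 hx).2⟩
    rcases k with _ | v
    · obtain ⟨ε, h1, h2, h3⟩ := part_tree hK hK0 w hw (A.filter (fun x => key x = none))
        (fun x hx => (key_none x).1 (Finset.mem_filter.1 hx).2) hnegk
        (fun x hx => h00 x (Finset.mem_filter.1 hx).1)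
        (fun h hh' x hx => by
          have hx' := Finset.mem_filter.1 hx
          refine Finset.mem_filter.2 ⟨hh h hh' x hx'.1, ?_⟩
          have h5 := (key_none x).1 hx'.2
          rw [key_none]
          intro u hu
          funext d
          exact congrFun (h5 u hu) (d.1, (d.2.1, h d.2.2)))
        (fun x hx => hn x (Finset.mem_filter.1 hx).1)
      exact ⟨ε, h1, h2, h3⟩
    · have hv : Full n v := by
        rw [← mem_Nodes]
        simpa only [KS, Finset.some_mem_insertNone] using hk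
      have hPv : ∀ x ∈ A.filter (fun x => key x = some v), P1 v x :=
        fun x hx => (key_some x v).1 (Finset.mem_filter.1 hx).2
      obtain ⟨ε, h1, h2, h3⟩ := part_v hK hinv v hv w hw (A.filter (fun x => key x = some v))
        hPv hnegk
        (fun x hx => Finset.mem_filter.2 ⟨hsu v hv x (Finset.mem_filter.1 hx).1,
          (key_some _ v).2 (P1_su (hPv x hx))⟩)
        (fun h hh' x hx => Finset.mem_filter.2 ⟨hh h hh' x (Finset.mem_filter.1 hx).1,
          (key_some _ v).2 (P1_h (hPv x hx) (hinv h hh'))⟩)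
        (fun x hx => hn x (Finset.mem_filter.1 hx).1)
      exact ⟨ε, h1, h2, h3⟩
  choose! E hE1 hE2 hE3 using main
  refine ⟨fun x => if key x ∈ KS then E (key x) x else 1, ?_, ?_, ?_⟩
  · intro x
    by_cases h : key x ∈ KS
    · simpa [h] using hE1 _ h x
    · simp [h]
  · intro x hx
    have hk := hkey x hx
    simp only [key_neg, if_pos hk]
    exact hE2 _ hk x (Finset.mem_filter.2 ⟨hx, rfl⟩)
  · intro r
    rw [← Finset.sum_fiberwise_of_maps_to hkey]
    have step1 : |∑ k ∈ KS, ∑ x ∈ A.filter (fun x => key x = k),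
        (if key x ∈ KS then E (key x) x else 1) * x r| ≤ ∑ k ∈ KS, T k r := by
      refine (Finset.abs_sum_le_sum_abs _ _).trans (Finset.sum_le_sum fun k hk => ?_)
      refine le_trans (le_of_eq ?_) (hE3 k hk r)
      congr 1
      apply Finset.sum_congr rfl
      intro x hx
      simp only [(Finset.mem_filter.1 hx).2, if_pos hk]
    refine step1.trans ?_
    have hC : 0 ≤ K * ∑ j, w j := mul_nonneg hK0 (Finset.sum_nonneg fun j _ => hw j)
    have e1 : ∑ k ∈ KS, T k r = 3.415 * (K * ∑ j, w j) +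
        ∑ v ∈ Nodes n, ind v r.2.1 * (2.12145 * rr ^ v.1 * (K * ∑ j, w j)) := by
      simp only [KS]
      rw [Finset.sum_insertNone]
    rw [e1]
    have a1 := ind_sum n r.2.1 (fun l => 2.12145 * rr ^ l * (K * ∑ j, w j))
      (fun l => by have := rr_nonneg; positivity)
    have a2' : ∀ C : ℝ, ∑ l ∈ range n, 2.12145 * rr ^ l * C =
        2.12145 * C * ∑ l ∈ range n, rr ^ l := by
      intro C
      rw [Finset.mul_sum]
      exact Finset.sum_congr rfl fun l _ => by ring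
    have a2 := a2' (K * ∑ j, w j)
    have a3 := rr_sum n
    have a4 : 2.12145 * (K * ∑ j, w j) * ∑ l ∈ range n, rr ^ l ≤
        2.12145 * (K * ∑ j, w j) * 3.415 := mul_le_mul_of_nonneg_left a3 (by positivity)
    nlinarith

lemma HS_inv {Hs : Set (F → F)} (hinv : ∀ h ∈ Hs, ∀ f, h (h f) = f) (n : ℕ) :
    ∀ h ∈ HS n Hs, ∀ f, h (h f) = f := by
  rintro h (⟨g, hg, rfl⟩ | ⟨h', hh', rfl⟩) f
  · simp only [BS_inv hg]
  · simp only [hinv h' hh']

/-- from odd signings to signings of families -/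
theorem plain_of_odd {D : Type} [Fintype D] {Hs : Set (D → D)} {K : ℝ} (hK : OddP D Hs K)
    (hinv : ∀ h ∈ Hs, ∀ f, h (h f) = f) (N : Type) [Fintype N] (v : N → D → ℝ)
    (hv : ∀ h ∈ Hs, ∃ τ : Equiv.Perm N, ∀ j d, v (τ j) (h d) = v j d)
    (hn : ∀ j, ∑ d, v j d ^ 2 ≤ 1) :
    ∃ ε : N → ℝ, (∀ j, ε j = 1 ∨ ε j = -1) ∧ ∀ d, |∑ j, ε j * v j d| ≤ K / 2 := by
  classical
  obtain ⟨X, hX1, hX2⟩ := parity v
  have hmem : ∀ x ∈ X, ∃ j, v j = x := by
    intro x hx
    have h1 : 0 < Nat.card {j // v j = x} := ((hX1 x).1 hx).pos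
    obtain ⟨j, hj⟩ := (Nat.card_pos_iff.1 h1).1
    exact ⟨j, hj⟩
  have hXh : ∀ h ∈ Hs, ∀ x ∈ X, x ∘ h ∈ X := by
    intro h hh x hx
    obtain ⟨τ, hτ⟩ := hv h hh
    rw [hX1] at hx ⊢
    have hcard : Nat.card {j // v j = x ∘ h} = Nat.card {j // v j = x} := by
      apply Nat.card_congr
      symm
      refine τ.subtypeEquiv ?_
      intro j
      constructor
      · intro e
        funext d
        have := hτ j (h d)
        rw [hinv h hh] at this
        rw [this, e]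
        rfl
      · intro e
        funext d
        rw [← hτ j d, e]
        simp only [Function.comp_apply, hinv h hh]
    rw [hcard]
    exact hx
  let X' := X.filter (fun x => -x ∉ X)
  let L : (D → ℝ) → (Unit × D → ℝ) := fun x r => x r.2
  have Linj : ∀ x y, L x = L y → x = y := by
    intro x y h
    funext d
    exact congrFun h ((), d)
  have mX' : ∀ x, x ∈ X' ↔ x ∈ X ∧ -x ∉ X := fun x => Finset.mem_filter
  let A1 := X'.image L
  let A2 := X'.image (fun x => -(L x))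
  have hdisj : Disjoint A1 A2 := by
    rw [Finset.disjoint_left]
    intro a h1 h2
    obtain ⟨x, hx, rfl⟩ := Finset.mem_image.1 h1
    obtain ⟨y, hy, hxy⟩ := Finset.mem_image.1 h2
    have : -y = x := by
      apply Linj
      rw [← hxy]
      rfl
    exact ((mX' y).1 hy).2 (this ▸ ((mX' x).1 hx).1)
  obtain ⟨ε, h1, h2, h3⟩ := hK Unit (fun _ => 1) (A1 ∪ A2) (fun _ => zero_le_one)
    (by
      intro a ha
      rcases Finset.mem_union.1 ha with h | h
      · obtain ⟨x, hx, rfl⟩ := Finset.mem_image.1 h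
        exact Finset.mem_union_right _ (Finset.mem_image.2 ⟨x, hx, rfl⟩)
      · obtain ⟨x, hx, rfl⟩ := Finset.mem_image.1 h
        exact Finset.mem_union_left _ (Finset.mem_image.2 ⟨x, hx, (neg_neg _).symm⟩))
    (by
      have hx0 : ∀ x ∈ X', L x ≠ 0 := by
        intro x hx h
        have : x = 0 := by
          funext d
          exact congrFun h ((), d)
        have hx' := (mX' x).1 hx
        rw [this, neg_zero] at hx'
        exact hx'.2 hx'.1
      intro a ha h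
      rcases Finset.mem_union.1 ha with h' | h'
      · obtain ⟨x, hx, rfl⟩ := Finset.mem_image.1 h'
        exact hx0 x hx h
      · obtain ⟨x, hx, rfl⟩ := Finset.mem_image.1 h'
        exact hx0 x hx (neg_eq_zero.1 h))
    (by
      have hX'h : ∀ h ∈ Hs, ∀ x ∈ X', x ∘ h ∈ X' := by
        intro h hh x hx
        have hx' := (mX' x).1 hx
        refine (mX' _).2 ⟨hXh h hh x hx'.1, ?_⟩
        intro hc
        apply hx'.2
        have := hXh h hh _ hc
        have e : (-(x ∘ h)) ∘ h = -x := by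
          funext d
          simp only [Function.comp_apply, Pi.neg_apply, hinv h hh]
        rwa [e] at this
      intro h hh a ha
      rcases Finset.mem_union.1 ha with h' | h'
      · obtain ⟨x, hx, rfl⟩ := Finset.mem_image.1 h'
        exact Finset.mem_union_left _ (Finset.mem_image.2 ⟨x ∘ h, hX'h h hh x hx, rfl⟩)
      · obtain ⟨x, hx, rfl⟩ := Finset.mem_image.1 h'
        exact Finset.mem_union_right _ (Finset.mem_image.2 ⟨x ∘ h, hX'h h hh x hx, rfl⟩))
    (by
      intro a ha j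
      have hx1 : ∀ x ∈ X', ∑ d, x d ^ 2 ≤ 1 := by
        intro x hx
        obtain ⟨j, rfl⟩ := hmem x ((mX' x).1 hx).1
        exact hn j
      rcases Finset.mem_union.1 ha with h' | h'
      · obtain ⟨x, hx, rfl⟩ := Finset.mem_image.1 h'
        simpa only [L, one_pow] using hx1 x hx
      · obtain ⟨x, hx, rfl⟩ := Finset.mem_image.1 h'
        simpa only [L, one_pow, Pi.neg_apply, neg_sq] using hx1 x hx)
  obtain ⟨δ, h4, h5⟩ := hX2 (fun x => if -x ∉ X then ε (L x) else 1) (by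
    intro x
    by_cases h : -x ∉ X
    · simpa only [if_pos h] using h1 (L x)
    · left; simp only [if_neg h])
  refine ⟨δ, h4, fun d => ?_⟩
  rw [h5 d, ← Finset.sum_filter_add_sum_filter_not X (fun x => -x ∉ X)]
  have e1 : ∑ x ∈ X.filter (fun x => -x ∉ X), (if -x ∉ X then ε (L x) else 1) * x d =
      ∑ x ∈ X', ε (L x) * x d :=
    Finset.sum_congr rfl fun x hx => by rw [if_pos (Finset.mem_filter.1 hx).2]
  have e2 : ∑ x ∈ X.filter (fun x => ¬ -x ∉ X), (if -x ∉ X then ε (L x) else 1) * x d = 0 := by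
    have e3 : ∑ x ∈ X.filter (fun x => ¬ -x ∉ X), (if -x ∉ X then ε (L x) else 1) * x d =
        ∑ x ∈ X.filter (fun x => ¬ -x ∉ X), x d :=
      Finset.sum_congr rfl fun x hx => by rw [if_neg (Finset.mem_filter.1 hx).2, one_mul]
    have e4 : ∑ x ∈ X.filter (fun x => ¬ -x ∉ X), x d =
        ∑ x ∈ X.filter (fun x => ¬ -x ∉ X), -(x d) := by
      have hm : ∀ x ∈ X.filter (fun x => ¬ -x ∉ X), -x ∈ X.filter (fun x => ¬ -x ∉ X) := by
        intro x hx
        have hx' := Finset.mem_filter.1 hx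
        rw [not_not] at hx'
        refine Finset.mem_filter.2 ⟨hx'.2, ?_⟩
        rw [not_not, neg_neg]
        exact hx'.1
      refine Finset.sum_nbij' (fun x => -x) (fun x => -x) hm hm (fun x _ => neg_neg x)
        (fun x _ => neg_neg x) ?_
      intro x _
      simp only [Pi.neg_apply, neg_neg]
    rw [Finset.sum_neg_distrib] at e4
    rw [e3]
    linarith
  rw [e1, e2, add_zero]
  have h6 := h3 ((), d)
  rw [Finset.sum_union hdisj] at h6
  have e5 : ∑ a ∈ A1, ε a * a ((), d) = ∑ x ∈ X', ε (L x) * x d := by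
    simp only [A1]
    rw [Finset.sum_image (fun x _ y _ h => Linj x y h)]
  have e6 : ∑ a ∈ A2, ε a * a ((), d) = ∑ x ∈ X', ε (L x) * x d := by
    simp only [A2]
    rw [Finset.sum_image (fun x _ y _ h => Linj x y (neg_injective h))]
    apply Finset.sum_congr rfl
    intro x hx
    rw [h2 (L x) (Finset.mem_union_left _ (Finset.mem_image_of_mem _ hx))]
    simp only [Pi.neg_apply, L]
    ring
  rw [e5, e6] at h6
  simp only [Finset.univ_unique, Finset.sum_singleton, mul_one] at h6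
  have h7 : |∑ x ∈ X', ε (L x) * x d + ∑ x ∈ X', ε (L x) * x d| =
      2 * |∑ x ∈ X', ε (L x) * x d| := by
    rw [← two_mul, abs_mul, abs_of_pos (by norm_num : (0:ℝ) < 2)]
  rw [h7] at h6
  linarith

end H782.Kom
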